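import Pool.Agent.H42.RAT.Run

/-!
# RATS (MP_a315fd): additions which alternate between no carry and a carry out of each column
-/

set_option autoImplicit false

namespace Pool.RAT

open List

/-- the number with reversed digits -/
def rev (x : ℕ) : ℕ := Nat.ofDigits 10 (Nat.digits 10 x).reverse

/-- the addition `x + y` has a carry out of the column `i` -/
def carry (x y i : ℕ) : Prop := 10 ^ (i + 1) ≤ x % 10 ^ (i + 1) + y % 10 ^ (i + 1)

theorem rev_st {l : List ℕ} (h : St l) : rev (Nat.ofDigits 10 l) = Nat.ofDigits 10 l.reverse := by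
  rw [rev, digits_st h]

theorem mod_take {l : List ℕ} (h : ∀ d ∈ l, d < 10) (i : ℕ) :
    Nat.ofDigits 10 l % 10 ^ i = Nat.ofDigits 10 (l.take i) :=
  Nat.ofDigits_mod_pow_eq_ofDigits_take i (by norm_num) l h

theorem carry_iff {l : List ℕ} (h : St l) (i : ℕ) :
    carry (Nat.ofDigits 10 l) (rev (Nat.ofDigits 10 l)) i ↔
      10 ^ (i + 1) ≤ Nat.ofDigits 10 ((cs l).take (i + 1)) := by
  have h10 : ∀ d ∈ l, d < 10 := fun d hd => by have := (h.2 d hd).2; omega
  have h10r : ∀ d ∈ l.reverse, d < 10 := fun d hd => h10 d (mem_reverse.mp hd)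
  rw [carry, rev_st h, mod_take h10, mod_take h10r,
    Nat.ofDigits_add_ofDigits_eq_ofDigits_zipWith_of_length_eq (by simp)]
  rw [cs, take_zipWith]

theorem take_get (s : List ℕ) (i : ℕ) (hi : i < s.length) :
    Nat.ofDigits 10 (s.take (i + 1)) = Nat.ofDigits 10 (s.take i) + 10 ^ i * s[i] := by
  rw [take_succ_eq_append_getElem hi, Nat.ofDigits_append, length_take, Nat.min_eq_left hi.le,
    Nat.ofDigits_singleton]

/-- no carries: the column sums are `≤ 9` -/
theorem nc_cs {l : List ℕ} (h : St l)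
    (hn : ∀ i, ¬ carry (Nat.ofDigits 10 l) (rev (Nat.ofDigits 10 l)) i) : ∀ s ∈ cs l, s ≤ 9 := by
  intro s hs
  obtain ⟨i, hi, rfl⟩ := mem_iff_getElem.mp hs
  by_contra hc
  apply hn i
  rw [carry_iff h, take_get _ i hi, pow_succ]
  have : 10 ^ i * 10 ≤ 10 ^ i * (cs l)[i] := Nat.mul_le_mul_left _ (by omega)
  omega

/-- a carry out of each column -/
theorem ac_cs {l : List ℕ} (h : St l)
    (hn : ∀ i < l.length, carry (Nat.ofDigits 10 l) (rev (Nat.ofDigits 10 l)) i) {a : ℕ}
    {t : List ℕ} (hc : cs l = a :: t) : 10 ≤ a ∧ ∀ d ∈ t, 9 ≤ d := by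
  have h18 : ∀ s ∈ cs l, s ≤ 18 := by
    intro s hs
    obtain ⟨x, hx, y, hy, rfl⟩ := mem_cs hs
    have := (h.2 x hx).2
    have := (h.2 y hy).2
    omega
  have hlen := len_cs l
  constructor
  · have h0 := hn 0 (by rw [← hlen, hc]; simp)
    rw [carry_iff h, hc] at h0
    simpa using h0
  · intro d hd
    obtain ⟨i, hi, rfl⟩ := mem_iff_getElem.mp hd
    have hi' : i + 1 < (cs l).length := by rw [hc]; simpa using hi
    have h1 := hn (i + 1) (by omega)
    rw [carry_iff h, take_get _ (i + 1) hi'] at h1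
    have e1 : (cs l)[i + 1] = t[i] := by simp [hc]
    have hlt : Nat.ofDigits 10 ((cs l).take (i + 1)) < 2 * 10 ^ (i + 1) := by
      have h10 : ∀ d ∈ l, d < 10 := fun d hd => by have := (h.2 d hd).2; omega
      have h10r : ∀ d ∈ l.reverse, d < 10 := fun d hd => h10 d (mem_reverse.mp hd)
      have e2 : Nat.ofDigits 10 ((cs l).take (i + 1)) =
          Nat.ofDigits 10 l % 10 ^ (i + 1) + Nat.ofDigits 10 l.reverse % 10 ^ (i + 1) := by
        rw [mod_take h10, mod_take h10r,
          Nat.ofDigits_add_ofDigits_eq_ofDigits_zipWith_of_length_eq (by simp), cs, take_zipWith]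
      have p : 0 < 10 ^ (i + 1) := by positivity
      have := Nat.mod_lt (Nat.ofDigits 10 l) p
      have := Nat.mod_lt (Nat.ofDigits 10 l.reverse) p
      omega
    rw [e1, pow_succ 10 (i + 1)] at h1
    by_contra hc9
    have : 10 ^ (i + 1) * t[i] ≤ 10 ^ (i + 1) * 8 := Nat.mul_le_mul_left _ (by omega)
    omega

/-- columns `≤ 9`: no carries -/
theorem nc_of {l : List ℕ} (h : St l) (h9 : ∀ s ∈ cs l, s ≤ 9) (i : ℕ) :
    ¬ carry (Nat.ofDigits 10 l) (rev (Nat.ofDigits 10 l)) i := by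
  rw [carry_iff h, not_le]
  have h1 : Nat.ofDigits 10 ((cs l).take (i + 1)) < 10 ^ ((cs l).take (i + 1)).length :=
    Nat.ofDigits_lt_base_pow_length (by norm_num) (fun d hd => by
      have := h9 d (mem_of_mem_take hd); omega)
  exact h1.trans_le (Nat.pow_le_pow_right (by norm_num) (by rw [length_take]; omega))

/-- columns `≥ 10`: carries everywhere -/
theorem ac_of {l : List ℕ} (h : St l) (h10 : ∀ s ∈ cs l, 10 ≤ s) (i : ℕ) (hi : i < l.length) :
    carry (Nat.ofDigits 10 l) (rev (Nat.ofDigits 10 l)) i := by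
  have hi' : i < (cs l).length := by rw [len_cs]; exact hi
  rw [carry_iff h, take_get _ i hi', pow_succ]
  have : 10 ^ i * 10 ≤ 10 ^ i * (cs l)[i] := Nat.mul_le_mul_left _ (h10 _ (getElem_mem _))
  omega

/-- THE ALTERNATE CASE, in terms of the column sums -/
theorem alt_cols {n K : ℕ} (hn : 0 < n) (hK : 1 ≤ K)
    (h9 : ∀ j, ∀ s ∈ cs (Nat.digits 10 (rats^[K + 2 * j] n)), s ≤ 9)
    (h10 : ∀ j, ∀ a t, cs (nz (cs (Nat.digits 10 (rats^[K + 2 * j] n)))) = a :: t →
      10 ≤ a ∧ ∀ d ∈ t, 9 ≤ d) :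
    Trib n ∨ ∃ J, ∀ j, J ≤ j →
      (Nat.digits 10 (rats^[K + 2 * j] n)).sum = 3 * (Nat.digits 10 (rats^[K + 2 * j] n)).length ∧
      (Nat.digits 10 (rats^[K + 2 * (j + 1)] n)).length =
        (Nat.digits 10 (rats^[K + 2 * j] n)).length := by
  obtain ⟨l, hl⟩ : ∃ l : ℕ → List ℕ, l = fun j => Nat.digits 10 (rats^[K + 2 * j] n) := ⟨_, rfl⟩
  have hX : ∀ j, rats^[K + 2 * j] n = Nat.ofDigits 10 (l j) := fun j => by
    rw [hl, Nat.ofDigits_digits]
  have hst : ∀ j, St (l j) := fun j => by rw [hl]; exact iter_st n (by omega)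
  have hne : ∀ j, l j ≠ [] := fun j => by
    rw [hl]
    exact Nat.digits_ne_nil_iff_ne_zero.mpr (iter_pos hn _).ne'
  have h9' : ∀ j, ∀ s ∈ cs (l j), s ≤ 9 := by rw [hl]; exact h9
  have h10' : ∀ j, ∀ a t, cs (nz (cs (l j))) = a :: t → 10 ≤ a ∧ ∀ d ∈ t, 9 ≤ d := by
    rw [hl]; exact h10
  have hB : ∀ j, ∃ a t, cs (nz (cs (l j))) = a :: t := by
    intro j
    obtain ⟨-, hp, -, -⟩ := dstep (hst j) (h9' j)
    have : cs (nz (cs (l j))) ≠ [] := by
      intro h0
      have h1 := congrArg List.length h0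
      rw [len_cs, ← hp.length_eq, len_cs, length_nil] at h1
      exact hne j (length_eq_zero_iff.mp h1)
    obtain ⟨a, t, h⟩ := exists_cons_of_ne_nil this
    exact ⟨a, t, h⟩
  choose a t hc using hB
  obtain ⟨D, hD⟩ : ∃ D : ℕ → List ℕ, D = fun j => (a j - 10) :: ((t j).map (fun d => d - 9) ++ [1]) :=
    ⟨_, rfl⟩
  have hstep : ∀ j, l (j + 1) = nz (D j) ∧ St (nz (D j)) ∧
      (l (j + 1)).sum + 9 * (l j).length = 4 * (l j).sum ∧
      (l (j + 1)).length + (D j).count 0 = (l j).length + 1 := by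
    intro j
    obtain ⟨ha, ht⟩ := h10' j _ _ (hc j)
    obtain ⟨-, -, -, hh⟩ := dstep (hst j) (h9' j)
    obtain ⟨D', hD', hr, hs, h1, h2⟩ := hh _ _ (hc j) ha ht
    have e : D' = D j := by rw [hD', hD]
    rw [e] at hr hs h1 h2
    have hl' : l (j + 1) = nz (D j) := by
      have e1 : rats^[K + 2 * (j + 1)] n = Nat.ofDigits 10 (nz (D j)) := by
        rw [show K + 2 * (j + 1) = K + 2 * j + 1 + 1 by ring, Function.iterate_succ_apply',
          Function.iterate_succ_apply', hX, hr]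
      have e2 : l (j + 1) = Nat.digits 10 (rats^[K + 2 * (j + 1)] n) := by rw [hl]
      rw [e2, e1, digits_st hs]
    exact ⟨hl', hs, by rw [hl']; exact h1, by rw [hl']; exact h2⟩
  have hsum9 : ∀ j, (l j).sum ≤ 9 * (l j).length := by
    intro j
    have : ∀ w : List ℕ, (∀ d ∈ w, d ≤ 9) → w.sum ≤ 9 * w.length := by
      intro w hw
      have := List.sum_le_card_nsmul w 9 hw
      rw [smul_eq_mul] at this
      omega
    exact this _ (fun d hd => ((hst j).2 d hd).2)
  rcases pot (fun j => ((l j).sum : ℤ)) (fun j => ((l j).length : ℤ))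
    (fun j => by have := (hstep j).2.2.1; omega)
    (fun j => by have := (hstep j).2.2.2; omega)
    (fun j => by have := hsum9 j; omega)
    (fun j => by omega) with ⟨J, hJ⟩ | ⟨J, hJ⟩
  · left
    refine run_trib (K := K + 2 * J) (fun j => l (J + j)) (fun j => nz (cs (l (J + j)))) ?_ ?_
    · intro j
      rw [show K + 2 * J + 2 * j = K + 2 * (J + j) by ring, hX]
    · intro j
      obtain ⟨h1, h2⟩ := hJ (J + j) (by omega)
      have h3 := hstep (J + j)
      obtain ⟨ha, ht⟩ := h10' (J + j) _ _ (hc (J + j))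
      have e : J + (j + 1) = J + j + 1 := by ring
      simp only [e]
      rw [h3.1]
      exact dbl_of (hst _) (h9' _) (hc (J + j)) (by omega) (by rw [hD]) (by omega) h3.2.1
  · right
    refine ⟨J, fun j hj => ?_⟩
    obtain ⟨h1, h2⟩ := hJ j hj
    simp only [hl] at h1 h2
    constructor <;> omega

/-- THE ALTERNATE CASE -/
theorem alt_trib {n K : ℕ} (hn : 0 < n)
    (hper : ¬ ∃ k p, 0 < p ∧ rats^[k + p] n = rats^[k] n)
    (hN : ∀ j, ∀ i, ¬ carry (rats^[K + 2 * j] n) (rev (rats^[K + 2 * j] n)) i)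
    (hA : ∀ j, ∀ i < (Nat.digits 10 (rats^[K + 2 * j + 1] n)).length,
      carry (rats^[K + 2 * j + 1] n) (rev (rats^[K + 2 * j + 1] n)) i) : Trib n := by
  have hst : ∀ j, St (Nat.digits 10 (rats^[K + 2 + 2 * j] n)) := fun j => iter_st n (by omega)
  have h9 : ∀ j, ∀ s ∈ cs (Nat.digits 10 (rats^[K + 2 + 2 * j] n)), s ≤ 9 := by
    intro j
    apply nc_cs (hst j)
    rw [Nat.ofDigits_digits, show K + 2 + 2 * j = K + 2 * (j + 1) by ring]
    exact hN (j + 1)
  have h10 : ∀ j, ∀ a t, cs (nz (cs (Nat.digits 10 (rats^[K + 2 + 2 * j] n)))) = a :: t →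
      10 ≤ a ∧ ∀ d ∈ t, 9 ≤ d := by
    intro j a t hc
    obtain ⟨h1, h2, h3, -⟩ := dstep (hst j) (h9 j)
    rw [Nat.ofDigits_digits] at h3
    have e : rats^[K + 2 * (j + 1) + 1] n =
        Nat.ofDigits 10 (nz (cs (Nat.digits 10 (rats^[K + 2 + 2 * j] n)))) := by
      rw [Function.iterate_succ_apply', ← h3, show K + 2 + 2 * j = K + 2 * (j + 1) by ring]
    have h4 := hA (j + 1)
    rw [e, digits_st h1] at h4
    exact ac_cs h1 h4 hc
  rcases alt_cols hn (by omega) h9 h10 with h | ⟨J, hJ⟩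
  · exact h
  · exfalso
    apply hper
    have hlen : ∀ i, (Nat.digits 10 (rats^[K + 2 + 2 * (J + i)] n)).length =
        (Nat.digits 10 (rats^[K + 2 + 2 * J] n)).length := by
      intro i
      induction i with
      | zero => rfl
      | succ i ih =>
        have := (hJ (J + i) (by omega)).2
        rw [← Nat.add_assoc, this, ih]
    exact periodic_of_bdd (fun i => K + 2 + 2 * (J + i)) (fun i j hij => by dsimp only; omega)
      (10 ^ (Nat.digits 10 (rats^[K + 2 + 2 * J] n)).length)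
      (fun i => lt_pow_of_len (hlen i).le)

end Pool.RAT
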