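import Pool.Agent.H42.RAT.Cyc2

/-!
# RATS (MP_a315fd): the alternate case, without the assumption on cycles
-/

set_option autoImplicit false

namespace Pool.RAT

open List

/-- exactly one zero -/
theorem zbl_of {l : List ℕ} (hl : St l) (hne : l ≠ []) (h9 : ∀ s ∈ cs l, s ≤ 9) {a : ℕ} {t : List ℕ}
    (hc : cs (nz (cs l)) = a :: t) (ha : 10 ≤ a) (ht : ∀ d ∈ t, 9 ≤ d)
    (hs : l.sum = 3 * l.length) {D : List ℕ} (hD : D = (a - 10) :: (t.map (fun d => d - 9) ++ [1]))
    (h0 : D.count 0 = 1) (hst : St (nz D)) (hs' : (nz D).sum = 3 * (nz D).length)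
    (hlen : (nz D).length = l.length) : Zbl l (nz (cs l)) (nz D) := by
  obtain ⟨h1, h2, -, -⟩ := dstep hl h9
  obtain ⟨B, hB⟩ : ∃ B, B = nz (cs l) := ⟨_, rfl⟩
  rw [← hB] at hc h1 h2 ⊢
  have hcl := len_cs B
  have hlt : t.length + 1 = B.length := by rw [← hcl, hc, length_cons]
  have hget : ∀ k (hk : k < t.length), t[k] = B[k + 1]'(by omega) +
      B[B.length - 1 - (k + 1)]'(by omega) := by
    intro k hk
    have e1 := cs_get B (k + 1) (by omega)
    have e2 : (cs B)[k + 1]'(by omega) = t[k] := by simp [hc]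
    omega
  have h9t : ∀ d ∈ t, 10 ≤ d := by
    intro d hd
    by_contra hcon
    obtain ⟨i, hi, hd9⟩ := mem_iff_getElem.mp hd
    have hge := ht d hd
    have h9i : t[i] = 9 := by omega
    have e1 := hget i hi
    -- the mirror
    have hm0 : B.length - 1 - (i + 1) ≠ 0 := by
      intro h
      have e2 := cs_get B 0 (by omega)
      have e3 : (cs B)[0]'(by omega) = a := by simp [hc]
      have e4 : B.length - 1 - 0 = i + 1 := by omega
      simp only [e4] at e2
      simp only [h] at e1
      omega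
    obtain ⟨k, hk⟩ := Nat.exists_eq_add_of_le' (show 1 ≤ B.length - 1 - (i + 1) by omega)
    have hkt : k < t.length := by omega
    have e2 := hget k hkt
    have e3 : B.length - 1 - (k + 1) = i + 1 := by omega
    simp only [e3] at e2
    simp only [hk] at e1
    have h9k : t[k] = 9 := by omega
    have hik : i ≠ k := by
      intro h
      subst h
      omega
    have hcm : 2 ≤ (t.map (fun d => d - 9)).count 0 := by
      rcases Nat.lt_or_gt_of_ne hik with h3 | h3
      · apply two_count _ i k h3 (by rw [length_map]; exact hkt)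
        · rw [getElem_map, h9i]
        · rw [getElem_map, h9k]
      · apply two_count _ k i h3 (by rw [length_map]; exact hi)
        · rw [getElem_map, h9k]
        · rw [getElem_map, h9i]
    rw [hD, count_cons, count_append] at h0
    omega
  have hm0 : (t.map (fun d => d - 9)).count 0 = 0 := by
    rw [count_eq_zero, mem_map]
    rintro ⟨e, he, h3⟩
    have := h9t e he
    omega
  have ha10 : a = 10 := by
    rw [hD, count_cons, count_append, hm0] at h0
    by_contra hne10
    have : ¬ (a - 10 = 0) := by omega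
    simp [this] at h0
  refine ⟨hl, h1, hst, hne, h9, h2, ⟨t, by rw [hc, ha10], h9t, ?_⟩, hs, hs', hlen⟩
  refine (nz_perm D).trans ?_
  rw [hD, ha10, filter_cons_of_neg (by simp), filter_eq_self.mpr]
  intro d hd
  rw [mem_append, mem_map, mem_singleton] at hd
  simp only [decide_eq_true_eq]
  rcases hd with ⟨e, he, rfl⟩ | rfl
  · have := h9t e he
    omega
  · norm_num

theorem alt_full {n K : ℕ} (hn : 0 < n) (hK : 1 ≤ K)
    (h9 : ∀ j, ∀ s ∈ cs (Nat.digits 10 (rats^[K + 2 * j] n)), s ≤ 9)
    (h10 : ∀ j, ∀ a t, cs (nz (cs (Nat.digits 10 (rats^[K + 2 * j] n)))) = a :: t →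
      10 ≤ a ∧ ∀ d ∈ t, 9 ≤ d) :
    Trib n ∨ ∃ k t, 1 ≤ t ∧
      rats^[k] n = Nat.ofDigits 10 (replicate t 7 ++ replicate (2 * t) 1) := by
  rcases alt_cols hn hK h9 h10 with h | ⟨J, hJ⟩
  · exact Or.inl h
  right
  obtain ⟨l, hl⟩ : ∃ l : ℕ → List ℕ, l = fun j => Nat.digits 10 (rats^[K + 2 * j] n) := ⟨_, rfl⟩
  have hX : ∀ j, rats^[K + 2 * j] n = Nat.ofDigits 10 (l j) := fun j => by
    rw [hl, Nat.ofDigits_digits]
  have hst : ∀ j, St (l j) := fun j => by rw [hl]; exact iter_st n (by omega)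
  have hne : ∀ j, l j ≠ [] := fun j => by
    rw [hl]
    exact Nat.digits_ne_nil_iff_ne_zero.mpr (iter_pos hn _).ne'
  have h9' : ∀ j, ∀ s ∈ cs (l j), s ≤ 9 := by rw [hl]; exact h9
  have h10' : ∀ j, ∀ a t, cs (nz (cs (l j))) = a :: t → 10 ≤ a ∧ ∀ d ∈ t, 9 ≤ d := by
    rw [hl]; exact h10
  have hJ' : ∀ j, J ≤ j → (l j).sum = 3 * (l j).length ∧ (l (j + 1)).length = (l j).length := by
    rw [hl]; exact hJ
  have hB : ∀ j, ∃ a t, cs (nz (cs (l j))) = a :: t := by
    intro j
    obtain ⟨-, hp, -, -⟩ := dstep (hst j) (h9' j)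
    have : cs (nz (cs (l j))) ≠ [] := by
      intro h0
      have h1 := congrArg List.length h0
      rw [len_cs, ← hp.length_eq, len_cs, length_nil] at h1
      exact hne j (length_eq_zero_iff.mp h1)
    obtain ⟨a, t, h⟩ := exists_cons_of_ne_nil this
    exact ⟨a, t, h⟩
  choose a t hc using hB
  obtain ⟨D, hD⟩ : ∃ D : ℕ → List ℕ, D = fun j => (a j - 10) :: ((t j).map (fun d => d - 9) ++ [1]) :=
    ⟨_, rfl⟩
  have hstep : ∀ j, l (j + 1) = nz (D j) ∧ St (nz (D j)) ∧
      (l (j + 1)).length + (D j).count 0 = (l j).length + 1 := by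
    intro j
    obtain ⟨ha, ht⟩ := h10' j _ _ (hc j)
    obtain ⟨-, -, -, hh⟩ := dstep (hst j) (h9' j)
    obtain ⟨D', hD', hr, hs, -, h2⟩ := hh _ _ (hc j) ha ht
    have e : D' = D j := by rw [hD', hD]
    rw [e] at hr hs h2
    have hl' : l (j + 1) = nz (D j) := by
      have e1 : rats^[K + 2 * (j + 1)] n = Nat.ofDigits 10 (nz (D j)) := by
        rw [show K + 2 * (j + 1) = K + 2 * j + 1 + 1 by ring, Function.iterate_succ_apply',
          Function.iterate_succ_apply', hX, hr]
      have e2 : l (j + 1) = Nat.digits 10 (rats^[K + 2 * (j + 1)] n) := by rw [hl]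
      rw [e2, e1, digits_st hs]
    exact ⟨hl', hs, by rw [hl']; exact h2⟩
  have hz : ∀ j, Zbl (l (J + j)) (nz (cs (l (J + j)))) (l (J + j + 1)) := by
    intro j
    obtain ⟨h1, h2⟩ := hJ' (J + j) (by omega)
    obtain ⟨h3, -⟩ := hJ' (J + j + 1) (by omega)
    obtain ⟨e1, e2, e3⟩ := hstep (J + j)
    obtain ⟨ha, ht⟩ := h10' (J + j) _ _ (hc (J + j))
    have := zbl_of (hst (J + j)) (hne _) (h9' _) (hc (J + j)) ha ht h1 (D := D (J + j)) (by rw [hD])
      (by omega) e2 (by rw [← e1]; exact h3) (by rw [← e1]; exact h2)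
    rw [← e1] at this
    exact this
  obtain ⟨s, hs, he⟩ := z_run (fun j => l (J + j)) (fun j => nz (cs (l (J + j)))) hz
  exact ⟨K + 2 * (J + 0), s, hs, by rw [hX]; exact congrArg _ he⟩

/-- THE ALTERNATE CASE, all sequences -/
theorem alt_all {n K : ℕ} (hn : 0 < n)
    (hN : ∀ j, ∀ i, ¬ carry (rats^[K + 2 * j] n) (rev (rats^[K + 2 * j] n)) i)
    (hA : ∀ j, ∀ i < (Nat.digits 10 (rats^[K + 2 * j + 1] n)).length,
      carry (rats^[K + 2 * j + 1] n) (rev (rats^[K + 2 * j + 1] n)) i) :
    Trib n ∨ ∃ k t, 1 ≤ t ∧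
      rats^[k] n = Nat.ofDigits 10 (replicate t 7 ++ replicate (2 * t) 1) := by
  have hst : ∀ j, St (Nat.digits 10 (rats^[K + 2 + 2 * j] n)) := fun j => iter_st n (by omega)
  have h9 : ∀ j, ∀ s ∈ cs (Nat.digits 10 (rats^[K + 2 + 2 * j] n)), s ≤ 9 := by
    intro j
    apply nc_cs (hst j)
    rw [Nat.ofDigits_digits, show K + 2 + 2 * j = K + 2 * (j + 1) by ring]
    exact hN (j + 1)
  have h10 : ∀ j, ∀ a t, cs (nz (cs (Nat.digits 10 (rats^[K + 2 + 2 * j] n)))) = a :: t →
      10 ≤ a ∧ ∀ d ∈ t, 9 ≤ d := by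
    intro j a t hc
    obtain ⟨h1, h2, h3, -⟩ := dstep (hst j) (h9 j)
    rw [Nat.ofDigits_digits] at h3
    have e : rats^[K + 2 * (j + 1) + 1] n =
        Nat.ofDigits 10 (nz (cs (Nat.digits 10 (rats^[K + 2 + 2 * j] n)))) := by
      rw [Function.iterate_succ_apply', ← h3, show K + 2 + 2 * j = K + 2 * (j + 1) by ring]
    have h4 := hA (j + 1)
    rw [e, digits_st h1] at h4
    exact ac_cs h1 h4 hc
  exact alt_full hn (by omega) h9 h10

/-- digits `7`, `1` -/
theorem st_71 (t : ℕ) : St (replicate t 7 ++ replicate (2 * t) 1) := by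
  refine ⟨?_, fun d hd => ?_⟩
  · rw [pairwise_append]
    refine ⟨pairwise_replicate.mpr (Or.inr (le_refl _)), pairwise_replicate.mpr (Or.inr (le_refl _)),
      ?_⟩
    intro x hx y hy
    rw [mem_replicate] at hx hy
    omega
  · rw [mem_append, mem_replicate, mem_replicate] at hd
    omega

theorem st_82 (t : ℕ) : St (replicate (2 * t) 8 ++ replicate t 2) := by
  refine ⟨?_, fun d hd => ?_⟩
  · rw [pairwise_append]
    refine ⟨pairwise_replicate.mpr (Or.inr (le_refl _)), pairwise_replicate.mpr (Or.inr (le_refl _)),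
      ?_⟩
    intro x hx y hy
    rw [mem_replicate] at hx hy
    omega
  · rw [mem_append, mem_replicate, mem_replicate] at hd
    omega

theorem cs_71 (t : ℕ) : cs (replicate t 7 ++ replicate (2 * t) 1) =
    replicate t 8 ++ (replicate t 2 ++ replicate t 8) := by
  have e : replicate t 7 ++ replicate (2 * t) 1 = replicate t 7 ++ (replicate t 1 ++ replicate t 1) := by
    rw [two_mul, replicate_add]
  rw [e, cs_wrap, cs_rep]

theorem cs_82 (t : ℕ) : cs (replicate (2 * t) 8 ++ replicate t 2) =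
    replicate t 10 ++ (replicate t 16 ++ replicate t 10) := by
  have e : replicate (2 * t) 8 ++ replicate t 2 = replicate t 8 ++ (replicate t 8 ++ replicate t 2) := by
    rw [two_mul, replicate_add, append_assoc]
  rw [e, cs_wrap, cs_rep]

theorem step_71 (t : ℕ) : rats (Nat.ofDigits 10 (replicate t 7 ++ replicate (2 * t) 1)) =
    Nat.ofDigits 10 (replicate (2 * t) 8 ++ replicate t 2) := by
  apply rats_N (st_71 t) (st_82 t)
  rw [cs_71, perm_iff_count]
  intro x
  simp only [count_append, count_replicate, beq_iff_eq]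
  split_ifs <;> omega

theorem step_82 (t : ℕ) (ht : 1 ≤ t) : rats (Nat.ofDigits 10 (replicate (2 * t) 8 ++ replicate t 2)) =
    Nat.ofDigits 10 (replicate t 7 ++ replicate (2 * t) 1) := by
  obtain ⟨t, rfl⟩ := Nat.exists_eq_add_of_le' ht
  have h : cs (replicate (2 * (t + 1)) 8 ++ replicate (t + 1) 2) =
      10 :: (replicate t 10 ++ (replicate (t + 1) 16 ++ replicate (t + 1) 10)) := by
    rw [cs_82]
    conv_lhs => rw [replicate_succ (n := t) (a := 10), cons_append]
    rw [← replicate_succ]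
  rw [rats_F (st_82 _) h (le_refl _)]
  · congr 1
    apply sort_eq _ (st_71 _).1
    rw [Nat.sub_self, filter_cons_of_neg (by simp), filter_eq_self.mpr]
    · rw [perm_iff_count]
      intro x
      simp only [map_append, map_replicate, count_append, count_cons, count_replicate, count_nil,
        beq_iff_eq]
      norm_num
      split_ifs <;> omega
    · intro d hd
      simp only [map_append, map_replicate, mem_append, mem_replicate, mem_singleton] at hd
      simp only [decide_eq_true_eq]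
      omega
  · intro d hd
    simp only [mem_append, mem_replicate] at hd
    omega

theorem cyc_71 {n k t : ℕ} (ht : 1 ≤ t)
    (h : rats^[k] n = Nat.ofDigits 10 (replicate t 7 ++ replicate (2 * t) 1)) (j : ℕ) :
    rats^[k + 2 * j] n = Nat.ofDigits 10 (replicate t 7 ++ replicate (2 * t) 1) ∧
      rats^[k + 2 * j + 1] n = Nat.ofDigits 10 (replicate (2 * t) 8 ++ replicate t 2) := by
  have key : ∀ j, rats^[k + 2 * j] n = Nat.ofDigits 10 (replicate t 7 ++ replicate (2 * t) 1) := by
    intro j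
    induction j with
    | zero => exact h
    | succ j ih =>
      rw [show k + 2 * (j + 1) = k + 2 * j + 1 + 1 by ring, Function.iterate_succ_apply',
        Function.iterate_succ_apply', ih, step_71, step_82 t ht]
  exact ⟨key j, by rw [Function.iterate_succ_apply', key j, step_71]⟩

theorem cyc_carry (t : ℕ) :
    (∀ i, ¬ carry (Nat.ofDigits 10 (replicate t 7 ++ replicate (2 * t) 1))
      (rev (Nat.ofDigits 10 (replicate t 7 ++ replicate (2 * t) 1))) i) ∧
    (∀ i < (Nat.digits 10 (Nat.ofDigits 10 (replicate (2 * t) 8 ++ replicate t 2))).length,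
      carry (Nat.ofDigits 10 (replicate (2 * t) 8 ++ replicate t 2))
        (rev (Nat.ofDigits 10 (replicate (2 * t) 8 ++ replicate t 2))) i) := by
  constructor
  · apply nc_of (st_71 t)
    intro s hs
    rw [cs_71] at hs
    simp only [mem_append, mem_replicate] at hs
    omega
  · rw [digits_st (st_82 t)]
    intro i hi
    apply ac_of (st_82 t) _ i hi
    intro s hs
    rw [cs_82] at hs
    simp only [mem_append, mem_replicate] at hs
    omega

end Pool.RAT
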