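import Mathlib

/-!
# RATS (MP_a315fd): digit lists

A term of a RATS sequence is kept as the list of its decimal digits, least significant first; all
the terms but the first have digits in decreasing order in this list, and no digit zero (`St`).
-/

set_option autoImplicit false

namespace Pool.RAT

open List

/-- the RATS map: reverse, add, then sort (zeros disappear) -/
def rats (x : ℕ) : ℕ :=
  Nat.ofDigits 10 ((Nat.digits 10 (x + Nat.ofDigits 10 (Nat.digits 10 x).reverse)).mergeSort
    (fun a b => decide (b ≤ a)))

/-- sorted (decreasing) list of nonzero digits -/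
def St (l : List ℕ) : Prop := l.Pairwise (· ≥ ·) ∧ ∀ d ∈ l, 1 ≤ d ∧ d ≤ 9

/-- the nonzero entries, sorted -/
def nz (l : List ℕ) : List ℕ := (l.filter (fun d => decide (0 < d))).mergeSort (fun a b => decide (b ≤ a))

/-- the column sums -/
def cs (l : List ℕ) : List ℕ := List.zipWith (· + ·) l l.reverse

theorem sort_pw (l : List ℕ) : (l.mergeSort (fun a b => decide (b ≤ a))).Pairwise (· ≥ ·) := by
  have h := List.pairwise_mergeSort (le := fun a b : ℕ => decide (b ≤ a))
    (fun a b c h1 h2 => by simp only [decide_eq_true_eq] at *; omega)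
    (fun a b => by simp only [Bool.or_eq_true, decide_eq_true_eq]; omega) l
  exact h.imp (fun h => by simpa using h)

theorem sort_eq {l l' : List ℕ} (h : l.Perm l') (hp : l'.Pairwise (· ≥ ·)) :
    l.mergeSort (fun a b => decide (b ≤ a)) = l' :=
  Perm.eq_of_pairwise' (sort_pw l) hp ((List.mergeSort_perm l _).trans h)

theorem nz_perm (l : List ℕ) : (nz l).Perm (l.filter (fun d => decide (0 < d))) :=
  List.mergeSort_perm _ _

theorem mem_nz {l : List ℕ} {d : ℕ} : d ∈ nz l ↔ d ∈ l ∧ 0 < d := by
  rw [(nz_perm l).mem_iff, mem_filter, decide_eq_true_eq]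

theorem nz_st {l : List ℕ} (h : ∀ d ∈ l, d < 10) : St (nz l) := by
  refine ⟨sort_pw _, ?_⟩
  intro d hd
  rw [mem_nz] at hd
  have := h d hd.1
  omega

theorem count_nz (l : List ℕ) (d : ℕ) (hd : 0 < d) : (nz l).count d = l.count d := by
  rw [(nz_perm l).count_eq, count_filter (by simpa using hd)]

theorem sum_filter_pos (l : List ℕ) : (l.filter (fun d => decide (0 < d))).sum = l.sum := by
  induction l with
  | nil => simp
  | cons a t ih =>
    by_cases h : 0 < a
    · rw [filter_cons_of_pos (by simpa using h), sum_cons, sum_cons, ih]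
    · rw [filter_cons_of_neg (by simpa using h), sum_cons, ih]; omega

theorem len_filter_pos (l : List ℕ) :
    (l.filter (fun d => decide (0 < d))).length + l.count 0 = l.length := by
  induction l with
  | nil => simp
  | cons a t ih =>
    by_cases h : 0 < a
    · rw [filter_cons_of_pos (by simpa using h), length_cons, length_cons,
        count_cons_of_ne (by omega)]; omega
    · have h0 : a = 0 := by omega
      subst h0
      rw [filter_cons_of_neg (by simp), length_cons, count_cons_self]; omega

theorem sum_nz (l : List ℕ) : (nz l).sum = l.sum := by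
  rw [(nz_perm l).sum_eq, sum_filter_pos]

theorem len_nz (l : List ℕ) : (nz l).length + l.count 0 = l.length := by
  rw [(nz_perm l).length_eq, len_filter_pos]

theorem filter_perm (l : List ℕ) :
    l.Perm (l.filter (fun d => decide (0 < d)) ++ replicate (l.count 0) 0) := by
  induction l with
  | nil => simp
  | cons a t ih =>
    by_cases h : 0 < a
    · rw [filter_cons_of_pos (by simpa using h), count_cons_of_ne (by omega), cons_append]
      exact ih.cons a
    · have h0 : a = 0 := by omega
      subst h0
      rw [filter_cons_of_neg (by simp), count_cons_self, replicate_succ]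
      exact (ih.cons 0).trans perm_middle.symm

/-- digits of a number whose digit list is a `St` list -/
theorem digits_st {l : List ℕ} (h : St l) : Nat.digits 10 (Nat.ofDigits 10 l) = l := by
  apply Nat.digits_ofDigits 10 (by norm_num)
  · intro d hd; have := (h.2 d hd).2; omega
  · intro hne
    have := (h.2 _ (getLast_mem hne)).1
    omega

theorem ofDigits_sort (D : List ℕ) :
    Nat.ofDigits 10 (D.mergeSort (fun a b => decide (b ≤ a))) = Nat.ofDigits 10 (nz D) := by
  have h : D.mergeSort (fun a b => decide (b ≤ a)) = nz D ++ replicate (D.count 0) 0 := by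
    apply sort_eq ((filter_perm D).trans ((nz_perm D).symm.append_right _))
    rw [pairwise_append]
    refine ⟨sort_pw _, ?_, ?_⟩
    · rw [pairwise_replicate]; right; exact le_refl _
    · intro a ha b hb
      rw [mem_replicate] at hb
      omega
  rw [h, Nat.ofDigits_append_replicate_zero]

/-- one step of RATS, from any number -/
theorem rats_nz (x : ℕ) :
    rats x = Nat.ofDigits 10 (nz (Nat.digits 10 (x + Nat.ofDigits 10 (Nat.digits 10 x).reverse))) :=
  ofDigits_sort _

/-- one step of RATS, from a `St` list -/
theorem rats_st {l : List ℕ} (h : St l) :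
    rats (Nat.ofDigits 10 l) = Nat.ofDigits 10 (nz (Nat.digits 10 (Nat.ofDigits 10 (cs l)))) := by
  rw [rats_nz, digits_st h, Nat.ofDigits_add_ofDigits_eq_ofDigits_zipWith_of_length_eq (by simp)]
  rfl

/-- no column carries -/
theorem digits_N {s : List ℕ} (h : ∀ d ∈ s, 1 ≤ d ∧ d ≤ 9) :
    Nat.digits 10 (Nat.ofDigits 10 s) = s := by
  apply Nat.digits_ofDigits 10 (by norm_num)
  · intro d hd; have := (h d hd).2; omega
  · intro hne
    have := (h _ (getLast_mem hne)).1
    omega

theorem ofDigits_carry {t : List ℕ} (h : ∀ d ∈ t, 9 ≤ d) :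
    Nat.ofDigits 10 t + 1 = Nat.ofDigits 10 (t.map (fun d => d - 9) ++ [1]) := by
  induction t with
  | nil => simp
  | cons a t ih =>
    have ha := h a mem_cons_self
    have := ih (fun d hd => h d (mem_cons_of_mem _ hd))
    rw [map_cons, cons_append, Nat.ofDigits_cons, Nat.ofDigits_cons, ← this]
    omega

/-- every column carries -/
theorem digits_F {a : ℕ} {t : List ℕ} (ha : 10 ≤ a) (ha' : a ≤ 19) (h : ∀ d ∈ t, 9 ≤ d ∧ d ≤ 18) :
    Nat.digits 10 (Nat.ofDigits 10 (a :: t)) = (a - 10) :: (t.map (fun d => d - 9) ++ [1]) := by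
  have h1 : Nat.ofDigits 10 (a :: t) = Nat.ofDigits 10 ((a - 10) :: (t.map (fun d => d - 9) ++ [1])) := by
    rw [Nat.ofDigits_cons, Nat.ofDigits_cons, ← ofDigits_carry (fun d hd => (h d hd).1)]
    omega
  rw [h1]
  apply Nat.digits_ofDigits 10 (by norm_num)
  · intro d hd
    rw [mem_cons, mem_append, mem_map, mem_singleton] at hd
    rcases hd with rfl | ⟨e, he, rfl⟩ | rfl
    · omega
    · have := h e he; omega
    · norm_num
  · intro _
    simp

theorem sum_zip (l1 l2 : List ℕ) (h : l1.length = l2.length) :
    (List.zipWith (· + ·) l1 l2).sum = l1.sum + l2.sum := by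
  induction l1 generalizing l2 with
  | nil => cases l2 with
    | nil => simp
    | cons b t => simp at h
  | cons a t ih =>
    cases l2 with
    | nil => simp at h
    | cons b t' =>
      simp only [zipWith_cons_cons, sum_cons]
      rw [ih t' (by simpa using h)]
      omega

theorem sum_cs (l : List ℕ) : (cs l).sum = 2 * l.sum := by
  rw [cs, sum_zip _ _ (by simp), sum_reverse]; omega

theorem len_cs (l : List ℕ) : (cs l).length = l.length := by
  simp [cs]

theorem cs_rev (l : List ℕ) : (cs l).reverse = cs l := by
  rw [cs, reverse_zipWith (by simp), reverse_reverse]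
  exact zipWith_comm_of_comm (fun x y => Nat.add_comm x y)

theorem mem_cs {l : List ℕ} {s : ℕ} (h : s ∈ cs l) : ∃ a ∈ l, ∃ b ∈ l, s = a + b := by
  rw [cs] at h
  obtain ⟨i, hi, rfl⟩ := mem_iff_getElem.mp h
  rw [getElem_zipWith]
  exact ⟨_, getElem_mem _, _, mem_reverse.mp (getElem_mem _), rfl⟩

/-- `S` of the all-carry step -/
theorem sum_F {a : ℕ} {t : List ℕ} (ha : 10 ≤ a) (h : ∀ d ∈ t, 9 ≤ d) :
    ((a - 10) :: (t.map (fun d => d - 9) ++ [1])).sum + 9 * (t.length + 1) = (a :: t).sum := by
  have : (t.map (fun d => d - 9)).sum + 9 * t.length = t.sum := by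
    clear ha
    induction t with
    | nil => simp
    | cons b t ih =>
      have hb := h b mem_cons_self
      have := ih (fun d hd => h d (mem_cons_of_mem _ hd))
      simp only [map_cons, sum_cons, length_cons]
      omega
  simp only [sum_cons, sum_append, sum_nil]
  omega

end Pool.RAT
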