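import Pool.Agent.H42.RAT.Small

/-!
# RATS (MP_a315fd): digits `≥ 6` do not persist
-/

set_option autoImplicit false

namespace Pool.RAT

open List

/-- an addition without carries, then one with a carry out of each column; digit sum `3 L + 1` -/
structure Dbl (A B A' : List ℕ) : Prop where
  stA : St A
  stB : St B
  stA' : St A'
  c9 : ∀ s ∈ cs A, s ≤ 9
  pB : (cs A).Perm B
  hB : ∃ a t, cs B = a :: t ∧ 11 ≤ a ∧ (∀ d ∈ t, 10 ≤ d) ∧
    A'.Perm ((a - 10) :: (t.map (fun d => d - 9) ++ [1]))
  sA : A.sum = 3 * A.length + 1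

theorem sum_one' (v : ℕ) (w : List ℕ) (h : ∀ s ∈ w, v ≤ s) (i : ℕ) (hi : i < w.length) :
    w[i] + v * w.length ≤ w.sum + v := by
  induction w generalizing i with
  | nil => simp at hi
  | cons x t ih =>
    have hx := h x mem_cons_self
    have ht : ∀ s ∈ t, v ≤ s := fun s hs => h s (mem_cons_of_mem _ hs)
    have hall : v * t.length ≤ t.sum := by
      clear ih hi
      induction t with
      | nil => simp
      | cons y t ih =>
        have hy := ht y mem_cons_self
        have := ih (fun s hs => h s (by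
          rcases mem_cons.mp hs with h1 | h1
          · rw [h1]; exact mem_cons_self
          · exact mem_cons_of_mem _ (mem_cons_of_mem _ h1))) (fun s hs => ht s (mem_cons_of_mem _ hs))
        rw [length_cons, sum_cons, Nat.mul_succ]
        omega
    rw [length_cons, sum_cons, Nat.mul_succ]
    cases i with
    | zero => rw [getElem_cons_zero]; omega
    | succ i =>
      rw [getElem_cons_succ]
      have := ih ht i (by simpa using hi)
      omega

theorem sum_two (v : ℕ) (w : List ℕ) (h : ∀ s ∈ w, v ≤ s) (i j : ℕ) (hij : i < j)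
    (hj : j < w.length) : w[i] + w[j] + v * w.length ≤ w.sum + 2 * v := by
  induction w generalizing i j with
  | nil => simp at hj
  | cons x t ih =>
    have hx := h x mem_cons_self
    have ht : ∀ s ∈ t, v ≤ s := fun s hs => h s (mem_cons_of_mem _ hs)
    have e1 : v * (x :: t).length = v * t.length + v := by rw [length_cons, Nat.mul_succ]
    rw [e1, sum_cons]
    cases j with
    | zero => omega
    | succ j =>
      have hj' : j < t.length := by simpa using hj
      cases i with
      | zero =>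
        rw [getElem_cons_zero, getElem_cons_succ]
        have := sum_one' v t ht j hj'
        omega
      | succ i =>
        rw [getElem_cons_succ, getElem_cons_succ]
        have := ih ht i j (by omega) hj'
        omega

/-- if a column of a sorted list is `≥ s`, all the columns are large -/
theorem cols_ge {B : List ℕ} (hB : B.Pairwise (· ≥ ·)) {i : ℕ} (hi : 2 * i + 1 ≤ B.length)
    (lo v w : ℕ) (hlo : ∀ d ∈ B, lo ≤ d) (h1 : v ≤ B[i] + lo)
    (h2 : w ≤ B[B.length - 1 - i]) (hw : v ≤ 2 * w) : ∀ s ∈ cs B, v ≤ s := by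
  intro s hs
  obtain ⟨k, hk, hk', h2k, rfl⟩ := col hs
  rcases Nat.le_total k i with h | h
  · have a1 := anti hB h (show i < B.length by omega)
    have a2 := hlo _ (getElem_mem hk')
    omega
  · have a1 := anti hB (show k ≤ B.length - 1 - i by omega) (by omega)
    have a2 := anti hB (show B.length - 1 - k ≤ B.length - 1 - i by omega) (by omega)
    omega

theorem Dbl.lenB {A B A' : List ℕ} (h : Dbl A B A') : B.length = A.length := by
  rw [← h.pB.length_eq, len_cs]

theorem Dbl.sumB {A B A' : List ℕ} (h : Dbl A B A') : B.sum = 2 * A.sum := by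
  rw [← h.pB.sum_eq, sum_cs]

theorem Dbl.lenA' {A B A' : List ℕ} (h : Dbl A B A') : A'.length = A.length + 1 := by
  obtain ⟨a, t, hc, -, -, hp⟩ := h.hB
  have : t.length + 1 = B.length := by rw [← len_cs B, hc, length_cons]
  rw [hp.length_eq, ← h.lenB, ← this]
  simp

theorem Dbl.sumA' {A B A' : List ℕ} (h : Dbl A B A') : A'.sum = 3 * A'.length + 1 := by
  obtain ⟨a, t, hc, ha, ht, hp⟩ := h.hB
  have h1 : t.length + 1 = B.length := by rw [← len_cs B, hc, length_cons]
  have h2 := sum_F (a := a) (t := t) (by omega) (fun d hd => by have := ht d hd; omega)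
  rw [← hp.sum_eq, ← hc, sum_cs, h1, h.lenB, h.sumB, h.sA] at h2
  rw [h.lenA']
  omega

theorem Dbl.one {A B A' : List ℕ} (h : Dbl A B A') : 1 ≤ A'.count 1 := by
  obtain ⟨a, t, hc, ha, ht, hp⟩ := h.hB
  rw [hp.count_eq]
  simp

theorem Dbl.B9 {A B A' : List ℕ} (h : Dbl A B A') : ∀ d ∈ B, 2 ≤ d ∧ d ≤ 9 := by
  intro d hd
  rw [← h.pB.mem_iff] at hd
  refine ⟨?_, h.c9 d hd⟩
  obtain ⟨a, ha, b, hb, rfl⟩ := mem_cs hd
  have := (h.stA.2 a ha).1
  have := (h.stA.2 b hb).1
  omega

/-- a large digit comes from a large column -/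
theorem Dbl.bigcol {A B A' : List ℕ} (h : Dbl A B A') {v d : ℕ} (hv : 2 ≤ v) (hd : d ∈ A')
    (hdv : v ≤ d) : ∃ i, ∃ h1 : i < B.length, ∃ h2 : B.length - 1 - i < B.length,
      2 * i + 1 ≤ B.length ∧ v + 9 ≤ B[i] + B[B.length - 1 - i] := by
  obtain ⟨a, t, hc, ha, ht, hp⟩ := h.hB
  have : ∃ s ∈ cs B, v + 9 ≤ s := by
    rw [hp.mem_iff, mem_cons, mem_append, mem_map, mem_singleton] at hd
    rcases hd with rfl | ⟨e, he, rfl⟩ | rfl
    · exact ⟨a, by rw [hc]; exact mem_cons_self, by omega⟩
    · exact ⟨e, by rw [hc]; exact mem_cons_of_mem _ he, by omega⟩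
    · omega
  obtain ⟨s, hs, hvs⟩ := this
  obtain ⟨i, h1, h2, h3, rfl⟩ := col hs
  exact ⟨i, h1, h2, h3, hvs⟩

/-- all columns `≥ 11`: at most two digits `1` -/
theorem Dbl.cnt1 {A B A' : List ℕ} (h : Dbl A B A') (h11 : ∀ s ∈ cs B, 11 ≤ s) :
    A'.count 1 ≤ 2 := by
  obtain ⟨a, t, hc, ha, ht, hp⟩ := h.hB
  have h0 : (t.map (fun d => d - 9)).count 1 = 0 := by
    rw [count_eq_zero, mem_map]
    rintro ⟨e, he, h1⟩
    have := h11 e (by rw [hc]; exact mem_cons_of_mem _ he)
    omega
  rw [hp.count_eq, count_cons, count_append, h0, count_singleton_self]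
  split_ifs <;> omega

/-- CLAIM S -/
theorem claimS {A B A' : List ℕ} (h : Dbl A B A') (hbig : ∃ d ∈ A', 6 ≤ d) :
    cg 2 A + cg 3 A < A.length ∨ ∃ k, B = replicate (k + 1) 8 ++ replicate k 4 := by
  by_contra hcon
  push Not at hcon
  obtain ⟨hcg, hex⟩ := hcon
  obtain ⟨d, hd, hd6⟩ := hbig
  have hB4 : ∀ d ∈ B, 4 ≤ d := by
    intro d hd
    rw [← h.pB.mem_iff] at hd
    obtain ⟨i, hi, hj, h2i, rfl⟩ := col hd
    have t2 := thr h.stA.1 2 _ hj
    have t3 := thr h.stA.1 3 i hi
    have hij := anti h.stA.1 (show i ≤ A.length - 1 - i by omega) hj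
    have b1 := (h.stA.2 _ (getElem_mem hj)).1
    by_cases h2 : A.length - 1 - i < cg 2 A
    · have := t2.mpr h2
      omega
    · have := t3.mpr (by omega)
      omega
  obtain ⟨i, hi, hj, h2i, hs⟩ := h.bigcol (v := 6) (by norm_num) hd hd6
  have hb1 := (h.B9 _ (getElem_mem hi)).2
  have hij := anti h.stB.1 (show i ≤ B.length - 1 - i by omega) hj
  have h12 : ∀ s ∈ cs B, 12 ≤ s := cols_ge h.stB.1 h2i 4 12 6 hB4 (by omega) (by omega) (by omega)
  have hsum : (cs B).sum = 12 * (cs B).length + 4 := by
    rw [sum_cs, len_cs, h.sumB, h.sA, h.lenB]; ring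
  have hlc := len_cs B
  have hget : ∀ k (hk : k < B.length), (cs B)[k]'(by rw [hlc]; exact hk) =
      B[k] + B[B.length - 1 - k] := fun k hk => cs_get B k hk
  by_cases hmid : i = B.length - 1 - i
  · -- the exceptional list
    have hBi : B[i] = B[B.length - 1 - i] := by congr 1
    have hci := hget i hi
    have h8 : 8 ≤ B[i] := by omega
    have hother : ∀ k (hk : k < B.length), k ≠ i → B[k] + B[B.length - 1 - k] = 12 := by
      intro k hk hki
      have a1 := hget k hk
      have a3 := h12 _ (mem_col B k hk (by omega))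
      rcases Nat.lt_or_gt_of_ne hki with h1 | h1
      · have a2 := sum_two 12 (cs B) h12 k i h1 (by omega)
        omega
      · have a2 := sum_two 12 (cs B) h12 i k h1 (by omega)
        omega
    have hi8 : B[i] = 8 := by
      have a1 := sum_one' 12 (cs B) h12 i (by omega)
      omega
    refine hex i ?_
    apply List.ext_getElem
    · rw [length_append, length_replicate, length_replicate]; omega
    · intro k hk hk'
      rcases Nat.lt_trichotomy k i with h1 | h1 | h1
      · have a1 := anti h.stB.1 (show k ≤ i by omega) hi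
        have a2 := hB4 _ (getElem_mem (l := B) (n := B.length - 1 - k) (by omega))
        have a3 := hother k hk (by omega)
        rw [getElem_append_left (by rw [length_replicate]; omega), getElem_replicate]
        omega
      · subst h1
        rw [getElem_append_left (by rw [length_replicate]; omega), getElem_replicate, hi8]
      · have a1 := anti h.stB.1 (show B.length - 1 - k ≤ i by omega) hi
        have a2 := hB4 _ (getElem_mem (l := B) (n := k) hk)
        have a3 := hother k hk (by omega)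
        rw [getElem_append_right (by rw [length_replicate]; omega), getElem_replicate]
        omega
  · have a1 := hget i hi
    have a2 := hget (B.length - 1 - i) hj
    have e : B.length - 1 - (B.length - 1 - i) = i := by omega
    have a3 := sum_two 12 (cs B) h12 i (B.length - 1 - i) (by omega) (by omega)
    simp only [e] at a2
    omega

/-- few twos and threes, no eight: `2` is not a digit of `B` -/
theorem claimT3 {A B A' : List ℕ} (h : Dbl A B A') (hcg : cg 2 A + cg 3 A < A.length)
    (h8 : 8 ∉ A) : ∀ d ∈ B, 3 ≤ d := by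
  have hne : A ≠ [] := by
    intro h0; rw [h0] at hcg; simp at hcg
  obtain ⟨x, A₁, rfl⟩ := exists_cons_of_ne_nil hne
  have hA7 : ∀ d ∈ x :: A₁, d ≤ 7 := by
    intro d hd
    obtain ⟨y, hy, t, ht⟩ := cs_cons x A₁
    have a1 := h.c9 _ (by rw [ht]; exact mem_cons_self)
    have a2 := (h.stA.2 y hy).1
    have a3 := head_max h.stA d hd
    have a4 : d ≠ 8 := fun h' => h8 (h' ▸ hd)
    omega
  have hB8 : ∀ d ∈ B, d ≤ 8 := by
    intro d hd
    rw [← h.pB.mem_iff] at hd
    by_contra hc
    obtain ⟨i, hi, hj, h2i, rfl⟩ := col hd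
    have t2 := thr h.stA.1 2 _ hj
    have t3 := thr h.stA.1 3 i hi
    have b1 := hA7 _ (getElem_mem hi)
    have hij := anti h.stA.1 (show i ≤ (x :: A₁).length - 1 - i by omega) hj
    have a2 := t2.mp (by omega)
    have a3 := t3.mp (by omega)
    omega
  obtain ⟨a, t, hc, ha, -, -⟩ := h.hB
  intro d hd
  have hlast : ∀ b : List ℕ, St b → ∀ d ∈ b, ∀ a t, cs b = a :: t → ∃ z ∈ b, a ≤ z + d := by
    intro b hb d hd a t hc
    have hne : 0 < b.length := length_pos_of_mem hd
    have e1 := cs_get b 0 hne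
    have e2 : (cs b)[0]'(by rw [len_cs]; exact hne) = a := by simp [hc]
    obtain ⟨k, hk, rfl⟩ := mem_iff_getElem.mp hd
    have a1 := anti hb.1 (show k ≤ b.length - 1 - 0 by omega) (by omega)
    exact ⟨b[0], getElem_mem _, by omega⟩
  obtain ⟨z, hz, hz'⟩ := hlast B h.stB d hd a t hc
  have := hB8 z hz
  omega

theorem cg2_cnt {A : List ℕ} (h : ∀ d ∈ A, 1 ≤ d) : cg 2 A + A.count 1 = A.length := by
  induction A with
  | nil => simp [cg]
  | cons x t ih =>
    have hx := h x mem_cons_self
    have := ih (fun d hd => h d (mem_cons_of_mem _ hd))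
    rw [cg_cons, count_cons, length_cons]
    simp only [beq_iff_eq]
    split_ifs <;> omega

theorem sum_cg3 {A : List ℕ} (h : ∀ d ∈ A, d ≤ 8) : A.sum ≤ 2 * A.length + 6 * cg 3 A := by
  induction A with
  | nil => simp [cg]
  | cons x t ih =>
    have hx := h x mem_cons_self
    have := ih (fun d hd => h d (mem_cons_of_mem _ hd))
    rw [cg_cons, sum_cons, length_cons]
    split_ifs <;> omega

theorem Dbl.A8 {A B A' : List ℕ} (h : Dbl A B A') : ∀ d ∈ A, d ≤ 8 := by
  intro d hd
  obtain ⟨x, A₁, rfl⟩ := exists_cons_of_ne_nil (ne_nil_of_mem hd)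
  obtain ⟨y, hy, t, ht⟩ := cs_cons x A₁
  have a1 := h.c9 _ (by rw [ht]; exact mem_cons_self)
  have a2 := (h.stA.2 y hy).1
  have a3 := head_max h.stA d hd
  omega

theorem few_ones {A B A' : List ℕ} (h : Dbl A B A') (hcg : cg 2 A + cg 3 A < A.length)
    (h1 : A.count 1 ≤ 2) : A.length ≤ 5 := by
  have a1 := cg2_cnt (fun d hd => (h.stA.2 d hd).1)
  have a2 := sum_cg3 h.A8
  have a3 := h.sA
  omega

/-- two double steps after the exceptional list -/
theorem exc_next {A B A' B' A'' : List ℕ} (h : Dbl A B A') (h' : Dbl A' B' A'') (hL : 20 ≤ A.length)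
    (hk : ∃ k, B = replicate (k + 1) 8 ++ replicate k 4) : ∀ d ∈ A'', d ≤ 5 := by
  obtain ⟨k, hk⟩ := hk
  have hlB := h.lenB
  have hk1 : 1 ≤ k := by
    rw [hk, length_append, length_replicate, length_replicate] at hlB; omega
  obtain ⟨k, rfl⟩ := Nat.exists_eq_add_of_le' hk1
  obtain ⟨a, t, hc, ha, ht, hp⟩ := h.hB
  have hcs : cs B = 12 :: (replicate k 12 ++ (replicate 1 16 ++ replicate (k + 1) 12)) := by
    rw [hk, replicate_add (k + 1) 1, append_assoc, cs_wrap, cs_rep]
    simp [replicate_succ]
  rw [hcs] at hc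
  obtain ⟨rfl, rfl⟩ := cons_eq_cons.mp hc
  -- the list `A'`
  have hA' : A' = 7 :: 3 :: (replicate (2 * k) 3 ++ [2, 1]) := by
    apply Perm.eq_of_pairwise' h.stA'.1
    · rw [pairwise_cons, pairwise_cons]
      refine ⟨?_, ?_, ?_⟩
      · intro x hx
        simp only [mem_cons, mem_append, mem_replicate, not_mem_nil, or_false] at hx
        omega
      · intro x hx
        simp only [mem_cons, mem_append, mem_replicate, not_mem_nil, or_false] at hx
        omega
      · rw [pairwise_append]
        refine ⟨pairwise_replicate.mpr (Or.inr (le_refl _)), by simp, ?_⟩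
        intro x hx y hy
        simp only [mem_cons, mem_replicate, not_mem_nil, or_false] at hx hy
        omega
    · refine hp.trans ?_
      rw [perm_iff_count]
      intro x
      simp only [map_append, map_replicate, count_append, count_cons, count_replicate,
        beq_iff_eq, count_nil]
      norm_num
      split_ifs <;> omega
  have h5 : 5 ∈ B' := by
    rw [← h'.pB.mem_iff, hA', cs]
    simp [reverse_append]
  intro d hd
  by_contra hc
  rcases claimS h' ⟨d, hd, by omega⟩ with h1 | ⟨k', h1⟩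
  · have c1 := cg2_cnt (fun d hd => (h.stA'.2 d hd).1)
    have hl := h.lenA'
    have e1 : A'.count 1 = 1 := by
      rw [hA']
      simp [count_append, count_replicate]
    have e3 : cg 3 A' = 2 * k + 2 := by
      rw [hA']
      simp only [cg, countP_cons, countP_append, countP_replicate, countP_nil]
      norm_num
    have e4 : A'.length = 2 * k + 4 := by rw [hA']; simp
    omega
  · rw [h1, mem_append, mem_replicate, mem_replicate] at h5
    omega

/-- DIGITS `≥ 6` DO NOT PERSIST -/
theorem big_stop (A B : ℕ → List ℕ) (h : ∀ j, Dbl (A j) (B j) (A (j + 1))) (hL : 20 ≤ (A 0).length) :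
    ∃ j, ∀ d ∈ A j, d ≤ 5 := by
  by_contra hcon
  push Not at hcon
  have hbig : ∀ j, ∃ d ∈ A j, 6 ≤ d := fun j => by
    obtain ⟨d, hd, h5⟩ := hcon j
    exact ⟨d, hd, by omega⟩
  have hlen : ∀ j, 20 ≤ (A j).length := by
    intro j
    induction j with
    | zero => exact hL
    | succ j ih => rw [(h j).lenA']; omega
  have hcg : ∀ j, cg 2 (A j) + cg 3 (A j) < (A j).length := by
    intro j
    rcases claimS (h j) (hbig (j + 1)) with h1 | h1
    · exact h1
    · exfalso
      obtain ⟨d, hd, h6⟩ := hbig (j + 1 + 1)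
      have := exc_next (h j) (h (j + 1)) (hlen j) h1 d hd
      omega
  by_cases h8 : 8 ∈ A 1
  · obtain ⟨i, hi, hj, h2i, hs⟩ := (h 0).bigcol (v := 8) (by norm_num) h8 (le_refl _)
    have hb1 := ((h 0).B9 _ (getElem_mem hi)).2
    have hb2 := ((h 0).B9 _ (getElem_mem hj)).2
    have hij := anti (h 0).stB.1 (show i ≤ (B 0).length - 1 - i by omega) hj
    have h11 : ∀ s ∈ cs (B 0), 11 ≤ s := cols_ge (h 0).stB.1 h2i 2 11 8
      (fun d hd => ((h 0).B9 d hd).1) (by omega) (by omega) (by omega)
    have h1 := (h 0).cnt1 h11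
    have := few_ones (h 1) (hcg 1) h1
    have := hlen 1
    omega
  · have hB3 := claimT3 (h 1) (hcg 1) h8
    obtain ⟨d, hd, h6⟩ := hbig 2
    obtain ⟨i, hi, hj, h2i, hs⟩ := (h 1).bigcol (v := 6) (by norm_num) hd h6
    have hb1 := ((h 1).B9 _ (getElem_mem hi)).2
    have hij := anti (h 1).stB.1 (show i ≤ (B 1).length - 1 - i by omega) hj
    have h11 : ∀ s ∈ cs (B 1), 11 ≤ s := cols_ge (h 1).stB.1 h2i 3 11 6 hB3
      (by omega) (by omega) (by omega)
    have h1 := (h 1).cnt1 h11
    have := few_ones (h 2) (hcg 2) h1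
    have := hlen 2
    omega

end Pool.RAT
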