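import Pool.Agent.H42.RAT.Base

/-!
# RATS (MP_a315fd): the steps on block lists
-/

set_option autoImplicit false

namespace Pool.RAT

open List

theorem nz_eq {D m : List ℕ} (h : D.Perm m) (hm : St m) : nz D = m := by
  apply sort_eq _ hm.1
  rw [filter_eq_self.mpr]
  · exact h
  · intro d hd
    have := (hm.2 d (h.mem_iff.mp hd)).1
    simp only [decide_eq_true_eq]
    omega

/-- a step without carries -/
theorem rats_N {l m : List ℕ} (h : St l) (hm : St m) (hp : (cs l).Perm m) :
    rats (Nat.ofDigits 10 l) = Nat.ofDigits 10 m := by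
  rw [rats_st h, digits_N (fun d hd => hm.2 d (hp.mem_iff.mp hd)), nz_eq hp hm]

/-- a step with a carry out of each column -/
theorem rats_F {l t : List ℕ} {a : ℕ} (h : St l) (hc : cs l = a :: t) (ha : 10 ≤ a)
    (ht : ∀ d ∈ t, 9 ≤ d) :
    rats (Nat.ofDigits 10 l) = Nat.ofDigits 10 (nz ((a - 10) :: (t.map (fun d => d - 9) ++ [1]))) := by
  have hb : ∀ s ∈ cs l, s ≤ 18 := by
    intro s hs
    obtain ⟨x, hx, y, hy, rfl⟩ := mem_cs hs
    have := h.2 x hx
    have := h.2 y hy
    omega
  rw [rats_st h, hc, digits_F ha]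
  · have := hb a (by rw [hc]; exact mem_cons_self); omega
  · intro d hd
    exact ⟨ht d hd, hb d (by rw [hc]; exact mem_cons_of_mem _ hd)⟩

/-- digits `1 ≤ d ≤ 4`: `a` ones, `b` twos, `c` threes, `e` fours -/
def bA (a b c e : ℕ) : List ℕ := replicate e 4 ++ (replicate c 3 ++ (replicate b 2 ++ replicate a 1))

/-- digits `5 ≤ d ≤ 8` -/
def bB (p q r u : ℕ) : List ℕ := replicate u 8 ++ (replicate r 7 ++ (replicate q 6 ++ replicate p 5))

theorem st_bA (a b c e : ℕ) : St (bA a b c e) := by
  constructor
  · simp only [bA, pairwise_append, pairwise_replicate, mem_append, mem_replicate]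
    refine ⟨Or.inr (le_refl _), ⟨Or.inr (le_refl _), ⟨Or.inr (le_refl _), Or.inr (le_refl _), ?_⟩, ?_⟩, ?_⟩
    all_goals
      intro x hx y hy
      omega
  · intro d hd
    simp only [bA, mem_append, mem_replicate] at hd
    omega

theorem st_bB (p q r u : ℕ) : St (bB p q r u) := by
  constructor
  · simp only [bB, pairwise_append, pairwise_replicate, mem_append, mem_replicate]
    refine ⟨Or.inr (le_refl _), ⟨Or.inr (le_refl _), ⟨Or.inr (le_refl _), Or.inr (le_refl _), ?_⟩, ?_⟩, ?_⟩
    all_goals
      intro x hx y hy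
      omega
  · intro d hd
    simp only [bB, mem_append, mem_replicate] at hd
    omega

theorem zip_rep (n x y : ℕ) :
    List.zipWith (· + ·) (replicate n x) (replicate n y) = replicate n (x + y) := by
  rw [zipWith_replicate]; simp

theorem cs_A (a b c h : ℕ) :
    cs (bA a b c (a + (b + h))) = replicate a 5 ++ (replicate b 6 ++
      (List.zipWith (· + ·) (replicate h 4 ++ replicate c 3) (replicate c 3 ++ replicate h 4) ++
        (replicate b 6 ++ replicate a 5))) := by
  have e1 : bA a b c (a + (b + h)) =
      replicate a 4 ++ (replicate b 4 ++ ((replicate h 4 ++ replicate c 3) ++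
        (replicate b 2 ++ replicate a 1))) := by
    simp only [bA, replicate_add, append_assoc]
  have e2 : (bA a b c (a + (b + h))).reverse =
      replicate a 1 ++ (replicate b 2 ++ ((replicate c 3 ++ replicate h 4) ++
        (replicate b 4 ++ replicate a 4))) := by
    rw [e1]
    simp only [reverse_append, reverse_replicate, append_assoc]
  have e3 : List.zipWith (· + ·) (replicate b 2 ++ replicate a 1) (replicate b 4 ++ replicate a 4) =
      replicate b 6 ++ replicate a 5 := by
    rw [zipWith_append (by simp)]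
    simp only [zip_rep]
  rw [cs, e2, e1, zipWith_append (by simp), zipWith_append (by simp),
    zipWith_append (by simp [Nat.add_comm]), e3]
  simp only [zip_rep]

/-- a step from digits `≤ 4`, few threes -/
theorem stepA_le (a b c k : ℕ) :
    rats (Nat.ofDigits 10 (bA a b c (a + (b + (c + k))))) =
      Nat.ofDigits 10 (bB (2 * a) (2 * b) (2 * c) k) := by
  apply rats_N (st_bA _ _ _ _) (st_bB _ _ _ _)
  rw [cs_A]
  have e : List.zipWith (· + ·) (replicate (c + k) 4 ++ replicate c 3)
      (replicate c 3 ++ replicate (c + k) 4) =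
      replicate c 7 ++ (replicate k 8 ++ replicate c 7) := by
    have e1 : replicate (c + k) 4 ++ replicate c 3 =
        replicate c 4 ++ (replicate k 4 ++ replicate c 3) := by
      rw [replicate_add, append_assoc]
    have e2 : replicate c 3 ++ replicate (c + k) 4 =
        replicate c 3 ++ (replicate k 4 ++ replicate c 4) := by
      rw [Nat.add_comm c k, replicate_add]
    rw [e1, e2, zipWith_append (by simp), zipWith_append (by simp)]
    simp only [zip_rep]
  rw [e]
  rw [perm_iff_count]
  intro x
  simp only [bB, count_append, count_replicate, beq_iff_eq]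
  split_ifs <;> omega

/-- a step from digits `≤ 4`, many threes -/
theorem stepA_ge (a b h k : ℕ) :
    rats (Nat.ofDigits 10 (bA a b (h + k) (a + (b + h)))) =
      Nat.ofDigits 10 (bB (2 * a) (2 * b + k) (2 * h) 0) := by
  apply rats_N (st_bA _ _ _ _) (st_bB _ _ _ _)
  rw [cs_A]
  have e : List.zipWith (· + ·) (replicate h 4 ++ replicate (h + k) 3)
      (replicate (h + k) 3 ++ replicate h 4) =
      replicate h 7 ++ (replicate k 6 ++ replicate h 7) := by
    have e1 : replicate h 4 ++ replicate (h + k) 3 =
        replicate h 4 ++ (replicate k 3 ++ replicate h 3) := by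
      rw [Nat.add_comm h k, replicate_add]
    have e2 : replicate (h + k) 3 ++ replicate h 4 =
        replicate h 3 ++ (replicate k 3 ++ replicate h 4) := by
      rw [replicate_add, append_assoc]
    rw [e1, e2, zipWith_append (by simp), zipWith_append (by simp)]
    simp only [zip_rep]
  rw [e]
  rw [perm_iff_count]
  intro x
  simp only [bB, count_append, count_replicate, beq_iff_eq]
  split_ifs <;> omega

/-- the column sums of `5^p 6^(k+2) 7^(p+2)` -/
theorem cs_B (p k : ℕ) :
    cs (bB p (k + 2) (p + 2) 0) = replicate p 12 ++ (replicate 2 13 ++ (replicate k 12 ++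
      (replicate 2 13 ++ replicate p 12))) := by
  have e1 : bB p (k + 2) (p + 2) 0 =
      replicate p 7 ++ (replicate 2 7 ++ (replicate k 6 ++ (replicate 2 6 ++ replicate p 5))) := by
    simp only [bB, replicate_zero, nil_append]
    rw [replicate_add p 2, replicate_add k 2]
    simp only [append_assoc]
  have e2 : (bB p (k + 2) (p + 2) 0).reverse =
      replicate p 5 ++ (replicate 2 6 ++ (replicate k 6 ++ (replicate 2 7 ++ replicate p 7))) := by
    rw [e1]
    simp only [reverse_append, reverse_replicate, append_assoc]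
  rw [cs, e2, e1, zipWith_append (by simp), zipWith_append (by simp),
    zipWith_append (by simp), zipWith_append (by simp)]
  simp only [zip_rep]

/-- the step `5^(2a) 6^(k+2) 7^(2a+2) ↦ 1 2 3^(4a+k-1) 4^4` -/
theorem stepB (a k : ℕ) (ha : 1 ≤ a) :
    rats (Nat.ofDigits 10 (bB (2 * a) (k + 2) (2 * a + 2) 0)) =
      Nat.ofDigits 10 (bA 1 1 (4 * a + k - 1) 4) := by
  obtain ⟨a', rfl⟩ := Nat.exists_eq_add_of_le' ha
  have h := cs_B (2 * (a' + 1)) k
  have e : replicate (2 * (a' + 1)) 12 = 12 :: replicate (2 * a' + 1) 12 := by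
    rw [show 2 * (a' + 1) = (2 * a' + 1) + 1 by ring, replicate_succ]
  have h' : cs (bB (2 * (a' + 1)) (k + 2) (2 * (a' + 1) + 2) 0) = 12 :: (replicate (2 * a' + 1) 12 ++
      (replicate 2 13 ++ (replicate k 12 ++ (replicate 2 13 ++ replicate (2 * (a' + 1)) 12)))) := by
    rw [h]
    conv_lhs => rw [e, cons_append]
    rw [← e]
  rw [rats_F (st_bB _ _ _ _) h' (by norm_num)]
  · congr 1
    apply nz_eq _ (st_bA _ _ _ _)
    rw [perm_iff_count]
    intro x
    simp only [bA, map_append, map_replicate, count_append, count_cons, count_replicate,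
      beq_iff_eq, count_nil]
    norm_num
    split_ifs <;> omega
  · intro d hd
    simp only [mem_append, mem_replicate] at hd
    omega

/-- the column sum of a middle pair of sevens, `q = 0` -/
theorem mem_cs0 (p : ℕ) (hp : 1 ≤ p) : ∃ t, cs (bB p 0 (p + 2) 0) = 12 :: t ∧ 14 ∈ t := by
  obtain ⟨p', rfl⟩ := Nat.exists_eq_add_of_le' hp
  have e1 : bB (p' + 1) 0 (p' + 1 + 2) 0 =
      replicate (p' + 1) 7 ++ (replicate 2 7 ++ replicate (p' + 1) 5) := by
    simp only [bB, replicate_zero, nil_append]
    rw [replicate_add (p' + 1) 2]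
    simp only [append_assoc]
  have e2 : (bB (p' + 1) 0 (p' + 1 + 2) 0).reverse =
      replicate (p' + 1) 5 ++ (replicate 2 7 ++ replicate (p' + 1) 7) := by
    rw [e1]
    simp only [reverse_append, reverse_replicate, append_assoc]
  rw [cs, e2, e1, zipWith_append (by simp), zipWith_append (by simp)]
  simp only [zip_rep]
  rw [replicate_succ, cons_append]
  refine ⟨_, rfl, ?_⟩
  rw [mem_append, mem_append]
  right; left
  simp

/-- the same for `q = 1` -/
theorem mem_cs1 (p : ℕ) (hp : 1 ≤ p) : ∃ t, cs (bB p 1 (p + 2) 0) = 12 :: t ∧ 14 ∈ t := by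
  obtain ⟨p', rfl⟩ := Nat.exists_eq_add_of_le' hp
  have e1 : bB (p' + 1) 1 (p' + 1 + 2) 0 =
      replicate (p' + 1) 7 ++ ([7, 7, 6] ++ replicate (p' + 1) 5) := by
    simp only [bB, replicate_zero, nil_append]
    rw [replicate_add (p' + 1) 2]
    simp [replicate_succ]
  have e2 : (bB (p' + 1) 1 (p' + 1 + 2) 0).reverse =
      replicate (p' + 1) 5 ++ ([6, 7, 7] ++ replicate (p' + 1) 7) := by
    rw [e1]
    simp only [reverse_append, reverse_replicate, append_assoc]
    rfl
  rw [cs, e2, e1, zipWith_append (by simp), zipWith_append (by simp)]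
  simp only [zip_rep]
  rw [replicate_succ, cons_append]
  refine ⟨_, rfl, ?_⟩
  rw [mem_append, mem_append]
  right; left
  simp

end Pool.RAT
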