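import Pool.Agent.H42.RAT.FiveT

/-!
# RATS (MP_a315fd): the cycle `78, 156`
-/

set_option autoImplicit false

namespace Pool.RAT

open List

theorem sum_three (v : ℕ) (w : List ℕ) (h : ∀ s ∈ w, v ≤ s) (i j k : ℕ) (hij : i < j) (hjk : j < k)
    (hk : k < w.length) : w[i] + w[j] + w[k] + v * w.length ≤ w.sum + 3 * v := by
  induction w generalizing i j k with
  | nil => simp at hk
  | cons x t ih =>
    have hx := h x mem_cons_self
    have ht : ∀ s ∈ t, v ≤ s := fun s hs => h s (mem_cons_of_mem _ hs)
    have e1 : v * (x :: t).length = v * t.length + v := by rw [length_cons, Nat.mul_succ]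
    rw [e1, sum_cons]
    cases j with
    | zero => omega
    | succ j =>
      cases k with
      | zero => omega
      | succ k =>
        have hk' : k < t.length := by simpa using hk
        cases i with
        | zero =>
          rw [getElem_cons_zero, getElem_cons_succ, getElem_cons_succ]
          have := sum_two v t ht j k (by omega) hk'
          omega
        | succ i =>
          rw [getElem_cons_succ, getElem_cons_succ, getElem_cons_succ]
          have := ih ht i j k (by omega) (by omega) hk'
          omega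

theorem two_count (w : List ℕ) (i j : ℕ) (hij : i < j) (hj : j < w.length) (h1 : w[i] = 0)
    (h2 : w[j] = 0) : 2 ≤ w.count 0 := by
  induction w generalizing i j with
  | nil => simp at hj
  | cons x t ih =>
    cases j with
    | zero => omega
    | succ j =>
      have hj' : j < t.length := by simpa using hj
      rw [getElem_cons_succ] at h2
      cases i with
      | zero =>
        rw [getElem_cons_zero] at h1
        subst h1
        have : 0 < t.count 0 := count_pos_iff.mpr (h2 ▸ getElem_mem hj')
        rw [count_cons_self]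
        omega
      | succ i =>
        rw [getElem_cons_succ] at h1
        have := ih i j (by omega) hj' h1 h2
        rw [count_cons]
        omega

theorem car_zero {D : List ℕ} (h : ∀ d ∈ D, d < 10) (i : ℕ) : car D i = 0 := by
  induction i with
  | zero => rfl
  | succ i ih =>
    rw [car, ih]
    by_cases hi : i < D.length
    · rw [getD_eq_getElem _ _ hi]
      have := h _ (getElem_mem hi)
      omega
    · rw [getD_eq_default _ _ (by omega)]

/-- exactly one zero digit -/
theorem FD.one_zero {B A : List ℕ} (h : FD B A) (hbg : Bg (Nat.ofDigits 10 (cs A))) {D : List ℕ}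
    (hl : D.length = (cs A).length) (ho : Nat.ofDigits 10 D = Nat.ofDigits 10 (cs A))
    (h10 : ∀ d ∈ D, d < 10) (h1 : D.count 0 = 1) (hs : A.sum = 3 * A.length + 3) :
    ∃ m, ∃ hm : A.length = 2 * m + 1, A[m]'(by omega) = 5 ∧
      (∀ i (hi : i < m), A[i]'(by omega) + A[2 * m - i]'(by omega) ≤ 7) ∧
      ∀ d ∈ D, d = 0 ∨ (6 ≤ d ∧ d ≤ 8) := by
  obtain ⟨h13, hlt⟩ := h.cols hbg
  have hcl : (cs A).length = A.length := len_cs A
  have hc1 := car_le (fun s hs => by have := (h13 s hs).2; omega)
  have hdig : ∀ i, ((cs A).getD i 0 + car (cs A) i) % 10 = 0 ∨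
      5 ≤ ((cs A).getD i 0 + car (cs A) i) % 10 := fun i => by
    rw [← car_digit]; exact hbg i
  have hD : ∀ i, D.getD i 0 = ((cs A).getD i 0 + car (cs A) i) % 10 := by
    intro i
    have a1 := car_digit D i
    rw [ho, car_digit, car_zero h10, Nat.add_zero] at a1
    rw [a1]
    by_cases hi : i < D.length
    · rw [getD_eq_getElem _ _ hi, Nat.mod_eq_of_lt (h10 _ (getElem_mem hi))]
    · rw [getD_eq_default _ _ (by omega)]
  have ht : ∀ i < A.length, 1 ≤ (cs A).getD i 0 ∧ (cs A).getD i 0 ≤ 13 := by
    intro i hi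
    rw [getD_eq_getElem _ _ (by omega)]
    exact h13 _ (getElem_mem _)
  have h10' : ∀ i < A.length, (cs A).getD i 0 + car (cs A) i ≤ 10 := by
    intro i hi
    have := hdig i
    have := ht i hi
    have := hc1 i
    omega
  have hcol : ∀ k (hk : k < A.length), (cs A).getD k 0 = A[k] + A[A.length - 1 - k] := by
    intro k hk
    rw [getD_eq_getElem _ _ (by omega), cs_get A k hk]
  -- the zero digit
  obtain ⟨m, hm, hm0⟩ : ∃ m, ∃ hm : m < D.length, D[m] = 0 := by
    have : 0 ∈ D := count_pos_iff.mp (by omega)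
    obtain ⟨m, hm, e⟩ := mem_iff_getElem.mp this
    exact ⟨m, hm, e⟩
  have hmA : m < A.length := by omega
  have huniq : ∀ i (hi : i < D.length), D[i] = 0 → i = m := by
    intro i hi h0
    by_contra hne
    rcases Nat.lt_or_gt_of_ne hne with h2 | h2
    · have := two_count D i m h2 hm h0 hm0
      omega
    · have := two_count D m i h2 hi hm0 h0
      omega
  have hm10 : (cs A).getD m 0 + car (cs A) m = 10 := by
    have a1 := hD m
    rw [getD_eq_getElem _ _ hm, hm0] at a1
    have a2 := h10' m hmA
    have a3 := ht m hmA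
    omega
  have hne9 : ∀ i < A.length, i ≠ m → (cs A).getD i 0 + car (cs A) i ≤ 9 := by
    intro i hi hne
    have a1 := hD i
    rw [getD_eq_getElem _ _ (by omega)] at a1
    have a2 := h10' i hi
    by_contra hc
    apply hne
    apply huniq i (by omega)
    omega
  have hcm : car (cs A) m = 0 := by
    cases m with
    | zero => rfl
    | succ m =>
      rw [car]
      have := hne9 m (by omega) (by omega)
      omega
  have htm : (cs A).getD m 0 = 10 := by omega
  have hmid : A.length - 1 - m = m := by
    by_contra hne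
    have a1 := hne9 (A.length - 1 - m) (by omega) hne
    rw [hcol _ (by omega)] at a1
    have e : A.length - 1 - (A.length - 1 - m) = m := by omega
    simp only [e] at a1
    rw [hcol m hmA] at htm
    omega
  have hlen : A.length = 2 * m + 1 := by omega
  have hA5 : A[m] = 5 := by
    rw [hcol m hmA] at htm
    simp only [hmid] at htm
    omega
  -- lower bounds of the columns
  have h6 : ∀ s ∈ cs A, 6 ≤ s := by
    intro s hs
    obtain ⟨i, hi, hj, h2i, rfl⟩ := col hs
    have a1 := anti h.stA.1 (show i ≤ m by omega) hmA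
    have a2 := (h.stA.2 _ (getElem_mem hj)).1
    omega
  have hsum : (cs A).sum = 6 * (cs A).length + 6 := by
    rw [sum_cs, hcl, hs]; ring
  have h7 : ∀ i (hi : i < m), A[i] + A[2 * m - i]'(by omega) ≤ 7 := by
    intro i hi
    have a1 := sum_three 6 (cs A) h6 i m (2 * m - i) hi (by omega) (by omega)
    have a2 := cs_get A i (by omega)
    have a3 := cs_get A m hmA
    have a4 := cs_get A (2 * m - i) (by omega)
    have e1 : A.length - 1 - i = 2 * m - i := by omega
    have e2 : A.length - 1 - (2 * m - i) = i := by omega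
    simp only [e1] at a2
    simp only [hmid] at a3
    simp only [e2] at a4
    omega
  refine ⟨m, hlen, hA5, h7, ?_⟩
  intro d hd
  obtain ⟨i, hi, rfl⟩ := mem_iff_getElem.mp hd
  by_cases him : i = m
  · left; subst him; exact hm0
  · right
    have a1 := hD i
    rw [getD_eq_getElem _ _ hi] at a1
    have a2 := hne9 i (by omega) him
    have a3 : 6 ≤ (cs A).getD i 0 := by
      rw [getD_eq_getElem _ _ (by omega)]
      exact h6 _ (getElem_mem _)
    have a4 : (cs A).getD i 0 ≤ 7 := by
      rw [hcol i (by omega)]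
      rcases Nat.lt_or_gt_of_ne him with h2 | h2
      · have a5 := h7 i h2
        have e1 : A.length - 1 - i = 2 * m - i := by omega
        simp only [e1]
        exact a5
      · have a5 := h7 (2 * m - i) (by omega)
        have e1 : A.length - 1 - i = 2 * m - i := by omega
        have e2 : 2 * m - (2 * m - i) = i := by omega
        simp only [e2] at a5
        simp only [e1]
        omega
    have a5 := hc1 i
    omega

/-- digits `≥ 6` before: only two digits -/
theorem FD.len_two {B A : List ℕ} (h : FD B A) (hbg : Bg (Nat.ofDigits 10 (cs A))) {D : List ℕ}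
    (hl : D.length = (cs A).length) (ho : Nat.ofDigits 10 D = Nat.ofDigits 10 (cs A))
    (h10 : ∀ d ∈ D, d < 10) (h1 : D.count 0 = 1) (hs : A.sum = 3 * A.length + 3)
    (h6 : ∀ d ∈ B, 6 ≤ d) (hsB : B.sum = 6 * B.length + 3) : B.length = 2 := by
  obtain ⟨m, hlen, hA5, h7, -⟩ := h.one_zero hbg hl ho h10 h1 hs
  have hm : m < A.length := by omega
  obtain ⟨a, t, hc, ha, ht, hp⟩ := h.hB
  have hlA : A.length = B.length + 1 := by
    have : t.length + 1 = B.length := by rw [← len_cs B, hc, length_cons]
    rw [hp.length_eq, ← this]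
    simp
  have hpos := length_pos_of_ne_nil h.ne
  by_contra hcon
  have hm2 : 2 ≤ m := by omega
  have h12 : ∀ s ∈ cs B, 12 ≤ s := by
    intro s hs
    obtain ⟨x, hx, y, hy, rfl⟩ := mem_cs hs
    have := h6 x hx
    have := h6 y hy
    omega
  have ha13 : 13 ≤ a := by
    by_contra hc13
    have hall : ∀ d ∈ B, d ≤ 6 := by
      intro d hd
      have e1 := cs_get B 0 hpos
      have e2 : (cs B)[0]'(by rw [len_cs]; exact hpos) = a := by simp [hc]
      have a1 := h6 _ (getElem_mem (l := B) (n := B.length - 1 - 0) (by omega))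
      obtain ⟨k, hk, rfl⟩ := mem_iff_getElem.mp hd
      have a2 := anti h.stB.1 (show 0 ≤ k by omega) hk
      omega
    have := List.sum_le_card_nsmul B 6 hall
    rw [smul_eq_mul] at this
    omega
  have hcnt : A.countP (fun d => decide (d ≤ 2)) = 1 := by
    rw [hp.countP_eq, countP_cons_of_neg (by
        simp only [decide_eq_true_eq]
        omega), countP_append]
    have : (t.map (fun d => d - 9)).countP (fun d => decide (d ≤ 2)) = 0 := by
      rw [countP_eq_zero]
      intro d hd
      rw [mem_map] at hd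
      obtain ⟨e, he, rfl⟩ := hd
      have := h12 e (by rw [hc]; exact mem_cons_of_mem _ he)
      simp only [decide_eq_true_eq]
      omega
    rw [this]
    simp
  have h3 : 3 ≤ A[2 * m - 1]'(by omega) := by
    by_contra hc2
    have hdrop : 2 ≤ (A.drop (A.length - 2)).countP (fun d => decide (d ≤ 2)) := by
      have h2l : (A.drop (A.length - 2)).length = 2 := by rw [length_drop]; omega
      have hall : (A.drop (A.length - 2)).countP (fun d => decide (d ≤ 2)) =
          (A.drop (A.length - 2)).length := by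
        rw [countP_eq_length]
        intro d hd
        obtain ⟨q, hq, rfl⟩ := mem_iff_getElem.mp hd
        rw [getElem_drop]
        have := anti h.stA.1 (show 2 * m - 1 ≤ A.length - 2 + q by omega) (by
          rw [length_drop] at hq; omega)
        simp only [decide_eq_true_eq]
        omega
      rw [hall, h2l]
    have hsub : (A.drop (A.length - 2)).countP (fun d => decide (d ≤ 2)) ≤
        A.countP (fun d => decide (d ≤ 2)) := (drop_sublist _ _).countP_le
    omega
  have a1 := anti h.stA.1 (show 1 ≤ m by omega) hm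
  have a2 := h7 1 (by omega)
  omega

/-- a strengthening of `pot2` -/
theorem pot3 (S L z : ℕ → ℤ) (hS : ∀ j, S (j + 1) = 4 * S j - 18 * L j - 9 * z j)
    (hL : ∀ j, L (j + 1) = L j + 1 - z j) (hz : ∀ j, 0 ≤ z j)
    (h9 : ∀ j, S j ≤ 9 * L j) (h5 : ∀ j, 5 * L j ≤ S j) (hL0 : ∀ j, 0 ≤ L j) :
    (∃ J, ∀ j, J ≤ j → S j = 6 * L j + 2 ∧ z j = 0) ∨
    (∃ J, ∀ j, J ≤ j → S j = 6 * L j + 3 ∧ z j = 1) := by
  rcases pot2 S L z hS hL hz h9 h5 hL0 with h | ⟨J, hJ⟩
  · exact Or.inl h
  · have hz1 : ∀ j, J ≤ j → z j = 1 := by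
      intro j hj
      have := hJ j hj
      have := hL j
      omega
    -- `G' = 4 G - 3`, bounded
    have hLc : ∀ i, L (J + i) = L J := by
      intro i
      induction i with
      | zero => rfl
      | succ i ih =>
        have := hJ (J + i) (by omega)
        rw [← Nat.add_assoc]
        omega
    have hG : ∀ i : ℕ, S (J + i) - 6 * L J - 3 = 4 ^ i * (S J - 6 * L J - 3) := by
      intro i
      induction i with
      | zero => simp
      | succ i ih =>
        have a1 := hS (J + i)
        have a2 := hz1 (J + i) (by omega)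
        have a3 := hLc i
        rw [← Nat.add_assoc, a1, a2, a3, pow_succ]
        linarith
    have h0 : S J - 6 * L J - 3 = 0 := by
      by_contra hne
      obtain ⟨n, hn⟩ := Int.eq_ofNat_of_zero_le (hL0 J)
      have h1 := hG (9 * n + 6)
      have h2 := h9 (J + (9 * n + 6))
      have h3 := h5 (J + (9 * n + 6))
      rw [hLc] at h2 h3
      have h4 : ((9 * n + 6 : ℕ) : ℤ) < (4 : ℤ) ^ (9 * n + 6) := by
        have : 9 * n + 6 < 4 ^ (9 * n + 6) := Nat.lt_pow_self (by norm_num)
        exact_mod_cast this
      push_cast at h4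
      rcases lt_or_gt_of_ne hne with h6 | h6
      · nlinarith
      · nlinarith
    right
    refine ⟨J, fun j hj => ?_⟩
    obtain ⟨i, rfl⟩ := Nat.exists_eq_add_of_le hj
    have a1 := hG i
    rw [h0, mul_zero] at a1
    have a2 := hLc i
    exact ⟨by omega, hz1 _ hj⟩

/-- digits `≥ 5` at every second term: without the assumption on cycles -/
theorem five_all {n K : ℕ} (hn : 0 < n)
    (h5 : ∀ j, ∀ d ∈ Nat.digits 10 (rats^[K + 2 * j] n), 5 ≤ d) :
    Trib n ∨ ∃ k, rats^[k] n = 78 := by
  obtain ⟨B, hBdef⟩ : ∃ B : ℕ → List ℕ, B = fun j => Nat.digits 10 (rats^[K + 2 + 2 * j] n) := ⟨_, rfl⟩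
  have hX : ∀ j, rats^[K + 2 + 2 * j] n = Nat.ofDigits 10 (B j) := fun j => by
    rw [hBdef, Nat.ofDigits_digits]
  have hst : ∀ j, St (B j) := fun j => by rw [hBdef]; exact iter_st n (by omega)
  have h5' : ∀ j, ∀ d ∈ B j, 5 ≤ d := fun j => by
    rw [hBdef]
    have := h5 (j + 1)
    rw [show K + 2 * (j + 1) = K + 2 + 2 * j by ring] at this
    exact this
  have hne : ∀ j, B j ≠ [] := fun j => by
    rw [hBdef]
    exact Nat.digits_ne_nil_iff_ne_zero.mpr (iter_pos hn _).ne'
  have hnext : ∀ j, rats (rats (Nat.ofDigits 10 (B j))) = Nat.ofDigits 10 (B (j + 1)) := by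
    intro j
    rw [← hX, ← hX, show K + 2 + 2 * (j + 1) = K + 2 + 2 * j + 1 + 1 by ring,
      Function.iterate_succ_apply', Function.iterate_succ_apply']
  have hFD : ∀ j, ∃ A, rats (Nat.ofDigits 10 (B j)) = Nat.ofDigits 10 A ∧ FD (B j) A ∧
      A.length = (B j).length + 1 ∧ A.sum + 9 * (B j).length = 2 * (B j).sum := fun j =>
    fd_of (hst j) (hne j) (h5' j) (by rw [hnext, digits_st (hst _)]; exact h5' (j + 1))
  choose A hA1 hA2 hA3 hA4 using hFD
  have hN : ∀ j, ∃ D : List ℕ, Bg (Nat.ofDigits 10 (cs (A j))) ∧ D.length = (cs (A j)).length ∧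
      Nat.ofDigits 10 D = Nat.ofDigits 10 (cs (A j)) ∧ (∀ d ∈ D, d < 10) ∧
      D.sum + 9 * D.count 0 = 2 * (A j).sum ∧ B (j + 1) = nz D ∧
      (D.count 0 = 0 → (∀ s ∈ cs (A j), s ≤ 9) ∧ (cs (A j)).Perm (B (j + 1))) := by
    intro j
    have e : rats (Nat.ofDigits 10 (A j)) = Nat.ofDigits 10 (B (j + 1)) := by
      rw [← hA1, hnext]
    have hbg := bg_step (hA2 j).stA (by rw [e, digits_st (hst _)]; exact h5' (j + 1))
    obtain ⟨h13, hlt⟩ := (hA2 j).cols hbg
    obtain ⟨D, hl, ho, h10, hsum, heq⟩ := carry_list (cs (A j)) 0 (by norm_num) h13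
      (by rw [Nat.add_zero]; exact hbg) (by rw [Nat.add_zero]; exact hlt)
    rw [Nat.add_zero] at ho
    have hB' : B (j + 1) = nz D := by
      have h1 : rats (Nat.ofDigits 10 (A j)) = Nat.ofDigits 10 (nz D) := by
        rw [rats_st (hA2 j).stA, ← ho, nz_digits h10]
      have := congrArg (Nat.digits 10) (e.symm.trans h1)
      rw [digits_st (nz_st h10), digits_st (hst _)] at this
      exact this
    refine ⟨D, hbg, hl, ho, h10, by rw [hsum, sum_cs, Nat.add_zero], hB', ?_⟩
    intro h0
    have hD := heq rfl h0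
    refine ⟨fun s hs => ?_, ?_⟩
    · have := h10 s (by rw [hD]; exact hs)
      omega
    · rw [hB', hD]
      refine ((nz_perm (cs (A j))).trans ?_).symm
      rw [filter_eq_self.mpr]
      intro d hd
      have := (h13 d hd).1
      simp only [decide_eq_true_eq]
      omega
  choose D hbg hDl hDo hD10 hDs hDB hD0 using hN
  have hsum9 : ∀ j, (B j).sum ≤ 9 * (B j).length := by
    intro j
    have := List.sum_le_card_nsmul (B j) 9 (fun d hd => ((hst j).2 d hd).2)
    rw [smul_eq_mul] at this
    omega
  have hsum5 : ∀ j, 5 * (B j).length ≤ (B j).sum := by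
    intro j
    have := List.card_nsmul_le_sum (B j) 5 (fun d hd => h5' j d hd)
    rw [smul_eq_mul] at this
    omega
  have hBs : ∀ j, (B (j + 1)).sum = (D j).sum := fun j => by rw [hDB, sum_nz]
  have hBl : ∀ j, (B (j + 1)).length + (D j).count 0 = (A j).length := fun j => by
    rw [hDB, len_nz, hDl, len_cs]
  rcases pot3 (fun j => ((B j).sum : ℤ)) (fun j => ((B j).length : ℤ)) (fun j => ((D j).count 0 : ℤ))
    (fun j => by have := hDs j; have := hBs j; have := hA4 j; omega)
    (fun j => by have := hBl j; have := hA3 j; omega)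
    (fun j => by omega)
    (fun j => by have := hsum9 j; omega)
    (fun j => by have := hsum5 j; omega)
    (fun j => by omega) with ⟨J, hJ⟩ | ⟨J, hJ⟩
  · left
    have hXA : ∀ j, rats^[K + 3 + 2 * j] n = Nat.ofDigits 10 (A j) := by
      intro j
      rw [show K + 3 + 2 * j = K + 2 + 2 * j + 1 by ring, Function.iterate_succ_apply', hX, hA1]
    refine run_trib (K := K + 3 + 2 * J) (fun j => A (J + j)) (fun j => B (J + j + 1)) ?_ ?_
    · intro j
      rw [show K + 3 + 2 * J + 2 * j = K + 3 + 2 * (J + j) by ring, hXA]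
    · intro j
      obtain ⟨h1, h2⟩ := hJ (J + j) (by omega)
      obtain ⟨h3, h4⟩ := hD0 (J + j) (by omega)
      have h6 := hA3 (J + j)
      have h7 := hA4 (J + j)
      exact ⟨(hA2 (J + j)).stA, hst _, (hA2 (J + j + 1)).stA, h3, h4, (hA2 (J + j + 1)).hB,
        by omega⟩
  · right
    have hAs : ∀ j, J ≤ j → (A j).sum = 3 * (A j).length + 3 := by
      intro j hj
      have := (hJ j hj).1
      have := hA3 j
      have := hA4 j
      omega
    obtain ⟨m, -, -, -, h68⟩ := (hA2 J).one_zero (hbg J) (hDl J) (hDo J) (hD10 J)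
      (by have := (hJ J (le_refl _)).2; omega) (hAs J (le_refl _))
    have hB68 : ∀ d ∈ B (J + 1), 6 ≤ d ∧ d ≤ 8 := by
      intro d hd
      rw [hDB, mem_nz] at hd
      have := h68 d hd.1
      omega
    have hS1 := (hJ (J + 1) (by omega)).1
    have hlen2 : (B (J + 1)).length = 2 := (hA2 (J + 1)).len_two (hbg _) (hDl _) (hDo _) (hD10 _)
      (by have := (hJ (J + 1) (by omega)).2; omega) (hAs _ (by omega)) (fun d hd => (hB68 d hd).1)
      (by omega)
    obtain ⟨x, y, hxy⟩ := length_eq_two.mp hlen2
    have hx := hB68 x (by rw [hxy]; simp)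
    have hy := hB68 y (by rw [hxy]; simp)
    have hle : y ≤ x := by
      have := (hst (J + 1)).1
      rw [hxy] at this
      simpa using this
    rw [hlen2, hxy] at hS1
    simp only [sum_cons, sum_nil] at hS1
    refine ⟨K + 2 + 2 * (J + 1), ?_⟩
    rw [hX, hxy, show x = 8 by omega, show y = 7 by omega]
    simp [Nat.ofDigits_cons]

end Pool.RAT
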