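import Pool.Agent.H42.RAT.Cyc

/-!
# RATS (MP_a315fd): the cycles `1^(2t) 7^t, 2^t 8^(2t)`
-/

set_option autoImplicit false

namespace Pool.RAT

open List

/-- an addition without carries, then one with a carry out of each column, digit sum `3 L`, the same
length -/
structure Zbl (A B A' : List ℕ) : Prop where
  stA : St A
  stB : St B
  stA' : St A'
  ne : A ≠ []
  c9 : ∀ s ∈ cs A, s ≤ 9
  pB : (cs A).Perm B
  hB : ∃ t, cs B = 10 :: t ∧ (∀ d ∈ t, 10 ≤ d) ∧ A'.Perm (t.map (fun d => d - 9) ++ [1])
  sA : A.sum = 3 * A.length
  sA' : A'.sum = 3 * A'.length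
  len : A'.length = A.length

theorem count_mid (w : List ℕ) (x p q : ℕ) (hpq : p ≤ q) (hq : q ≤ w.length)
    (h1 : ∀ k (hk : k < w.length), p ≤ k → k < q → w[k] = x)
    (h2 : ∀ k (hk : k < w.length), k < p ∨ q ≤ k → w[k] ≠ x) : w.count x = q - p := by
  have e : w = w.take p ++ ((w.drop p).take (q - p) ++ w.drop q) := by
    have : w.drop q = (w.drop p).drop (q - p) := by rw [drop_drop]; congr 1; omega
    rw [this, take_append_drop, take_append_drop]
  have c1 : (w.take p).count x = 0 := by
    rw [count_eq_zero]
    intro h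
    obtain ⟨k, hk, hx⟩ := mem_iff_getElem.mp h
    rw [getElem_take] at hx
    rw [length_take] at hk
    exact h2 k (by omega) (Or.inl (by omega)) hx
  have c2 : ((w.drop p).take (q - p)).count x = ((w.drop p).take (q - p)).length := by
    rw [count_eq_length]
    intro y hy
    obtain ⟨k, hk, rfl⟩ := mem_iff_getElem.mp hy
    rw [getElem_take, getElem_drop]
    rw [length_take, length_drop] at hk
    exact (h1 (p + k) (by omega) (by omega) (by omega)).symm
  have c3 : (w.drop q).count x = 0 := by
    rw [count_eq_zero]
    intro h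
    obtain ⟨k, hk, hx⟩ := mem_iff_getElem.mp h
    rw [getElem_drop] at hx
    rw [length_drop] at hk
    exact h2 (q + k) (by omega) (Or.inr (by omega)) hx
  conv_lhs => rw [e]
  rw [count_append, count_append, c1, c2, c3, length_take, length_drop]
  omega

theorem count_out (w : List ℕ) (x p q : ℕ) (hpq : p ≤ q) (hq : q ≤ w.length)
    (h1 : ∀ k (hk : k < w.length), k < p ∨ q ≤ k → w[k] = x)
    (h2 : ∀ k (hk : k < w.length), p ≤ k → k < q → w[k] ≠ x) :
    w.count x = p + (w.length - q) := by
  have e : w = w.take p ++ ((w.drop p).take (q - p) ++ w.drop q) := by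
    have : w.drop q = (w.drop p).drop (q - p) := by rw [drop_drop]; congr 1; omega
    rw [this, take_append_drop, take_append_drop]
  have c1 : (w.take p).count x = (w.take p).length := by
    rw [count_eq_length]
    intro y hy
    obtain ⟨k, hk, rfl⟩ := mem_iff_getElem.mp hy
    rw [getElem_take]
    rw [length_take] at hk
    exact (h1 k (by omega) (Or.inl (by omega))).symm
  have c2 : ((w.drop p).take (q - p)).count x = 0 := by
    rw [count_eq_zero]
    intro h
    obtain ⟨k, hk, hx⟩ := mem_iff_getElem.mp h
    rw [getElem_take, getElem_drop] at hx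
    rw [length_take, length_drop] at hk
    exact h2 (p + k) (by omega) (by omega) (by omega) hx
  have c3 : (w.drop q).count x = (w.drop q).length := by
    rw [count_eq_length]
    intro y hy
    obtain ⟨k, hk, rfl⟩ := mem_iff_getElem.mp hy
    rw [getElem_drop]
    rw [length_drop] at hk
    exact (h1 (q + k) (by omega) (Or.inr (by omega))).symm
  conv_lhs => rw [e]
  rw [count_append, count_append, c1, c2, c3, length_take, length_drop]
  omega

theorem Zbl.lenB {A B A' : List ℕ} (h : Zbl A B A') : B.length = A.length := by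
  rw [← h.pB.length_eq, len_cs]

theorem Zbl.sumB {A B A' : List ℕ} (h : Zbl A B A') : B.sum = 6 * B.length := by
  rw [← h.pB.sum_eq, sum_cs, h.sA, h.pB.length_eq.symm, len_cs]
  ring

theorem Zbl.posA {A B A' : List ℕ} (h : Zbl A B A') : 0 < A.length := length_pos_of_ne_nil h.ne

theorem Zbl.first {A B A' : List ℕ} (h : Zbl A B A') (h0 : 0 < B.length) :
    B[0] + B[B.length - 1]'(by omega) = 10 := by
  obtain ⟨t, hc, -, -⟩ := h.hB
  have e1 := cs_get B 0 h0
  have e2 : (cs B)[0]'(by rw [len_cs]; exact h0) = 10 := by simp [hc]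
  have e3 : B.length - 1 - 0 = B.length - 1 := by omega
  simp only [e3] at e1
  omega

theorem Zbl.cols10 {A B A' : List ℕ} (h : Zbl A B A') : ∀ s ∈ cs B, 10 ≤ s := by
  obtain ⟨t, hc, ht, -⟩ := h.hB
  intro s hs
  rw [hc] at hs
  rcases mem_cons.mp hs with rfl | hs
  · exact le_refl _
  · exact ht s hs

/-- not all columns of `A` are `≥ 4` -/
theorem Zbl.not4 {A B A' : List ℕ} (h : Zbl A B A') : ¬ ∀ s ∈ cs A, 4 ≤ s := by
  intro h4
  have hlB := h.lenB
  have hp := h.posA
  have h0 : 0 < B.length := by omega
  have hf := h.first h0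
  have hB4 : ∀ d ∈ B, 4 ≤ d := fun d hd => h4 d (h.pB.mem_iff.mpr hd)
  have a1 := hB4 _ (getElem_mem (l := B) (n := B.length - 1) (by omega))
  have hB6 : ∀ d ∈ B, d ≤ 6 := by
    intro d hd
    obtain ⟨k, hk, rfl⟩ := mem_iff_getElem.mp hd
    have := anti h.stB.1 (show 0 ≤ k by omega) hk
    omega
  have hs := h.sumB
  -- all digits are `6`
  have : B.sum + (6 - B[B.length - 1]'(by omega)) ≤ 6 * B.length := by
    have key : ∀ (w : List ℕ), (∀ d ∈ w, d ≤ 6) → ∀ k (hk : k < w.length),
        w.sum + (6 - w[k]) ≤ 6 * w.length := by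
      intro w
      induction w with
      | nil => intro _ k hk; simp at hk
      | cons x w ih =>
        intro hw k hk
        have hx := hw x mem_cons_self
        have hw' := fun d hd => hw d (mem_cons_of_mem _ hd)
        have hsw := List.sum_le_card_nsmul w 6 hw'
        rw [smul_eq_mul] at hsw
        cases k with
        | zero => rw [getElem_cons_zero, sum_cons, length_cons]; omega
        | succ k =>
          have := ih hw' k (by simpa using hk)
          rw [getElem_cons_succ, sum_cons, length_cons]
          omega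
    exact key B hB6 _ (by omega)
  have a2 := hB6 _ (getElem_mem (l := B) (n := 0) h0)
  have a3 := anti h.stB.1 (show 0 ≤ B.length - 1 by omega) (by omega)
  omega

theorem sum_cg23 {A : List ℕ} (h : ∀ d ∈ A, d ≤ 5) : A.sum ≤ A.length + cg 2 A + 3 * cg 3 A := by
  induction A with
  | nil => simp [cg]
  | cons x t ih =>
    have hx := h x mem_cons_self
    have := ih (fun d hd => h d (mem_cons_of_mem _ hd))
    rw [cg_cons, cg_cons, sum_cons, length_cons]
    split_ifs <;> omega

/-- digits `≤ 5` with digit sum `3 L`: the columns are `≥ 4` -/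
theorem five_cols {A : List ℕ} (hA : St A) (h5 : ∀ d ∈ A, d ≤ 5) (hs : A.sum = 3 * A.length) :
    ∀ s ∈ cs A, 4 ≤ s := by
  intro s hcs
  obtain ⟨i, hi, hj, h2i, rfl⟩ := col hcs
  by_contra hc
  have t2 := thr hA.1 2 _ hj
  have t3 := thr hA.1 3 i hi
  have a1 := (hA.2 _ (getElem_mem hi)).1
  have a2 := (hA.2 _ (getElem_mem hj)).1
  have a3 := anti hA.1 (show i ≤ A.length - 1 - i by omega) hj
  have b2 : ¬ (A.length - 1 - i < cg 2 A) := fun h => by
    have := t2.mpr h
    omega
  have b3 : ¬ (i < cg 3 A) := fun h => by
    have := t3.mpr h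
    omega
  have := sum_cg23 h5
  omega

/-- if the next step is of this kind too, the first digits of `B` are `8` and `2` -/
theorem Zbl.eight {A B A' B' A'' : List ℕ} (h : Zbl A B A') (h' : Zbl A' B' A'')
    (h0 : 0 < B.length) : B[0] = 8 ∧ B[B.length - 1]'(by omega) = 2 := by
  have hf := h.first h0
  have hB9 : ∀ d ∈ B, 2 ≤ d ∧ d ≤ 9 := by
    intro d hd
    have hd' := h.pB.mem_iff.mpr hd
    refine ⟨?_, h.c9 d hd'⟩
    obtain ⟨x, hx, y, hy, rfl⟩ := mem_cs hd'
    have := (h.stA.2 x hx).1
    have := (h.stA.2 y hy).1
    omega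
  have a1 := (hB9 _ (getElem_mem (l := B) (n := B.length - 1) (by omega))).1
  have h8 : 8 ≤ B[0] := by
    by_contra hc
    -- the digits of `A'` are `≤ 5`
    have hB7 : ∀ d ∈ B, d ≤ 7 := by
      intro d hd
      obtain ⟨k, hk, rfl⟩ := mem_iff_getElem.mp hd
      have := anti h.stB.1 (show 0 ≤ k by omega) hk
      omega
    have hA5 : ∀ d ∈ A', d ≤ 5 := by
      intro d hd
      obtain ⟨t, hct, ht, hp⟩ := h.hB
      rw [hp.mem_iff, mem_append, mem_map, mem_singleton] at hd
      rcases hd with ⟨e, he, rfl⟩ | rfl
      · obtain ⟨x, hx, y, hy, rfl⟩ := mem_cs (show e ∈ cs B by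
          rw [hct]; exact mem_cons_of_mem _ he)
        have := hB7 x hx
        have := hB7 y hy
        omega
      · norm_num
    exact h'.not4 (five_cols h'.stA hA5 h'.sA)
  omega

/-- the number of digits `2` in `B` -/
theorem Zbl.cnt2 {A B A' : List ℕ} (h : Zbl A B A') (h2 : 2 ∈ B) :
    B.count 2 + A.length = 2 * A.count 1 ∧ 3 * B.count 2 ≤ A.length ∧
      (3 * B.count 2 = A.length → A = replicate (B.count 2) 7 ++ replicate (2 * B.count 2) 1) := by
  have hcg := cg2_cnt (fun d hd => (h.stA.2 d hd).1)
  -- a column `1 + 1`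
  have hex : A.length < 2 * A.count 1 := by
    rw [← h.pB.mem_iff] at h2
    obtain ⟨i, hi, hj, h2i, he⟩ := col h2
    have t2 := thr h.stA.1 2 _ hi
    have a1 := (h.stA.2 _ (getElem_mem hi)).1
    have a2 := (h.stA.2 _ (getElem_mem hj)).1
    have b2 : ¬ (i < cg 2 A) := fun h => by
      have := t2.mpr h
      omega
    omega
  have hone : ∀ k (hk : k < A.length), A[k] = 1 ↔ A.length - A.count 1 ≤ k := by
    intro k hk
    have t2 := thr h.stA.1 2 k hk
    have a1 := (h.stA.2 _ (getElem_mem hk)).1
    constructor
    · intro h1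
      by_contra hc
      have := t2.mpr (by omega)
      omega
    · intro h1
      by_contra hc
      have := t2.mp (by omega)
      omega
  have hcl := len_cs A
  have hc2 : (cs A).count 2 = A.count 1 - (A.length - A.count 1) := by
    apply count_mid (cs A) 2 (A.length - A.count 1) (A.count 1) (by omega) (by omega)
    · intro k hk h1 h3
      have e := cs_get A k (by omega)
      have a1 := (hone k (by omega)).mpr h1
      have a2 := (hone (A.length - 1 - k) (by omega)).mpr (by omega)
      rw [e, a1, a2]
    · intro k hk h1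
      have e := cs_get A k (by omega)
      have a1 := (h.stA.2 _ (getElem_mem (l := A) (n := k) (by omega))).1
      have a2 := (h.stA.2 _ (getElem_mem (l := A) (n := A.length - 1 - k) (by omega))).1
      rw [e]
      intro h3
      rcases h1 with h1 | h1
      · have := (hone k (by omega)).mp (by omega)
        omega
      · have := (hone (A.length - 1 - k) (by omega)).mp (by omega)
        omega
  have hcB : B.count 2 = A.count 1 - (A.length - A.count 1) := by
    rw [← hc2, h.pB.count_eq]
  have hA7 : ∀ d ∈ A, d ≤ 7 := by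
    intro d hd
    have hlB := h.lenB
    have hp := h.posA
    have h0 : 0 < B.length := by omega
    have hf := h.first h0
    have hB2 : 2 ≤ B[B.length - 1]'(by omega) := by
      have := h.pB.mem_iff.mpr (getElem_mem (l := B) (n := B.length - 1) (by omega))
      obtain ⟨x, hx, y, hy, he⟩ := mem_cs this
      have := (h.stA.2 x hx).1
      have := (h.stA.2 y hy).1
      omega
    have hA0 : A[0] + A[A.length - 1] ≤ 8 := by
      have e := mem_col A 0 hp (by omega)
      rw [h.pB.mem_iff] at e
      obtain ⟨k, hk, hk'⟩ := mem_iff_getElem.mp e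
      have := anti h.stB.1 (show 0 ≤ k by omega) hk
      have e3 : A.length - 1 - 0 = A.length - 1 := by omega
      simp only [e3] at hk'
      omega
    have := (h.stA.2 _ (getElem_mem (l := A) (n := A.length - 1) (by omega))).1
    obtain ⟨k, hk, rfl⟩ := mem_iff_getElem.mp hd
    have := anti h.stA.1 (show 0 ≤ k by omega) hk
    omega
  have hle : ∀ w : List ℕ, (∀ d ∈ w, d ≤ 7) → w.sum + 6 * w.count 1 ≤ 7 * w.length ∧
      (w.sum + 6 * w.count 1 = 7 * w.length → ∀ d ∈ w, d = 1 ∨ d = 7) := by
    intro w
    induction w with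
    | nil => simp
    | cons x w ih =>
      intro hw
      have hx := hw x mem_cons_self
      obtain ⟨i1, i2⟩ := ih (fun d hd => hw d (mem_cons_of_mem _ hd))
      rw [sum_cons, length_cons, count_cons]
      simp only [beq_iff_eq]
      constructor
      · split_ifs <;> omega
      · intro he d hd
        rcases mem_cons.mp hd with rfl | hd
        · split_ifs at he with h1
          · left; exact h1
          · right; omega
        · refine i2 ?_ d hd
          split_ifs at he <;> omega
  obtain ⟨l1, l2⟩ := hle A hA7
  have hsA := h.sA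
  refine ⟨by omega, by omega, ?_⟩
  intro h3
  have h17 := l2 (by omega)
  have hc17 : ∀ w : List ℕ, (∀ d ∈ w, d = 1 ∨ d = 7) → w.count 7 + w.count 1 = w.length := by
    intro w
    induction w with
    | nil => simp
    | cons x w ih =>
      intro hw
      have := ih (fun d hd => hw d (mem_cons_of_mem _ hd))
      rcases hw x mem_cons_self with rfl | rfl
      · rw [count_cons_self, count_cons_of_ne (by norm_num), length_cons]; omega
      · rw [count_cons_self, count_cons_of_ne (by norm_num), length_cons]; omega
  have h7 := hc17 A h17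
  apply Perm.eq_of_pairwise' h.stA.1
  · rw [pairwise_append]
    refine ⟨pairwise_replicate.mpr (Or.inr (le_refl _)), pairwise_replicate.mpr (Or.inr (le_refl _)),
      ?_⟩
    intro x hx y hy
    rw [mem_replicate] at hx hy
    omega
  · rw [perm_iff_count]
    intro x
    rw [count_append, count_replicate, count_replicate]
    simp only [beq_iff_eq]
    by_cases hx : x ∈ A
    · rcases h17 x hx with rfl | rfl
      · norm_num; omega
      · norm_num; omega
    · have c0 := count_eq_zero.mpr hx
      have c1 : 1 ≠ x ∨ A.count 1 = 0 := by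
        by_cases h1 : x = 1
        · right; rw [← h1]; exact c0
        · left; omega
      have c7 : 7 ≠ x ∨ A.count 7 = 0 := by
        by_cases h1 : x = 7
        · right; rw [← h1]; exact c0
        · left; omega
      rw [c0]
      split_ifs <;> omega

/-- the number of digits `1` of `A'` -/
theorem Zbl.next {A B A' B' A'' : List ℕ} (h : Zbl A B A') (h' : Zbl A' B' A'')
    (h8 : ∀ h0 : 0 < B.length, B[0] = 8) (h2' : 2 ∈ B') : A'.count 1 = 2 * B.count 2 := by
  have hlB := h.lenB
  have hp := h.posA
  have h0 : 0 < B.length := by omega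
  have hB0 := h8 h0
  have hB8 : ∀ k (hk : k < B.length), B[k] ≤ 8 := fun k hk => by
    have := anti h.stB.1 (show 0 ≤ k by omega) hk
    omega
  have hcl := len_cs B
  have hB2 : ∀ d ∈ B, 2 ≤ d := by
    intro d hd
    obtain ⟨x, hx, y, hy, rfl⟩ := mem_cs (h.pB.mem_iff.mpr hd)
    have := (h.stA.2 x hx).1
    have := (h.stA.2 y hy).1
    omega
  -- `count 1 A' = count 10 (cs B)`
  have hc1 : A'.count 1 = (cs B).count 10 := by
    obtain ⟨t, hct, ht, hpm⟩ := h.hB
    have h10 : ∀ s : List ℕ, (∀ d ∈ s, 10 ≤ d) → (s.map (fun d => d - 9)).count 1 = s.count 10 := by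
      intro s hs
      induction s with
      | nil => simp
      | cons x s ih =>
        have hx := hs x mem_cons_self
        have := ih (fun d hd => hs d (mem_cons_of_mem _ hd))
        rw [map_cons, count_cons, count_cons, this]
        simp only [beq_iff_eq]
        have : (x - 9 = 1) ↔ (x = 10) := by omega
        simp only [this]
    rw [hpm.count_eq, hct, count_append, h10 t ht, count_singleton_self, count_cons_self]
  -- a column `≥ 15`
  have hA'1 := (h'.cnt2 h2').1
  have hpos2 : 0 < B'.count 2 := count_pos_iff.mpr h2'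
  have hbig : ∃ s ∈ cs B, 15 ≤ s := by
    by_contra hcon
    push Not at hcon
    -- all columns `≤ 14`: the digit sum of `A'` is too small
    have key : ∀ w : List ℕ, (∀ s ∈ w, 10 ≤ s ∧ s ≤ 14) →
        w.sum + 4 * w.count 10 ≤ 14 * w.length := by
      intro w
      induction w with
      | nil => simp
      | cons x w ih =>
        intro hw
        have hx := hw x mem_cons_self
        have := ih (fun d hd => hw d (mem_cons_of_mem _ hd))
        rw [sum_cons, length_cons, count_cons]
        simp only [beq_iff_eq]
        split_ifs <;> omega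
    have h3 := key (cs B) (fun s hs => ⟨h.cols10 s hs, by have := hcon s hs; omega⟩)
    rw [sum_cs, h.sumB, hcl, ← hc1] at h3
    have := h.len
    omega
  obtain ⟨s, hs, hs15⟩ := hbig
  obtain ⟨i, hi, hj, h2i, rfl⟩ := col hs
  have b1 := hB8 i hi
  have b2 := hB8 _ hj
  have hij := anti h.stB.1 (show i ≤ B.length - 1 - i by omega) hj
  -- the positions of the digits `2`
  have hcg : cg 3 B + B.count 2 = B.length := by
    have key : ∀ w : List ℕ, (∀ d ∈ w, 2 ≤ d) → cg 3 w + w.count 2 = w.length := by
      intro w
      induction w with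
      | nil => simp [cg]
      | cons x w ih =>
        intro hw
        have hx := hw x mem_cons_self
        have := ih (fun d hd => hw d (mem_cons_of_mem _ hd))
        rw [cg_cons, count_cons, length_cons]
        simp only [beq_iff_eq]
        split_ifs <;> omega
    exact key B hB2
  have htwo : ∀ k (hk : k < B.length), B[k] = 2 ↔ B.length - B.count 2 ≤ k := by
    intro k hk
    have t3 := thr h.stB.1 3 k hk
    have a1 := hB2 _ (getElem_mem hk)
    constructor
    · intro h1
      by_contra hc
      have := t3.mpr (by omega)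
      omega
    · intro h1
      by_contra hc
      have := t3.mp (by omega)
      omega
  have hv : B.count 2 ≤ i := by
    by_contra hc
    have := (htwo (B.length - 1 - i) hj).mpr (by omega)
    omega
  have heq : ∀ k (hk : k < B.length), k ≤ i → B[k] = 8 := by
    intro k hk hki
    have a1 := anti h.stB.1 hki hi
    have a2 := hB8 k hk
    omega
  rw [hc1, count_out (cs B) 10 (B.count 2) (B.length - B.count 2) (by omega) (by omega)]
  · omega
  · intro k hk h1
    have e := cs_get B k (by omega)
    rw [e]
    rcases h1 with h1 | h1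
    · rw [heq k (by omega) (by omega), (htwo (B.length - 1 - k) (by omega)).mpr (by omega)]
    · rw [heq (B.length - 1 - k) (by omega) (by omega), (htwo k (by omega)).mpr (by omega)]
  · intro k hk h1 h3
    have e := cs_get B k (by omega)
    rw [e]
    -- the smaller of `k`, `k*`
    have key : ∀ k (hk : k < B.length), 2 * k + 1 ≤ B.length → B.count 2 ≤ k →
        B[k] + B[B.length - 1 - k] ≠ 10 := by
      intro k hk h2k hvk
      by_cases hki : k ≤ i
      · have a1 := heq k hk hki
        have a2 : B[B.length - 1 - k] ≠ 2 := fun h4 => by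
          have := (htwo (B.length - 1 - k) (by omega)).mp h4
          omega
        omega
      · have a1 := anti h.stB.1 (show k ≤ B.length - 1 - i by omega) hj
        have a2 := anti h.stB.1 (show B.length - 1 - k ≤ B.length - 1 - i by omega) hj
        omega
    by_cases h2k : 2 * k + 1 ≤ B.length
    · exact key k (by omega) h2k h1
    · have a1 := key (B.length - 1 - k) (by omega) (by omega) (by omega)
      have e2 : B.length - 1 - (B.length - 1 - k) = k := by omega
      simp only [e2] at a1
      omega

/-- RUNS WITH DIGIT SUM `3 L` -/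
theorem z_run (A B : ℕ → List ℕ) (h : ∀ j, Zbl (A j) (B j) (A (j + 1))) :
    ∃ t, 1 ≤ t ∧ A 0 = replicate t 7 ++ replicate (2 * t) 1 := by
  have hlen : ∀ j, (A j).length = (A 0).length := by
    intro j
    induction j with
    | zero => rfl
    | succ j ih => rw [(h j).len, ih]
  have hpos : ∀ j, 0 < (B j).length := fun j => by rw [(h j).lenB]; exact (h j).posA
  have h82 : ∀ j, (B j)[0]'(hpos j) = 8 ∧ 2 ∈ B j := by
    intro j
    obtain ⟨h1, h2⟩ := (h j).eight (h (j + 1)) (hpos j)
    have h3 := getElem_mem (l := B j) (n := (B j).length - 1) (by have := hpos j; omega)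
    rw [h2] at h3
    exact ⟨h1, h3⟩
  have hv : ∀ j, (B (j + 1)).count 2 + (A 0).length = 4 * (B j).count 2 := by
    intro j
    have a1 := ((h (j + 1)).cnt2 (h82 (j + 1)).2).1
    have a2 := (h j).next (h (j + 1)) (fun _ => (h82 j).1) (h82 (j + 1)).2
    rw [hlen, a2] at a1
    omega
  have hle : ∀ j, 3 * (B j).count 2 ≤ (A 0).length := fun j => by
    have := ((h j).cnt2 (h82 j).2).2.1
    rw [hlen] at this
    exact this
  have hd : ∀ j : ℕ, (A 0).length - 3 * (B j).count 2 = 4 ^ j * ((A 0).length - 3 * (B 0).count 2) := by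
    intro j
    induction j with
    | zero => simp
    | succ j ih =>
      have a1 := hv j
      have a2 := hle j
      rw [pow_succ, mul_comm (4 ^ j) 4, mul_assoc, ← ih]
      omega
  have h0 : (A 0).length - 3 * (B 0).count 2 = 0 := by
    by_contra hne
    have a1 := hd (A 0).length
    have a2 : (A 0).length < 4 ^ (A 0).length := Nat.lt_pow_self (by norm_num)
    have a3 : 4 ^ (A 0).length * 1 ≤ 4 ^ (A 0).length * ((A 0).length - 3 * (B 0).count 2) :=
      Nat.mul_le_mul_left _ (by omega)
    omega
  have h3 := ((h 0).cnt2 (h82 0).2).2.2 (by have := hle 0; omega)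
  exact ⟨_, count_pos_iff.mpr (h82 0).2, h3⟩

end Pool.RAT
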