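import Pool.Agent.H42.RAT.Wrap

/-!
# RATS (MP_a315fd): digits `≤ 5` and digit sum `3 L + 1` lead to Conway's sequence
-/

set_option autoImplicit false

namespace Pool.RAT

open List

/-- some term is `1 2 3^m 4^4` -/
def Trib (x : ℕ) : Prop := ∃ k m, 2 ≤ m ∧ rats^[k] x = Nat.ofDigits 10 (bA 1 1 m 4)

theorem trib_rats {x : ℕ} (h : Trib (rats x)) : Trib x := by
  obtain ⟨k, m, hm, hk⟩ := h
  exact ⟨k + 1, m, hm, by rw [Function.iterate_succ_apply, hk]⟩

theorem trib_iter {x : ℕ} (k : ℕ) (h : Trib (rats^[k] x)) : Trib x := by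
  induction k generalizing x with
  | zero => exact h
  | succ k ih =>
    rw [Function.iterate_succ_apply] at h
    exact trib_rats (ih h)

/-- an all-carry step without zeros -/
theorem stepF {m : List ℕ} (hm : St m) (hne : m ≠ []) (h10 : ∀ s ∈ cs m, 10 ≤ s)
    (h11 : ∀ a t, cs m = a :: t → 11 ≤ a) :
    ∃ (a : ℕ) (t l : List ℕ), cs m = a :: t ∧ St l ∧ rats (Nat.ofDigits 10 m) = Nat.ofDigits 10 l ∧
      l.Perm ((a - 10) :: (t.map (fun d => d - 9) ++ [1])) ∧ l.sum + 9 * m.length = 2 * m.sum ∧
      l.length = m.length + 1 := by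
  obtain ⟨x, m', rfl⟩ := exists_cons_of_ne_nil hne
  obtain ⟨y, hy, t, ht⟩ := cs_cons x m'
  have ha := h11 _ _ ht
  have h18 : ∀ s ∈ cs (x :: m'), 10 ≤ s ∧ s ≤ 18 := by
    intro s hs
    refine ⟨h10 s hs, ?_⟩
    obtain ⟨a, ha, b, hb, rfl⟩ := mem_cs hs
    have := (hm.2 a ha).2
    have := (hm.2 b hb).2
    omega
  have ht18 : ∀ d ∈ t, 10 ≤ d ∧ d ≤ 18 := fun d hd => h18 d (by rw [ht]; exact mem_cons_of_mem _ hd)
  have hxy := h18 (x + y) (by rw [ht]; exact mem_cons_self)
  have hF := rats_F hm ht (by omega) (fun d hd => by have := ht18 d hd; omega)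
  have hlen : t.length + 1 = (x :: m').length := by
    rw [← len_cs (x :: m'), ht, length_cons]
  set D := (x + y - 10) :: (t.map (fun d => d - 9) ++ [1]) with hD
  have hD9 : ∀ d ∈ D, 1 ≤ d ∧ d ≤ 9 := by
    intro d hd
    rw [hD, mem_cons, mem_append, mem_map, mem_singleton] at hd
    rcases hd with rfl | ⟨e, he, rfl⟩ | rfl
    · omega
    · have := ht18 e he; omega
    · omega
  have hp : (nz D).Perm D := by
    refine (nz_perm D).trans ?_
    rw [filter_eq_self.mpr]
    intro d hd
    have := hD9 d hd
    simp only [decide_eq_true_eq]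
    omega
  refine ⟨x + y, t, nz D, ht, nz_st (fun d hd => by have := hD9 d hd; omega), hF, hp, ?_, ?_⟩
  · rw [sum_nz, ← hlen, hD, sum_F (by omega) (fun d hd => by have := ht18 d hd; omega), ← ht, sum_cs]
  · rw [hp.length_eq, ← hlen, hD]; simp

theorem cg_bB (p q r u : ℕ) : cg 6 (bB p q r u) = u + r + q ∧ cg 7 (bB p q r u) = u + r ∧
    cg 8 (bB p q r u) = u := by
  refine ⟨?_, ?_, ?_⟩ <;>
  · simp only [cg, bB, countP_append, countP_replicate]
    norm_num
    try omega

theorem len_bB (p q r u : ℕ) : (bB p q r u).length = p + q + r + u := by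
  simp only [bB, length_append, length_replicate]; omega

theorem sum_bB (p q r u : ℕ) : (bB p q r u).sum = 5 * p + 6 * q + 7 * r + 8 * u := by
  simp only [bB, sum_append, sum_replicate, smul_eq_mul]; omega

theorem le_bB {p q r u d : ℕ} (h : d ∈ bB p q r u) : 5 ≤ d ∧ d ≤ 8 := by
  simp only [bB, mem_append, mem_replicate] at h
  omega

theorem cnt3 (t : List ℕ) (h : ∀ d ∈ t, 3 ≤ d) : 4 * t.length ≤ t.sum + t.count 3 := by
  induction t with
  | nil => simp
  | cons x t ih =>
    have hx := h x mem_cons_self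
    have := ih (fun d hd => h d (mem_cons_of_mem _ hd))
    rw [length_cons, sum_cons, count_cons]
    simp only [beq_iff_eq]
    split_ifs <;> omega

/-- near the ray: one `1`, almost all digits `3` -/
def Near (l : List ℕ) : Prop := St l ∧ (∀ d ∈ l, d ≤ 5) ∧ l.count 1 = 1 ∧ l.length ≤ l.count 3 + 6 ∧
  l.sum = 3 * l.length + 1

/-- few fives among the digits `≥ 5` -/
theorem step_alpha {p q r u : ℕ} (h1 : p ≤ r + u) (h2 : r + 2 * u = p + 2) (hL : 20 ≤ p + q + r + u) :
    ∃ l, rats (Nat.ofDigits 10 (bB p q r u)) = Nat.ofDigits 10 l ∧ Near l ∧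
      l.length = p + q + r + u + 1 := by
  have hm := st_bB p q r u
  obtain ⟨c6, c7, c8⟩ := cg_bB p q r u
  have hlen := len_bB p q r u
  have hne : bB p q r u ≠ [] := by
    intro h; rw [h] at hlen; simp at hlen; omega
  have hcol : ∀ s ∈ cs (bB p q r u), 12 ≤ s ∧ s ≤ 14 := by
    intro s hs
    obtain ⟨i, hi, hj, h2i, rfl⟩ := col hs
    have b1 := le_bB (getElem_mem hi)
    have b2 := le_bB (getElem_mem hj)
    have t6i := thr hm.1 6 i hi
    have t7i := thr hm.1 7 i hi
    have t8i := thr hm.1 8 i hi
    have t6j := thr hm.1 6 _ hj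
    have t7j := thr hm.1 7 _ hj
    have hij := anti hm.1 (show i ≤ (bB p q r u).length - 1 - i by omega) hj
    rw [c6] at t6i t6j
    rw [c7] at t7i t7j
    rw [c8] at t8i
    clear hs hne hm
    constructor
    · by_cases h : 6 ≤ (bB p q r u)[(bB p q r u).length - 1 - i]
      · omega
      · have h3 : ¬ ((bB p q r u).length - 1 - i < u + r + q) := fun h' => h (t6j.mpr h')
        have h4 : 7 ≤ (bB p q r u)[i] := t7i.mpr (by omega)
        omega
    · by_contra hc
      have h8 : 8 ≤ (bB p q r u)[i] := by omega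
      have h7 : 7 ≤ (bB p q r u)[(bB p q r u).length - 1 - i] := by omega
      have h3 := t8i.mp h8
      have h4 := t7j.mp h7
      omega
  obtain ⟨a, t, l, hc, hl, hr, hp, hsum, hll⟩ := stepF hm hne
    (fun s hs => by have := hcol s hs; omega)
    (fun a t hc => by have := hcol a (by rw [hc]; exact mem_cons_self); omega)
  have ha := hcol a (by rw [hc]; exact mem_cons_self)
  have ht : ∀ s ∈ t, 12 ≤ s ∧ s ≤ 14 := fun s hs => hcol s (by rw [hc]; exact mem_cons_of_mem _ hs)
  have htl : t.length + 1 = p + q + r + u := by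
    rw [← hlen, ← len_cs (bB p q r u), hc, length_cons]
  rw [hlen] at hll hsum
  rw [sum_bB] at hsum
  refine ⟨l, hr, ⟨hl, ?_, ?_, ?_, ?_⟩, hll⟩
  · intro d hd
    rw [hp.mem_iff, mem_cons, mem_append, mem_map, mem_singleton] at hd
    rcases hd with rfl | ⟨e, he, rfl⟩ | rfl
    · omega
    · have := ht e he; omega
    · omega
  · rw [hp.count_eq, count_cons_of_ne (by omega), count_append, count_singleton_self]
    have : (t.map (fun d => d - 9)).count 1 = 0 := by
      rw [count_eq_zero, mem_map]
      rintro ⟨e, he, h⟩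
      have := ht e he
      omega
    omega
  · have h3 := cnt3 (t.map (fun d => d - 9)) (by
      intro d hd
      rw [mem_map] at hd
      obtain ⟨e, he, rfl⟩ := hd
      have := ht e he
      omega)
    have hs : l.sum = (a - 10) + ((t.map (fun d => d - 9)).sum + 1) := by
      rw [hp.sum_eq, sum_cons, sum_append]; simp
    have hc3 : (t.map (fun d => d - 9)).count 3 ≤ l.count 3 := by
      rw [hp.count_eq, count_cons, count_append]; omega
    rw [length_map] at h3
    omega
  · omega

/-- many fives -/
theorem step_beta {p q r u : ℕ} (h1 : r + u < p) (h2 : r + 2 * u = p + 2) :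
    ∃ l, rats (Nat.ofDigits 10 (bB p q r u)) = Nat.ofDigits 10 l ∧ St l ∧ (∀ d ∈ l, d ≤ 4) ∧
      1 ≤ l.count 3 ∧ l.count 1 = 1 + (p - (u + r + q)) ∧ l.sum = 3 * l.length + 1 ∧
      l.length = p + q + r + u + 1 := by
  have hm := st_bB p q r u
  obtain ⟨c6, c7, c8⟩ := cg_bB p q r u
  have hlen := len_bB p q r u
  have hu : 3 ≤ u := by omega
  have hne : bB p q r u ≠ [] := by
    intro h; rw [h] at hlen; simp at hlen; omega
  have hcol : ∀ s ∈ cs (bB p q r u), 10 ≤ s ∧ s ≤ 13 := by
    intro s hs
    obtain ⟨i, hi, hj, h2i, rfl⟩ := col hs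
    have b1 := le_bB (getElem_mem hi)
    have b2 := le_bB (getElem_mem hj)
    have t7i := thr hm.1 7 i hi
    have t6j := thr hm.1 6 _ hj
    have hij := anti hm.1 (show i ≤ (bB p q r u).length - 1 - i by omega) hj
    rw [c6] at t6j
    rw [c7] at t7i
    clear hs hne hm
    refine ⟨by omega, ?_⟩
    by_cases h : 7 ≤ (bB p q r u)[i]
    · have h3 := t7i.mp h
      have h4 : ¬ (6 ≤ (bB p q r u)[(bB p q r u).length - 1 - i]) := fun h' => by
        have := t6j.mp h'; omega
      omega
    · omega
  -- the first column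
  have hfirst : ∀ a t, cs (bB p q r u) = a :: t → a = 13 := by
    intro a t hc
    obtain ⟨p', rfl⟩ := Nat.exists_eq_add_of_le' (show 1 ≤ p by omega)
    obtain ⟨u', rfl⟩ := Nat.exists_eq_add_of_le' (show 1 ≤ u by omega)
    have e1 : bB (p' + 1) q r (u' + 1) =
        8 :: (replicate u' 8 ++ (replicate r 7 ++ (replicate q 6 ++ replicate (p' + 1) 5))) := by
      simp only [bB, replicate_succ, cons_append]
    have e2 : (bB (p' + 1) q r (u' + 1)).reverse =
        5 :: (replicate p' 5 ++ (replicate q 6 ++ (replicate r 7 ++ replicate (u' + 1) 8))) := by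
      simp only [bB, reverse_append, reverse_replicate, append_assoc]
      rw [replicate_succ, cons_append]
    rw [cs, e2, e1, zipWith_cons_cons] at hc
    have := (cons_eq_cons.mp hc).1
    omega
  obtain ⟨a, t, l, hc, hl, hr, hp, hsum, hll⟩ := stepF hm hne
    (fun s hs => (hcol s hs).1) (fun a t hc => by have := hfirst a t hc; omega)
  have ha := hfirst a t hc
  subst ha
  have ht : ∀ s ∈ t, 10 ≤ s ∧ s ≤ 13 := fun s hs => hcol s (by rw [hc]; exact mem_cons_of_mem _ hs)
  rw [hlen] at hll hsum
  rw [sum_bB] at hsum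
  refine ⟨l, hr, hl, ?_, ?_, ?_, ?_, hll⟩
  · intro d hd
    rw [hp.mem_iff, mem_cons, mem_append, mem_map, mem_singleton] at hd
    rcases hd with rfl | ⟨e, he, rfl⟩ | rfl
    · omega
    · have := ht e he; omega
    · omega
  · rw [hp.count_eq]; simp
  · have h10 : ∀ s : List ℕ, (∀ d ∈ s, 10 ≤ d) → (s.map (fun d => d - 9)).count 1 = s.count 10 := by
      intro s hs
      induction s with
      | nil => simp
      | cons x s ih =>
        have hx := hs x mem_cons_self
        have := ih (fun d hd => hs d (mem_cons_of_mem _ hd))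
        rw [map_cons, count_cons, count_cons, this]
        simp only [beq_iff_eq]
        have : (x - 9 = 1) ↔ (x = 10) := by omega
        simp only [this]
    have hcnt : (cs (bB p q r u)).count 10 = p - (u + r + q) := by
      set P : List ℕ := replicate u 8 ++ (replicate r 7 ++ replicate q 6) with hP
      have hB : bB p q r u = P ++ replicate p 5 := by
        simp only [bB, hP, append_assoc]
      have hPl : P.length = u + r + q := by
        simp only [hP, length_append, length_replicate]; omega
      have hP6 : ∀ x ∈ P, 6 ≤ x := by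
        intro x hx
        simp only [hP, mem_append, mem_replicate] at hx
        omega
      rw [hB]
      by_cases h : p ≤ P.length
      · rw [cnt10' P hP6 _ h]; omega
      · have := cnt10 P hP6 (p - P.length)
        rw [show P.length + (p - P.length) = p by omega] at this
        rw [this, hPl]
    have e13 : (13 :: t).count 10 = t.count 10 := count_cons_of_ne (by norm_num)
    rw [← hcnt, hc, e13, hp.count_eq, count_cons_of_ne (by norm_num), count_append,
      h10 t (fun d hd => (ht d hd).1), count_singleton_self]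
    omega
  · omega

theorem cg_bV (k p q n : ℕ) : cg 5 (bV k p q n) = n + q + p ∧ cg 7 (bV k p q n) = n := by
  refine ⟨?_, ?_⟩ <;>
  · simp only [cg, bV, countP_append, countP_replicate]
    norm_num
    try omega

/-- digits `4` -/
theorem step_V {k p q n : ℕ} (hk : 1 ≤ k) (hn : k < n) :
    ∃ l, rats (Nat.ofDigits 10 (bV k p q n)) = Nat.ofDigits 10 l ∧ St l ∧ (∀ d ∈ l, d ≤ 5) ∧
      1 ≤ l.count 1 ∧ l.count 5 = n - (q + p + k) ∧
      l.sum + 9 * (k + p + q + n) = 2 * (4 * k + 5 * p + 6 * q + 7 * n) ∧
      l.length = k + p + q + n + 1 := by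
  have hm := st_bV k p q n
  obtain ⟨c5, c7⟩ := cg_bV k p q n
  have hlen : (bV k p q n).length = k + p + q + n := by
    simp only [bV, length_append, length_replicate]; omega
  have hsm : (bV k p q n).sum = 4 * k + 5 * p + 6 * q + 7 * n := by
    simp only [bV, sum_append, sum_replicate, smul_eq_mul]; omega
  have hne : bV k p q n ≠ [] := by
    intro h; rw [h] at hlen; simp at hlen; omega
  have hle : ∀ d ∈ bV k p q n, 4 ≤ d ∧ d ≤ 7 := by
    intro d hd
    simp only [bV, mem_append, mem_replicate] at hd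
    omega
  have hcol : ∀ s ∈ cs (bV k p q n), 10 ≤ s ∧ s ≤ 14 := by
    intro s hs
    obtain ⟨i, hi, hj, h2i, rfl⟩ := col hs
    have b1 := hle _ (getElem_mem hi)
    have b2 := hle _ (getElem_mem hj)
    have t7i := thr hm.1 7 i hi
    have t5j := thr hm.1 5 _ hj
    have hij := anti hm.1 (show i ≤ (bV k p q n).length - 1 - i by omega) hj
    rw [c5] at t5j
    rw [c7] at t7i
    clear hs hne hm
    refine ⟨?_, by omega⟩
    by_cases h : 5 ≤ (bV k p q n)[(bV k p q n).length - 1 - i]
    · omega
    · have h3 : ¬ ((bV k p q n).length - 1 - i < n + q + p) := fun h' => h (t5j.mpr h')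
      have h4 := t7i.mpr (by omega)
      omega
  have hfirst : ∀ a t, cs (bV k p q n) = a :: t → a = 11 := by
    intro a t hc
    obtain ⟨k', rfl⟩ := Nat.exists_eq_add_of_le' hk
    obtain ⟨n', rfl⟩ := Nat.exists_eq_add_of_le' (show 1 ≤ n by omega)
    have e1 : bV (k' + 1) p q (n' + 1) =
        7 :: (replicate n' 7 ++ (replicate q 6 ++ (replicate p 5 ++ replicate (k' + 1) 4))) := by
      simp only [bV, replicate_succ, cons_append]
    have e2 : (bV (k' + 1) p q (n' + 1)).reverse =
        4 :: (replicate k' 4 ++ (replicate p 5 ++ (replicate q 6 ++ replicate (n' + 1) 7))) := by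
      simp only [bV, reverse_append, reverse_replicate, append_assoc]
      rw [replicate_succ, cons_append]
    rw [cs, e2, e1, zipWith_cons_cons] at hc
    have := (cons_eq_cons.mp hc).1
    omega
  obtain ⟨a, t, l, hc, hl, hr, hp, hsum, hll⟩ := stepF hm hne
    (fun s hs => (hcol s hs).1) (fun a t hc => by have := hfirst a t hc; omega)
  have ha := hfirst a t hc
  subst ha
  have ht : ∀ s ∈ t, 10 ≤ s ∧ s ≤ 14 := fun s hs => hcol s (by rw [hc]; exact mem_cons_of_mem _ hs)
  rw [hlen] at hll hsum
  rw [hsm] at hsum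
  refine ⟨l, hr, hl, ?_, ?_, ?_, hsum, hll⟩
  · intro d hd
    rw [hp.mem_iff, mem_cons, mem_append, mem_map, mem_singleton] at hd
    rcases hd with rfl | ⟨e, he, rfl⟩ | rfl
    · omega
    · have := ht e he; omega
    · omega
  · rw [hp.count_eq]; simp
  · have h14 : ∀ s : List ℕ, (∀ d ∈ s, 10 ≤ d) → (s.map (fun d => d - 9)).count 5 = s.count 14 := by
      intro s hs
      induction s with
      | nil => simp
      | cons x s ih =>
        have hx := hs x mem_cons_self
        have := ih (fun d hd => hs d (mem_cons_of_mem _ hd))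
        rw [map_cons, count_cons, count_cons, this]
        simp only [beq_iff_eq]
        have : (x - 9 = 5) ↔ (x = 14) := by omega
        simp only [this]
    have hcnt := cnt_top 7 n (replicate q 6 ++ (replicate p 5 ++ replicate k 4)) (by
      intro d hd
      simp only [mem_append, mem_replicate] at hd
      omega)
    rw [show 7 + 7 = 14 by norm_num] at hcnt
    have e11 : (11 :: t).count 14 = t.count 14 := count_cons_of_ne (by norm_num)
    have hcnt' : t.count 14 = n - (q + p + k) := by
      rw [← e11, ← hc, bV, hcnt]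
      simp only [length_append, length_replicate]
      omega
    rw [hp.count_eq, count_cons_of_ne (by norm_num), count_append,
      h14 t (fun d hd => (ht d hd).1), hcnt', count_cons_of_ne (by norm_num)]
    simp

end Pool.RAT
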