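import Pool.Agent.H42.RAT.FourD

/-!
# RATS (MP_a315fd): every second term has digits `≥ 5`
-/

set_option autoImplicit false

namespace Pool.RAT

open List

/-- all the digits are `0` or `≥ 5` -/
def Bg (N : ℕ) : Prop := ∀ i, N / 10 ^ i % 10 = 0 ∨ 5 ≤ N / 10 ^ i % 10

theorem bg_of_nz {N : ℕ} (h : ∀ d ∈ nz (Nat.digits 10 N), 5 ≤ d) : Bg N := by
  intro i
  have e : N / 10 ^ i % 10 = (Nat.digits 10 N).getD i 0 := (Nat.getD_digits N i (by norm_num)).symm
  rw [e]
  by_cases hi : i < (Nat.digits 10 N).length
  · rw [getD_eq_getElem _ _ hi]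
    by_cases h0 : (Nat.digits 10 N)[i] = 0
    · left; exact h0
    · right; exact h _ (mem_nz.mpr ⟨getElem_mem _, by omega⟩)
  · rw [getD_eq_default _ _ (by omega)]
    left; rfl

theorem bg_div {x M : ℕ} (hx : x < 10) (h : Bg (x + 10 * M)) : (x = 0 ∨ 5 ≤ x) ∧ Bg M := by
  constructor
  · have := h 0
    rw [pow_zero, Nat.div_one] at this
    omega
  · intro i
    have := h (i + 1)
    rw [pow_succ', ← Nat.div_div_eq_div_mul] at this
    rw [show (x + 10 * M) / 10 = M by omega] at this
    exact this

/-- columns `≤ 13` -/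
theorem carry_list (s : List ℕ) : ∀ c : ℕ, c ≤ 1 → (∀ x ∈ s, 1 ≤ x ∧ x ≤ 13) →
    Bg (Nat.ofDigits 10 s + c) → Nat.ofDigits 10 s + c < 10 ^ s.length →
    ∃ D : List ℕ, D.length = s.length ∧ Nat.ofDigits 10 D = Nat.ofDigits 10 s + c ∧
      (∀ d ∈ D, d < 10) ∧ D.sum + 9 * D.count 0 = s.sum + c ∧
      (c = 0 → D.count 0 = 0 → D = s) := by
  induction s with
  | nil =>
    intro c _ _ _ hlt
    simp only [Nat.ofDigits_nil, length_nil, pow_zero] at hlt
    have hc : c = 0 := by omega
    subst hc
    exact ⟨[], by simp⟩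
  | cons x s ih =>
    intro c hc hx hbg hlt
    obtain ⟨h1, h13⟩ := hx x mem_cons_self
    have hs := fun y hy => hx y (mem_cons_of_mem _ hy)
    rw [Nat.ofDigits_cons] at hbg hlt
    rw [length_cons, pow_succ] at hlt
    by_cases h9 : x + c ≤ 9
    · have hb := (bg_div (x := x + c) (M := Nat.ofDigits 10 s) (by omega) (by
        rw [show x + c + 10 * Nat.ofDigits 10 s = x + 10 * Nat.ofDigits 10 s + c by ring]
        exact hbg)).2
      obtain ⟨D, hl, ho, h10, hsum, heq⟩ := ih 0 (by norm_num) hs hb (by omega)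
      refine ⟨(x + c) :: D, by simp [hl], ?_, ?_, ?_, ?_⟩
      · rw [Nat.ofDigits_cons, ho, Nat.ofDigits_cons]; ring
      · intro d hd
        rcases mem_cons.mp hd with rfl | hd
        · omega
        · exact h10 d hd
      · rw [sum_cons, sum_cons, count_cons_of_ne (by omega)]; omega
      · intro hc0 h0
        subst hc0
        rw [count_cons_of_ne (by omega)] at h0
        rw [heq rfl h0, Nat.add_zero]
    · have hb := bg_div (x := x + c - 10) (M := Nat.ofDigits 10 s + 1) (by omega) (by
        rw [show x + c - 10 + 10 * (Nat.ofDigits 10 s + 1) = x + 10 * Nat.ofDigits 10 s + c by omega]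
        exact hbg)
      have hx10 : x + c = 10 := by
        rcases hb.1 with h | h <;> omega
      obtain ⟨D, hl, ho, h10, hsum, heq⟩ := ih 1 (by norm_num) hs hb.2 (by omega)
      refine ⟨0 :: D, by simp [hl], ?_, ?_, ?_, ?_⟩
      · rw [Nat.ofDigits_cons, ho, Nat.ofDigits_cons]; omega
      · intro d hd
        rcases mem_cons.mp hd with rfl | hd
        · norm_num
        · exact h10 d hd
      · rw [sum_cons, sum_cons, count_cons_self]; omega
      · intro _ h0
        rw [count_cons_self] at h0
        omega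

/-- the carries -/
def car (s : List ℕ) : ℕ → ℕ
  | 0 => 0
  | i + 1 => (s.getD i 0 + car s i) / 10

theorem car_key (s : List ℕ) (i : ℕ) :
    Nat.ofDigits 10 s / 10 ^ i = car s i + Nat.ofDigits 10 (s.drop i) := by
  induction i with
  | zero => simp [car]
  | succ i ih =>
    rw [pow_succ, ← Nat.div_div_eq_div_mul, ih, car]
    by_cases hi : i < s.length
    · rw [drop_eq_getElem_cons hi, Nat.ofDigits_cons, getD_eq_getElem _ _ hi]
      omega
    · rw [drop_eq_nil_of_le (by omega), drop_eq_nil_of_le (by omega), getD_eq_default _ _ (by omega)]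
      simp

theorem car_digit (s : List ℕ) (i : ℕ) :
    Nat.ofDigits 10 s / 10 ^ i % 10 = (s.getD i 0 + car s i) % 10 := by
  rw [car_key]
  by_cases hi : i < s.length
  · rw [drop_eq_getElem_cons hi, Nat.ofDigits_cons, getD_eq_getElem _ _ hi]
    omega
  · rw [drop_eq_nil_of_le (by omega), getD_eq_default _ _ (by omega)]
    simp

theorem car_le {s : List ℕ} (h : ∀ x ∈ s, x ≤ 18) (i : ℕ) : car s i ≤ 1 := by
  induction i with
  | zero => simp [car]
  | succ i ih =>
    rw [car]
    have : s.getD i 0 ≤ 18 := by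
      by_cases hi : i < s.length
      · rw [getD_eq_getElem _ _ hi]; exact h _ (getElem_mem _)
      · rw [getD_eq_default _ _ (by omega)]; omega
    omega

/-- the step from digits `≥ 5`: the digits of the next term -/
structure FD (B A : List ℕ) : Prop where
  stB : St B
  stA : St A
  ne : B ≠ []
  hB : ∃ a t, cs B = a :: t ∧ 11 ≤ a ∧ (∀ d ∈ t, 10 ≤ d) ∧
    A.Perm ((a - 10) :: (t.map (fun d => d - 9) ++ [1]))
  b5 : ∀ d ∈ B, 5 ≤ d

/-- the next addition has no large column -/
theorem FD.cols {B A : List ℕ} (h : FD B A) (hbg : Bg (Nat.ofDigits 10 (cs A))) :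
    (∀ s ∈ cs A, 1 ≤ s ∧ s ≤ 13) ∧ Nat.ofDigits 10 (cs A) < 10 ^ (cs A).length := by
  have h18 : ∀ s ∈ cs A, 2 ≤ s ∧ s ≤ 18 := by
    intro s hs
    obtain ⟨x, hx, y, hy, rfl⟩ := mem_cs hs
    have := h.stA.2 x hx
    have := h.stA.2 y hy
    omega
  have hcl : (cs A).length = A.length := len_cs A
  have hc1 := car_le (fun s hs => (h18 s hs).2)
  have hdig : ∀ i, ((cs A).getD i 0 + car (cs A) i) % 10 = 0 ∨
      5 ≤ ((cs A).getD i 0 + car (cs A) i) % 10 := fun i => by
    rw [← car_digit]; exact hbg i
  obtain ⟨a, t, hc, ha, ht, hp⟩ := h.hB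
  have h1A : 1 ∈ A := by rw [hp.mem_iff]; simp
  have hApos : 0 < A.length := length_pos_of_mem h1A
  have hlenA : A.length = B.length + 1 := by
    have : t.length + 1 = B.length := by rw [← len_cs B, hc, length_cons]
    rw [hp.length_eq, ← this]
    simp
  -- the top
  have htop : car (cs A) A.length = 0 := by
    have h1 := hdig A.length
    rw [getD_eq_default _ _ (by omega)] at h1
    have := hc1 A.length
    omega
  have hlt : Nat.ofDigits 10 (cs A) < 10 ^ (cs A).length := by
    have h1 := car_key (cs A) A.length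
    rw [htop, drop_eq_nil_of_le (by omega), Nat.ofDigits_nil] at h1
    rw [hcl]
    exact Nat.lt_of_div_eq_zero (by positivity) h1
  refine ⟨?_, hlt⟩
  -- the columns
  have hcol : ∀ k (hk : k < A.length), (cs A).getD k 0 = A[k] + A[A.length - 1 - k] := by
    intro k hk
    rw [getD_eq_getElem _ _ (by omega), cs_get A k hk]
  have hlast : A[A.length - 1] = 1 := by
    obtain ⟨k, hk, hk1⟩ := mem_iff_getElem.mp h1A
    have := anti h.stA.1 (show k ≤ A.length - 1 by omega) (by omega)
    have := (h.stA.2 _ (getElem_mem (l := A) (n := A.length - 1) (by omega))).1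
    omega
  by_contra hcon
  push Not at hcon
  obtain ⟨s, hs, hs13⟩ := hcon
  have hs14 : 14 ≤ s := by
    have := hs13 (by have := (h18 s hs).1; omega)
    omega
  -- the first large column
  have hex : ∃ i, i < A.length ∧ 14 ≤ (cs A).getD i 0 := by
    obtain ⟨i, hi, rfl⟩ := mem_iff_getElem.mp hs
    exact ⟨i, by omega, by rw [getD_eq_getElem _ _ hi]; exact hs14⟩
  classical
  obtain ⟨i, ⟨hi, hi14⟩, hmin⟩ : ∃ i, (i < A.length ∧ 14 ≤ (cs A).getD i 0) ∧
      ∀ k < i, ¬ (k < A.length ∧ 14 ≤ (cs A).getD k 0) :=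
    ⟨Nat.find hex, Nat.find_spec hex, fun k hk => Nat.find_min hex hk⟩
  have hi2 : 2 * i + 1 ≤ A.length := by
    by_contra hc2
    apply hmin (A.length - 1 - i) (by omega)
    refine ⟨by omega, ?_⟩
    rw [hcol i hi] at hi14
    rw [hcol _ (by omega)]
    have e : A.length - 1 - (A.length - 1 - i) = i := by omega
    simp only [e]
    omega
  rw [hcol i hi] at hi14
  have hij := anti h.stA.1 (show i ≤ A.length - 1 - i by omega) (by omega)
  have hAi := (h.stA.2 _ (getElem_mem hi)).2
  -- not the first column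
  have h0 : (cs A).getD 0 0 = A[0] + 1 := by
    rw [hcol 0 hApos]
    have e : A.length - 1 - 0 = A.length - 1 := by omega
    simp only [e, hlast]
  have hlastc : (cs A).getD (A.length - 1) 0 = A[0] + 1 := by
    rw [hcol _ (by omega)]
    have e : A.length - 1 - (A.length - 1) = 0 := by omega
    simp only [e, hlast]
    omega
  have hA0 := (h.stA.2 _ (getElem_mem hApos)).2
  have hi1 : 1 ≤ i := by
    by_contra hc2
    have : i = 0 := by omega
    subst this
    have e : A.length - 1 - 0 = A.length - 1 := by omega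
    simp only [e, hlast] at hi14
    omega
  -- the mirror of the column `i` carries
  have hmir : car (cs A) (A.length - i) = 1 := by
    have e : A.length - i = (A.length - 1 - i) + 1 := by omega
    rw [e, car, hcol _ (by omega)]
    have e2 : A.length - 1 - (A.length - 1 - i) = i := by omega
    simp only [e2]
    have := hc1 (A.length - 1 - i)
    have := hc1 (A.length - 1 - i + 1)
    rw [car, hcol _ (by omega)] at this
    simp only [e2] at this
    omega
  -- the column before
  have hprev : (cs A).getD (i - 1) 0 ≤ 9 := by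
    have h1 := hmin (i - 1) (by omega)
    have h13 : (cs A).getD (i - 1) 0 ≤ 13 := by
      by_contra hc2
      exact h1 ⟨by omega, by omega⟩
    have e1 := hcol (i - 1) (by omega)
    have e2 := hcol (A.length - i) (by omega)
    have e3 : A.length - 1 - (A.length - i) = i - 1 := by omega
    have e4 : A.length - 1 - (i - 1) = A.length - i := by omega
    simp only [e3] at e2
    simp only [e4] at e1
    have h2 := hdig (A.length - i)
    rw [hmir] at h2
    omega
  have hprev' := hcol (i - 1) (by omega)
  have e4 : A.length - 1 - (i - 1) = A.length - i := by omega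
  simp only [e4] at hprev'
  have ham := anti h.stA.1 (show i - 1 ≤ i by omega) hi
  have hsmall : A[A.length - i] ≤ 2 := by omega
  -- the digits of `A` but one are `≥ 3`
  have hbig : ∃ s ∈ cs B, 16 ≤ s := by
    have h7 : A[i] ∈ A := getElem_mem _
    rw [hp.mem_iff, mem_cons, mem_append, mem_map, mem_singleton] at h7
    rcases h7 with h7 | ⟨e, he, h7⟩ | h7
    · exact ⟨a, by rw [hc]; exact mem_cons_self, by omega⟩
    · exact ⟨e, by rw [hc]; exact mem_cons_of_mem _ he, by omega⟩
    · omega
  obtain ⟨sB, hsB, hsB16⟩ := hbig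
  obtain ⟨k, hk, hk', h2k, rfl⟩ := col hsB
  have b1 := (h.stB.2 _ (getElem_mem hk)).2
  have b2 := (h.stB.2 _ (getElem_mem hk')).2
  have hkk := anti h.stB.1 (show k ≤ B.length - 1 - k by omega) hk'
  have hB13 : ∀ s ∈ cs B, 13 ≤ s := cols_ge h.stB.1 h2k 5 13 7 h.b5 (by omega) (by omega) (by omega)
  have hcnt : A.countP (fun d => decide (d ≤ 2)) = 1 := by
    rw [hp.countP_eq, countP_cons_of_neg (by
        have := hB13 a (by rw [hc]; exact mem_cons_self)
        simp only [decide_eq_true_eq]
        omega), countP_append]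
    have : (t.map (fun d => d - 9)).countP (fun d => decide (d ≤ 2)) = 0 := by
      rw [countP_eq_zero]
      intro d hd
      rw [mem_map] at hd
      obtain ⟨e, he, rfl⟩ := hd
      have := hB13 e (by rw [hc]; exact mem_cons_of_mem _ he)
      simp only [decide_eq_true_eq]
      omega
    rw [this]
    simp
  have hi_one : i = 1 := by
    by_contra hc2
    -- two digits `≤ 2`
    have hdrop : 2 ≤ (A.drop (A.length - 2)).countP (fun d => decide (d ≤ 2)) := by
      have h2l : (A.drop (A.length - 2)).length = 2 := by rw [length_drop]; omega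
      have hall : (A.drop (A.length - 2)).countP (fun d => decide (d ≤ 2)) =
          (A.drop (A.length - 2)).length := by
        rw [countP_eq_length]
        intro d hd
        obtain ⟨m, hm, rfl⟩ := mem_iff_getElem.mp hd
        rw [getElem_drop]
        have := anti h.stA.1 (show A.length - i ≤ A.length - 2 + m by omega) (by
          rw [length_drop] at hm; omega)
        simp only [decide_eq_true_eq]
        omega
      rw [hall, h2l]
    have hsub : (A.drop (A.length - 2)).countP (fun d => decide (d ≤ 2)) ≤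
        A.countP (fun d => decide (d ≤ 2)) := (drop_sublist _ _).countP_le
    omega
  subst hi_one
  -- the last column does not carry
  have hcl1 : A[0] ≤ 7 := by
    have h1 : car (cs A) A.length = (A[0] + 1 + car (cs A) (A.length - 1)) / 10 := by
      have e : A.length = (A.length - 1) + 1 := by omega
      conv_lhs => rw [e, car]
      rw [hlastc]
    rw [hmir, htop] at h1
    omega
  have ha01 := anti h.stA.1 (show 0 ≤ 1 by omega) hi
  have hd1 := hdig 1
  rw [hcol 1 hi] at hd1
  have hcar1 : car (cs A) 1 = 0 := by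
    rw [car, car, h0]
    omega
  rw [hcar1] at hd1
  omega

theorem pot2 (S L z : ℕ → ℤ) (hS : ∀ j, S (j + 1) = 4 * S j - 18 * L j - 9 * z j)
    (hL : ∀ j, L (j + 1) = L j + 1 - z j) (hz : ∀ j, 0 ≤ z j)
    (h9 : ∀ j, S j ≤ 9 * L j) (h5 : ∀ j, 5 * L j ≤ S j) (hL0 : ∀ j, 0 ≤ L j) :
    (∃ J, ∀ j, J ≤ j → S j = 6 * L j + 2 ∧ z j = 0) ∨ (∃ J, ∀ j, J ≤ j → L (j + 1) = L j) := by
  have hLi : ∀ j (i : ℕ), L (j + i) ≤ L j + i := by
    intro j i
    induction i with
    | zero => simp
    | succ i ih =>
      have := hL (j + i)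
      have := hz (j + i)
      rw [← Nat.add_assoc]
      push_cast
      omega
  have h1 : ∀ j, 0 ≤ S j - 6 * L j - 2 := by
    intro j
    by_contra hc
    have hgr : ∀ i : ℕ, S (j + i) - 6 * L (j + i) - 2 ≤ -(4 : ℤ) ^ i := by
      intro i
      induction i with
      | zero => simp only [pow_zero, Nat.add_zero]; omega
      | succ i ih =>
        have a1 := hS (j + i)
        have a2 := hL (j + i)
        have a3 := hz (j + i)
        rw [← Nat.add_assoc, pow_succ]
        omega
    obtain ⟨n, hn⟩ := Int.eq_ofNat_of_zero_le (hL0 j)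
    have h2 := hgr (6 * n + 6)
    have h3 := hLi j (6 * n + 6)
    have h4 := h5 (j + (6 * n + 6))
    have h6 : ((6 * n + 7 : ℕ) : ℤ) ^ 2 ≤ (4 : ℤ) ^ (6 * n + 6) := by
      have h5 : (6 * n + 6 : ℕ) < 2 ^ (6 * n + 6) := Nat.lt_two_pow_self
      have : (6 * n + 7) ^ 2 ≤ 4 ^ (6 * n + 6) := by
        calc (6 * n + 7) ^ 2 ≤ (2 ^ (6 * n + 6)) ^ 2 := Nat.pow_le_pow_left (by omega) 2
          _ = 4 ^ (6 * n + 6) := by rw [← pow_mul, mul_comm, pow_mul]; norm_num
      exact_mod_cast this
    push_cast at h6 h3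
    nlinarith
  by_cases hex : ∃ J, S J = 6 * L J + 2
  · left
    obtain ⟨J, hJ⟩ := hex
    refine ⟨J, ?_⟩
    have key : ∀ i, S (J + i) = 6 * L (J + i) + 2 := by
      intro i
      induction i with
      | zero => simpa using hJ
      | succ i ih =>
        have a1 := hS (J + i)
        have a2 := hL (J + i)
        have a3 := h1 (J + i + 1)
        have a4 := hz (J + i)
        rw [← Nat.add_assoc]
        omega
    intro j hj
    obtain ⟨i, rfl⟩ := Nat.exists_eq_add_of_le hj
    have a1 := hS (J + i)
    have a2 := hL (J + i)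
    have a3 := h1 (J + i + 1)
    have a4 := hz (J + i)
    have a5 := key i
    exact ⟨a5, by omega⟩
  · right
    have hpos : ∀ j, 1 ≤ S j - 6 * L j - 2 := by
      intro j
      have := h1 j
      have : S j ≠ 6 * L j + 2 := fun h => hex ⟨j, h⟩
      omega
    -- `W = 3 L - G`
    have hmono : ∀ j, 9 * L (j + 1) - S (j + 1) ≤ 9 * L j - S j := by
      intro j
      have := hS j
      have := hL j
      have := hpos j
      omega
    obtain ⟨J, hJ⟩ : ∃ J, ∀ j, 9 * L J - S J ≤ 9 * L j - S j := by
      have hwf : ∃ J, ∀ j, (9 * L J - S J).toNat ≤ (9 * L j - S j).toNat := by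
        obtain ⟨v, ⟨J, hv⟩, hmin⟩ := WellFounded.has_min (wellFounded_lt (α := ℕ))
          (Set.range fun j => (9 * L j - S j).toNat) ⟨_, 0, rfl⟩
        refine ⟨J, fun j => ?_⟩
        have := hmin _ ⟨j, rfl⟩
        simp only at hv
        rw [hv]
        exact not_lt.mp this
      obtain ⟨J, hJ⟩ := hwf
      refine ⟨J, fun j => ?_⟩
      have := hJ j
      have := h9 j
      have := h9 J
      omega
    have hconst : ∀ i, 9 * L (J + i) - S (J + i) = 9 * L J - S J := by
      intro i
      induction i with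
      | zero => rfl
      | succ i ih =>
        have := hmono (J + i)
        have := hJ (J + i + 1)
        rw [← Nat.add_assoc]
        omega
    refine ⟨J, fun j hj => ?_⟩
    obtain ⟨i, rfl⟩ := Nat.exists_eq_add_of_le hj
    have a0 := hconst i
    have a1 := hconst (i + 1)
    have a2 := hconst (i + 1 + 1)
    rw [← Nat.add_assoc] at a1
    rw [show J + (i + 1 + 1) = J + i + 1 + 1 by ring] at a2
    have b1 := hS (J + i)
    have b2 := hS (J + i + 1)
    have b3 := hL (J + i)
    have b4 := hL (J + i + 1)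
    have b5 := hpos (J + i)
    have b6 := hpos (J + i + 1)
    omega

end Pool.RAT
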