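import Pool.Agent.H42.RAT.FiveD

/-!
# RATS (MP_a315fd): every second term has digits `≥ 5`, conclusion
-/

set_option autoImplicit false

namespace Pool.RAT

open List

theorem bg_step {B : List ℕ} (hB : St B) (h5 : ∀ d ∈ Nat.digits 10 (rats (Nat.ofDigits 10 B)), 5 ≤ d) :
    Bg (Nat.ofDigits 10 (cs B)) := by
  apply bg_of_nz
  have : Nat.digits 10 (rats (Nat.ofDigits 10 B)) = nz (Nat.digits 10 (Nat.ofDigits 10 (cs B))) := by
    rw [rats_st hB, digits_st (nz_st (fun d hd => Nat.digits_lt_base (by norm_num) hd))]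
  rw [← this]
  exact h5

/-- the step from digits `≥ 5` -/
theorem fd_of {B : List ℕ} (hB : St B) (hne : B ≠ []) (h5 : ∀ d ∈ B, 5 ≤ d)
    (h5' : ∀ d ∈ Nat.digits 10 (rats (rats (Nat.ofDigits 10 B))), 5 ≤ d) :
    ∃ A, rats (Nat.ofDigits 10 B) = Nat.ofDigits 10 A ∧ FD B A ∧ A.length = B.length + 1 ∧
      A.sum + 9 * B.length = 2 * B.sum := by
  obtain ⟨x, m', rfl⟩ := exists_cons_of_ne_nil hne
  obtain ⟨y, hy, t, ht⟩ := cs_cons x m'
  have h10 : ∀ s ∈ cs (x :: m'), 10 ≤ s := by
    intro s hs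
    obtain ⟨a, ha, b, hb, rfl⟩ := mem_cs hs
    have := h5 a ha
    have := h5 b hb
    omega
  by_cases h11 : 11 ≤ x + y
  · obtain ⟨a, t', l, hc, hl, hr, hp, hsum, hlen⟩ := stepF hB hne h10 (fun a t' hc => by
      rw [ht] at hc
      have := (cons_eq_cons.mp hc).1
      omega)
    have ha : 11 ≤ a := by
      rw [ht] at hc
      have := (cons_eq_cons.mp hc).1
      omega
    refine ⟨l, hr, ⟨hB, hl, hne, ⟨a, t', hc, ha, ?_, hp⟩, h5⟩, hlen, hsum⟩
    intro d hd
    exact h10 d (by rw [hc]; exact mem_cons_of_mem _ hd)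
  · -- all the digits are `5`
    exfalso
    have hx5 := h5 x mem_cons_self
    have hy5 := h5 y hy
    have hall : ∀ d ∈ x :: m', d = 5 := by
      intro d hd
      have := h5 d hd
      have := head_max hB d hd
      omega
    obtain ⟨D, hD10, hr, h1D, hsD, hlD, -⟩ := F5 hB hne h5
    have hstD := nz_st hD10
    -- the next term has all its digits `≤ 1`
    have hF := rats_F hB ht (by omega) (fun d hd => by
      have := h10 d (by rw [ht]; exact mem_cons_of_mem _ hd); omega)
    obtain ⟨A, hA⟩ : ∃ A, A = nz ((x + y - 10) :: (t.map (fun d => d - 9) ++ [1])) := ⟨_, rfl⟩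
    have hcs : ∀ s ∈ cs (x :: m'), s = 10 := by
      intro s hs
      obtain ⟨a, ha, b, hb, rfl⟩ := mem_cs hs
      have := hall a ha
      have := hall b hb
      omega
    have hA1 : ∀ d ∈ A, d = 1 := by
      intro d hd
      rw [hA, mem_nz, mem_cons, mem_append, mem_map, mem_singleton] at hd
      obtain ⟨hd, hpos⟩ := hd
      rcases hd with rfl | ⟨e, he, rfl⟩ | rfl
      · omega
      · have := hcs e (by rw [ht]; exact mem_cons_of_mem _ he); omega
      · rfl
    have hstA : St A := by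
      rw [hA]
      apply nz_st
      intro d hd
      rw [mem_cons, mem_append, mem_map, mem_singleton] at hd
      rcases hd with rfl | ⟨e, he, rfl⟩ | rfl
      · omega
      · have := hcs e (by rw [ht]; exact mem_cons_of_mem _ he); omega
      · norm_num
    have h1A : 1 ∈ A := by rw [hA, mem_nz]; simp
    have hc2 : ∀ s ∈ cs A, s = 2 := by
      intro s hs
      obtain ⟨a, ha, b, hb, rfl⟩ := mem_cs hs
      have := hA1 a ha
      have := hA1 b hb
      omega
    have hst2 : St (cs A) := by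
      refine ⟨?_, fun d hd => by have := hc2 d hd; omega⟩
      rw [pairwise_iff_getElem]
      intro i k hi hk _
      have := hc2 _ (getElem_mem hi)
      have := hc2 _ (getElem_mem hk)
      omega
    have hr2 := rats_N hstA hst2 (Perm.refl _)
    rw [hF, ← hA, hr2, digits_st hst2] at h5'
    have hlen := len_cs A
    have hpos : 0 < A.length := length_pos_of_mem h1A
    have h2 : (cs A)[0]'(by omega) ∈ cs A := getElem_mem _
    have := h5' _ h2
    have := hc2 _ h2
    omega

/-- the addition after a term with digits `≥ 5` -/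
theorem fd_next {B A : List ℕ} (h : FD B A)
    (h5 : ∀ d ∈ Nat.digits 10 (rats (Nat.ofDigits 10 A)), 5 ≤ d) :
    ∃ (B' : List ℕ) (z : ℕ), rats (Nat.ofDigits 10 A) = Nat.ofDigits 10 B' ∧ St B' ∧
      B'.sum + 9 * z = 2 * A.sum ∧ B'.length + z = A.length ∧
      (z = 0 → (∀ s ∈ cs A, s ≤ 9) ∧ (cs A).Perm B') := by
  have hbg := bg_step h.stA h5
  obtain ⟨h13, hlt⟩ := h.cols hbg
  obtain ⟨D, hl, ho, h10, hsum, heq⟩ := carry_list (cs A) 0 (by norm_num) h13
    (by rw [Nat.add_zero]; exact hbg) (by rw [Nat.add_zero]; exact hlt)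
  rw [Nat.add_zero] at ho
  refine ⟨nz D, D.count 0, ?_, nz_st h10, ?_, ?_, ?_⟩
  · rw [rats_st h.stA, ← ho, nz_digits h10]
  · rw [sum_nz, hsum, sum_cs, Nat.add_zero]
  · rw [len_nz, hl, len_cs]
  · intro h0
    have hD := heq rfl h0
    refine ⟨fun s hs => ?_, ?_⟩
    · have := h10 s (by rw [hD]; exact hs)
      omega
    · rw [hD]
      refine ((nz_perm (cs A)).trans ?_).symm
      rw [filter_eq_self.mpr]
      intro d hd
      have := (h13 d hd).1
      simp only [decide_eq_true_eq]
      omega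

/-- digits `≥ 5` at every second term -/
theorem five_trib {n K : ℕ} (hn : 0 < n)
    (hper : ¬ ∃ k p, 0 < p ∧ rats^[k + p] n = rats^[k] n)
    (h5 : ∀ j, ∀ d ∈ Nat.digits 10 (rats^[K + 2 * j] n), 5 ≤ d) : Trib n := by
  obtain ⟨B, hBdef⟩ : ∃ B : ℕ → List ℕ, B = fun j => Nat.digits 10 (rats^[K + 2 + 2 * j] n) := ⟨_, rfl⟩
  have hX : ∀ j, rats^[K + 2 + 2 * j] n = Nat.ofDigits 10 (B j) := fun j => by
    rw [hBdef, Nat.ofDigits_digits]
  have hst : ∀ j, St (B j) := fun j => by rw [hBdef]; exact iter_st n (by omega)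
  have h5' : ∀ j, ∀ d ∈ B j, 5 ≤ d := fun j => by
    rw [hBdef]
    have := h5 (j + 1)
    rw [show K + 2 * (j + 1) = K + 2 + 2 * j by ring] at this
    exact this
  have hne : ∀ j, B j ≠ [] := fun j => by
    rw [hBdef]
    exact Nat.digits_ne_nil_iff_ne_zero.mpr (iter_pos hn _).ne'
  have hnext : ∀ j, rats (rats (Nat.ofDigits 10 (B j))) = Nat.ofDigits 10 (B (j + 1)) := by
    intro j
    rw [← hX, ← hX, show K + 2 + 2 * (j + 1) = K + 2 + 2 * j + 1 + 1 by ring,
      Function.iterate_succ_apply', Function.iterate_succ_apply']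
  have hFD : ∀ j, ∃ A, rats (Nat.ofDigits 10 (B j)) = Nat.ofDigits 10 A ∧ FD (B j) A ∧
      A.length = (B j).length + 1 ∧ A.sum + 9 * (B j).length = 2 * (B j).sum := fun j =>
    fd_of (hst j) (hne j) (h5' j) (by rw [hnext, digits_st (hst _)]; exact h5' (j + 1))
  choose A hA1 hA2 hA3 hA4 using hFD
  have hN : ∀ j, ∃ z : ℕ, (B (j + 1)).sum + 9 * z = 2 * (A j).sum ∧
      (B (j + 1)).length + z = (A j).length ∧
      (z = 0 → (∀ s ∈ cs (A j), s ≤ 9) ∧ (cs (A j)).Perm (B (j + 1))) := by
    intro j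
    have e : rats (Nat.ofDigits 10 (A j)) = Nat.ofDigits 10 (B (j + 1)) := by
      rw [← hA1, hnext]
    obtain ⟨B', z, h1, h2, h3, h4, h6⟩ := fd_next (hA2 j) (by
      rw [e, digits_st (hst _)]; exact h5' (j + 1))
    have hB' : B' = B (j + 1) := by
      have := congrArg (Nat.digits 10) (h1.symm.trans e)
      rw [digits_st h2, digits_st (hst _)] at this
      exact this
    rw [hB'] at h3 h4 h6
    exact ⟨z, h3, h4, h6⟩
  choose z hz1 hz2 hz3 using hN
  have hsum9 : ∀ j, (B j).sum ≤ 9 * (B j).length := by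
    intro j
    have := List.sum_le_card_nsmul (B j) 9 (fun d hd => ((hst j).2 d hd).2)
    rw [smul_eq_mul] at this
    omega
  have hsum5 : ∀ j, 5 * (B j).length ≤ (B j).sum := by
    intro j
    have := List.card_nsmul_le_sum (B j) 5 (fun d hd => h5' j d hd)
    rw [smul_eq_mul] at this
    omega
  rcases pot2 (fun j => ((B j).sum : ℤ)) (fun j => ((B j).length : ℤ)) (fun j => (z j : ℤ))
    (fun j => by have := hz1 j; have := hA4 j; omega)
    (fun j => by have := hz2 j; have := hA3 j; omega)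
    (fun j => by omega)
    (fun j => by have := hsum9 j; omega)
    (fun j => by have := hsum5 j; omega)
    (fun j => by omega) with ⟨J, hJ⟩ | ⟨J, hJ⟩
  · have hXA : ∀ j, rats^[K + 3 + 2 * j] n = Nat.ofDigits 10 (A j) := by
      intro j
      rw [show K + 3 + 2 * j = K + 2 + 2 * j + 1 by ring, Function.iterate_succ_apply', hX, hA1]
    refine run_trib (K := K + 3 + 2 * J) (fun j => A (J + j)) (fun j => B (J + j + 1)) ?_ ?_
    · intro j
      rw [show K + 3 + 2 * J + 2 * j = K + 3 + 2 * (J + j) by ring, hXA]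
    · intro j
      obtain ⟨h1, h2⟩ := hJ (J + j) (by omega)
      obtain ⟨h3, h4⟩ := hz3 (J + j) (by omega)
      have h6 := hA3 (J + j)
      have h7 := hA4 (J + j)
      exact ⟨(hA2 (J + j)).stA, hst _, (hA2 (J + j + 1)).stA, h3, h4, (hA2 (J + j + 1)).hB,
        by omega⟩
  · exfalso
    apply hper
    have hlen : ∀ i, (B (J + i)).length = (B J).length := by
      intro i
      induction i with
      | zero => rfl
      | succ i ih =>
        have := hJ (J + i) (by omega)
        rw [← Nat.add_assoc]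
        omega
    refine periodic_of_bdd (fun i => K + 2 + 2 * (J + i)) (fun i j hij => by dsimp only; omega)
      (10 ^ (B J).length) (fun i => lt_pow_of_len ?_)
    have := hlen i
    rw [hBdef] at this
    rw [hBdef]
    exact this.le

end Pool.RAT
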