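import Pool.Agent.H42.RAT.Alt

/-!
# RATS (MP_a315fd): every second term has digits `≤ 4`
-/

set_option autoImplicit false

namespace Pool.RAT

open List

/-- all the digits are `≤ 4` -/
def Sm (N : ℕ) : Prop := ∀ i, N / 10 ^ i % 10 ≤ 4

theorem sm_of_nz {N : ℕ} (h : ∀ d ∈ nz (Nat.digits 10 N), d ≤ 4) : Sm N := by
  intro i
  have e : N / 10 ^ i % 10 = (Nat.digits 10 N).getD i 0 := (Nat.getD_digits N i (by norm_num)).symm
  rw [e]
  by_cases hi : i < (Nat.digits 10 N).length
  · rw [getD_eq_getElem _ _ hi]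
    by_cases h0 : (Nat.digits 10 N)[i] = 0
    · omega
    · exact h _ (mem_nz.mpr ⟨getElem_mem _, by omega⟩)
  · rw [getD_eq_default _ _ (by omega)]
    omega

theorem sm_div {x M : ℕ} (hx : x < 10) (h : Sm (x + 10 * M)) : x ≤ 4 ∧ Sm M := by
  constructor
  · have := h 0
    rw [pow_zero, Nat.div_one] at this
    omega
  · intro i
    have := h (i + 1)
    rw [pow_succ', ← Nat.div_div_eq_div_mul] at this
    rw [show (x + 10 * M) / 10 = M by omega] at this
    exact this

/-- with a carry in, small digits force a carry out of each column -/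
theorem carry_all (s : List ℕ) (h : ∀ d ∈ s, 4 ≤ d ∧ d ≤ 16) (hs : Sm (Nat.ofDigits 10 s + 1)) :
    ∀ d ∈ s, 9 ≤ d := by
  induction s with
  | nil => simp
  | cons x t ih =>
    obtain ⟨h4, h16⟩ := h x mem_cons_self
    rw [Nat.ofDigits_cons] at hs
    have hx9 : 9 ≤ x := by
      by_contra hc
      have := (sm_div (x := x + 1) (M := Nat.ofDigits 10 t) (by omega) (by
        rw [show x + 1 + 10 * Nat.ofDigits 10 t = x + 10 * Nat.ofDigits 10 t + 1 by ring]
        exact hs)).1
      omega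
    have h2 := (sm_div (x := x - 9) (M := Nat.ofDigits 10 t + 1) (by omega) (by
      rw [show x - 9 + 10 * (Nat.ofDigits 10 t + 1) = x + 10 * Nat.ofDigits 10 t + 1 by omega]
      exact hs)).2
    have h3 := ih (fun d hd => h d (mem_cons_of_mem _ hd)) h2
    intro d hd
    rcases mem_cons.mp hd with rfl | hd
    · exact hx9
    · exact h3 d hd

theorem carry_first {x : ℕ} {t : List ℕ} (h : ∀ d ∈ x :: t, 4 ≤ d ∧ d ≤ 16)
    (hs : Sm (Nat.ofDigits 10 (x :: t))) : x = 4 ∨ (10 ≤ x ∧ ∀ d ∈ t, 9 ≤ d) := by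
  obtain ⟨h4, h16⟩ := h x mem_cons_self
  rw [Nat.ofDigits_cons] at hs
  by_cases hx : x < 10
  · left
    have := (sm_div hx hs).1
    omega
  · right
    refine ⟨by omega, ?_⟩
    have h2 := (sm_div (x := x - 10) (M := Nat.ofDigits 10 t + 1) (by omega) (by
      rw [show x - 10 + 10 * (Nat.ofDigits 10 t + 1) = x + 10 * Nat.ofDigits 10 t by omega]
      exact hs)).2
    exact carry_all t (fun d hd => h d (mem_cons_of_mem _ hd)) h2

/-- the addition at a `St` list whose result has small digits -/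
theorem sm_step {B : List ℕ} (hB : St B) (h4 : ∀ d ∈ Nat.digits 10 (rats (Nat.ofDigits 10 B)), d ≤ 4) :
    Sm (Nat.ofDigits 10 (cs B)) := by
  apply sm_of_nz
  have : Nat.digits 10 (rats (Nat.ofDigits 10 B)) = nz (Nat.digits 10 (Nat.ofDigits 10 (cs B))) := by
    rw [rats_st hB, digits_st (nz_st (fun d hd => Nat.digits_lt_base (by norm_num) hd))]
  rw [← this]
  exact h4

theorem cs_small {l : List ℕ} (hl : St l) (h4 : ∀ d ∈ l, d ≤ 4) : ∀ s ∈ cs l, 2 ≤ s ∧ s ≤ 8 := by
  intro s hs
  obtain ⟨x, hx, y, hy, rfl⟩ := mem_cs hs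
  have := h4 x hx
  have := h4 y hy
  have := (hl.2 x hx).1
  have := (hl.2 y hy).1
  omega

/-- digits `≤ 4` at every second term -/
theorem four_trib {n K : ℕ} (hn : 0 < n)
    (h4 : ∀ j, ∀ d ∈ Nat.digits 10 (rats^[K + 2 * j] n), d ≤ 4) : Trib n := by
  obtain ⟨l, hl⟩ : ∃ l : ℕ → List ℕ, l = fun j => Nat.digits 10 (rats^[K + 2 + 2 * j] n) := ⟨_, rfl⟩
  have hX : ∀ j, rats^[K + 2 + 2 * j] n = Nat.ofDigits 10 (l j) := fun j => by
    rw [hl, Nat.ofDigits_digits]
  have hst : ∀ j, St (l j) := fun j => by rw [hl]; exact iter_st n (by omega)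
  have h4' : ∀ j, ∀ d ∈ l j, d ≤ 4 := fun j => by
    rw [hl]
    have := h4 (j + 1)
    rw [show K + 2 * (j + 1) = K + 2 + 2 * j by ring] at this
    exact this
  have hne : ∀ j, l j ≠ [] := fun j => by
    rw [hl]
    exact Nat.digits_ne_nil_iff_ne_zero.mpr (iter_pos hn _).ne'
  have h9 : ∀ j, ∀ s ∈ cs (l j), s ≤ 9 := fun j s hs => by
    have := cs_small (hst j) (h4' j) s hs
    omega
  have hB : ∀ j, St (nz (cs (l j))) ∧ (cs (l j)).Perm (nz (cs (l j))) ∧
      rats^[K + 2 + 2 * j + 1] n = Nat.ofDigits 10 (nz (cs (l j))) ∧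
      l (j + 1) = Nat.digits 10 (rats (Nat.ofDigits 10 (nz (cs (l j))))) := by
    intro j
    obtain ⟨h1, h2, h3, -⟩ := dstep (hst j) (h9 j)
    have e : rats^[K + 2 + 2 * j + 1] n = Nat.ofDigits 10 (nz (cs (l j))) := by
      rw [Function.iterate_succ_apply', hX, h3]
    refine ⟨h1, h2, e, ?_⟩
    rw [← e]
    rw [← Function.iterate_succ_apply' rats]
    have e2 : l (j + 1) = Nat.digits 10 (rats^[K + 2 + 2 * (j + 1)] n) := by rw [hl]
    rw [e2, show K + 2 + 2 * (j + 1) = K + 2 + 2 * j + 1 + 1 by ring]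
  have hB28 : ∀ j, ∀ d ∈ nz (cs (l j)), 2 ≤ d ∧ d ≤ 8 := fun j d hd =>
    cs_small (hst j) (h4' j) d (mem_nz.mp hd).1
  have hsm : ∀ j, Sm (Nat.ofDigits 10 (cs (nz (cs (l j))))) := fun j => by
    apply sm_step (hB j).1
    rw [← (hB j).2.2.2]
    exact h4' (j + 1)
  -- a first column `4`
  have hno4 : ∀ j, ∀ t, cs (nz (cs (l j))) ≠ 4 :: t := by
    intro j t ht
    -- all the digits of `B` are `2`
    have hBne : nz (cs (l j)) ≠ [] := by
      intro h0
      rw [h0] at ht
      simp [cs] at ht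
    obtain ⟨x, B₁, hx⟩ := exists_cons_of_ne_nil hBne
    obtain ⟨y, hy, t', ht'⟩ := cs_cons x B₁
    rw [hx, ht'] at ht
    have hxy := (cons_eq_cons.mp ht).1
    rw [← hx] at hy
    have hy2 := (hB28 j y hy).1
    have hst1 := (hB j).1
    have hall : ∀ d ∈ nz (cs (l j)), d = 2 := by
      intro d hd
      have h2 := (hB28 j d hd).1
      rw [hx] at hd hst1
      have := head_max hst1 d hd
      omega
    have hall4 : ∀ s ∈ cs (nz (cs (l j))), s = 4 := by
      intro s hs
      obtain ⟨u, hu, v, hv, rfl⟩ := mem_cs hs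
      have := hall u hu
      have := hall v hv
      omega
    -- hence all the digits of the next term are `4`
    have hst4 : St (cs (nz (cs (l j)))) := by
      refine ⟨?_, fun d hd => by have := hall4 d hd; omega⟩
      rw [pairwise_iff_getElem]
      intro i k hi hk _
      have := hall4 _ (getElem_mem hi)
      have := hall4 _ (getElem_mem hk)
      omega
    have hr4 := rats_N (hB j).1 hst4 (Perm.refl _)
    have hl4 : l (j + 1) = cs (nz (cs (l j))) := by
      rw [(hB j).2.2.2, hr4, digits_st hst4]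
    -- hence the next column is `16`
    have hB8 : ∀ d ∈ nz (cs (l (j + 1))), d = 8 := by
      intro d hd
      obtain ⟨u, hu, v, hv, rfl⟩ := mem_cs (mem_nz.mp hd).1
      rw [hl4] at hu hv
      have := hall4 u hu
      have := hall4 v hv
      omega
    have hBne' : nz (cs (l (j + 1))) ≠ [] := by
      intro h0
      have h1 := (hB (j + 1)).2.1.length_eq
      rw [h0, len_cs, length_nil] at h1
      exact hne (j + 1) (length_eq_zero_iff.mp h1)
    obtain ⟨x', B₂, hx'⟩ := exists_cons_of_ne_nil hBne'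
    obtain ⟨y', hy', t'', ht''⟩ := cs_cons x' B₂
    have e1 : x' = 8 := hB8 x' (by rw [hx']; exact mem_cons_self)
    have e2 : y' = 8 := hB8 y' (by rw [hx']; exact hy')
    have h5 := hsm (j + 1) 0
    rw [hx', ht'', Nat.ofDigits_cons, pow_zero, Nat.div_one] at h5
    omega
  have h10 : ∀ j, ∀ a t, cs (nz (cs (l j))) = a :: t → 10 ≤ a ∧ ∀ d ∈ t, 9 ≤ d := by
    intro j a t hc
    have h416 : ∀ d ∈ cs (nz (cs (l j))), 4 ≤ d ∧ d ≤ 16 := by
      intro d hd
      obtain ⟨u, hu, v, hv, rfl⟩ := mem_cs hd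
      have := hB28 j u hu
      have := hB28 j v hv
      omega
    have h5 := hsm j
    rw [hc] at h5 h416
    rcases carry_first h416 h5 with rfl | h6
    · exact absurd hc (hno4 j t)
    · exact h6
  rcases alt_cols (K := K + 2) hn (by omega) (by rw [hl] at h9; exact h9)
    (by rw [hl] at h10; exact h10) with h | ⟨J, hJ⟩
  · exact h
  · exfalso
    obtain ⟨hs, hlen⟩ := hJ J (le_refl _)
    have hs' : (l J).sum = 3 * (l J).length := by rw [hl]; exact hs
    have hlen' : (l (J + 1)).length = (l J).length := by rw [hl]; exact hlen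
    -- the digits of `B` are `≥ 5`
    have e := eq_bA (hst J) (h4' J)
    obtain ⟨w, hw⟩ : ∃ w, w = l J := ⟨_, rfl⟩
    rw [← hw] at e hs'
    have hlw : w.length = w.count 1 + w.count 2 + w.count 3 + w.count 4 := by
      conv_lhs => rw [e, len_bA]
    have hsw : w.sum = w.count 1 + 2 * w.count 2 + 3 * w.count 3 + 4 * w.count 4 := by
      conv_lhs => rw [e, sum_bA]
    have hB5 : ∀ d ∈ nz (cs w), 5 ≤ d := by
      intro d hd
      have hd' := (mem_nz.mp hd).1
      rw [e] at hd'
      by_cases hc : w.count 3 ≤ w.count 1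
      · obtain ⟨k, hk⟩ := Nat.exists_eq_add_of_le hc
        have hp := permA_le (w.count 1) (w.count 2) (w.count 3) k
        rw [show w.count 1 + (w.count 2 + (w.count 3 + k)) = w.count 4 by omega] at hp
        exact (le_bB (hp.mem_iff.mp hd')).1
      · obtain ⟨k, hk⟩ := Nat.exists_eq_add_of_le (show w.count 1 ≤ w.count 3 by omega)
        have hp := permA_ge (w.count 1) (w.count 2) (w.count 1) k
        rw [show w.count 1 + (w.count 2 + w.count 1) = w.count 4 by omega, ← hk] at hp
        exact (le_bB (hp.mem_iff.mp hd')).1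
    rw [hw] at hB5
    obtain ⟨hB1, hB2, hB3, hB4⟩ := hB J
    have hlB : (nz (cs (l J))).length = (l J).length := by rw [← hB2.length_eq, len_cs]
    have hsB : (nz (cs (l J))).sum = 2 * (l J).sum := by rw [← hB2.sum_eq, sum_cs]
    have hBne : nz (cs (l J)) ≠ [] := by
      intro h0
      rw [h0, length_nil] at hlB
      exact hne J (length_eq_zero_iff.mp hlB.symm)
    obtain ⟨D, hD10, hr, -, -, hlD, h0⟩ := F5 hB1 hBne hB5
    have h6 : ∃ d ∈ nz (cs (l J)), 6 ≤ d := by
      by_contra hcon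
      push Not at hcon
      have h7 := List.sum_le_card_nsmul (nz (cs (l J))) 5 (fun d hd => by have := hcon d hd; omega)
      rw [smul_eq_mul, hlB, hsB, ← hw, hs', hw] at h7
      have := length_pos_of_ne_nil (hne J)
      omega
    have hl1 : l (J + 1) = nz D := by rw [hB4, hr, digits_st (nz_st hD10)]
    have h8 := len_nz D
    rw [h0 h6, hlD, hlB, ← hl1] at h8
    omega

end Pool.RAT
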