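import Pool.Agent.H42.RAT.AltF

/-!
# RATS (MP_a315fd): characterisations of the sequences tributary to Conway's
-/

set_option autoImplicit false

namespace Pool.RAT

open List

/-- one double step of Conway's sequence -/
theorem ray_step (m : ℕ) (hm : 2 ≤ m) :
    rats (Nat.ofDigits 10 (bA 1 1 m 4)) = Nat.ofDigits 10 (bB 2 m 4 0) ∧
      rats (Nat.ofDigits 10 (bB 2 m 4 0)) = Nat.ofDigits 10 (bA 1 1 (m + 1) 4) := by
  obtain ⟨k, rfl⟩ := Nat.exists_eq_add_of_le' hm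
  constructor
  · have := stepA_ge 1 1 2 k
    rw [show 2 + k = k + 2 by ring, show 1 + (1 + 2) = 4 by norm_num] at this
    exact this
  · have := stepB 1 k (le_refl _)
    rw [show 4 * 1 + k - 1 = k + 2 + 1 by omega] at this
    exact this

theorem ray {n k m : ℕ} (hm : 2 ≤ m) (h : rats^[k] n = Nat.ofDigits 10 (bA 1 1 m 4)) (j : ℕ) :
    rats^[k + 2 * j] n = Nat.ofDigits 10 (bA 1 1 (m + j) 4) ∧
      rats^[k + 2 * j + 1] n = Nat.ofDigits 10 (bB 2 (m + j) 4 0) := by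
  have key : ∀ j, rats^[k + 2 * j] n = Nat.ofDigits 10 (bA 1 1 (m + j) 4) := by
    intro j
    induction j with
    | zero => exact h
    | succ j ih =>
      obtain ⟨h1, h2⟩ := ray_step (m + j) (by omega)
      rw [show k + 2 * (j + 1) = k + 2 * j + 1 + 1 by ring, Function.iterate_succ_apply',
        Function.iterate_succ_apply', ih, h1, h2, Nat.add_assoc]
  refine ⟨key j, ?_⟩
  rw [Function.iterate_succ_apply', key j, (ray_step (m + j) (by omega)).1]

theorem ray_not_per {n k m : ℕ} (hm : 2 ≤ m) (h : rats^[k] n = Nat.ofDigits 10 (bA 1 1 m 4)) :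
    ¬ ∃ k p, 0 < p ∧ rats^[k + p] n = rats^[k] n := by
  rintro ⟨k₀, p, hp, he⟩
  have h1 : ∀ s, rats^[k₀ + s + p] n = rats^[k₀ + s] n := by
    intro s
    rw [show k₀ + s + p = s + (k₀ + p) by ring, Function.iterate_add_apply, he,
      ← Function.iterate_add_apply, Nat.add_comm s k₀]
  have h2 : rats^[k + 2 * (k₀ + p)] n = rats^[k + 2 * k₀] n := by
    have a1 := h1 (k + k₀ + p)
    have a2 := h1 (k + k₀)
    rw [show k + 2 * (k₀ + p) = k₀ + (k + k₀ + p) + p by ring, a1,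
      show k₀ + (k + k₀ + p) = k₀ + (k + k₀) + p by ring, a2]
    congr 1
    ring
  rw [(ray hm h (k₀ + p)).1, (ray hm h k₀).1] at h2
  have h3 := congrArg (fun x => (Nat.digits 10 x).length) h2
  simp only [digits_st (st_bA _ _ _ _), len_bA] at h3
  omega

theorem trib_iff_ray (m : ℕ) :
    Nat.ofDigits 10 (bA 1 1 m 4) = Nat.ofDigits 10 (replicate 4 4 ++ replicate m 3 ++ [2, 1]) := by
  congr 1

theorem ray_carry {m : ℕ} :
    (∀ i, ¬ carry (Nat.ofDigits 10 (bA 1 1 m 4)) (rev (Nat.ofDigits 10 (bA 1 1 m 4))) i) ∧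
    (∀ i < (Nat.digits 10 (Nat.ofDigits 10 (bB 2 m 4 0))).length,
      carry (Nat.ofDigits 10 (bB 2 m 4 0)) (rev (Nat.ofDigits 10 (bB 2 m 4 0))) i) := by
  constructor
  · apply nc_of (st_bA _ _ _ _)
    intro s hs
    obtain ⟨x, hx, y, hy, rfl⟩ := mem_cs hs
    simp only [bA, mem_append, mem_replicate] at hx hy
    omega
  · rw [digits_st (st_bB _ _ _ _)]
    intro i hi
    apply ac_of (st_bB _ _ _ _) _ i hi
    intro s hs
    obtain ⟨x, hx, y, hy, rfl⟩ := mem_cs hs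
    have := le_bB hx
    have := le_bB hy
    omega

/-- the step `78 ↦ 156 ↦ 78` -/
theorem rats_78 : rats (Nat.ofDigits 10 [8, 7]) = Nat.ofDigits 10 [6, 5, 1] ∧
    rats (Nat.ofDigits 10 [6, 5, 1]) = Nat.ofDigits 10 [8, 7] := by
  have h1 : Nat.digits 10 (Nat.ofDigits 10 [8, 7]) = [8, 7] := digits_st ⟨by simp, by simp⟩
  have h2 : Nat.digits 10 (Nat.ofDigits 10 [6, 5, 1]) = [6, 5, 1] := digits_st ⟨by simp, by simp⟩
  constructor
  · rw [rats, h1]
    have e : Nat.ofDigits 10 [8, 7] + Nat.ofDigits 10 [8, 7].reverse = 165 := by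
      simp [Nat.ofDigits_cons]
    rw [e]
    have e2 : Nat.digits 10 165 = [5, 6, 1] := by simp
    rw [e2]
    congr 1
    exact sort_eq (by decide) (by simp)
  · rw [rats, h2]
    have e : Nat.ofDigits 10 [6, 5, 1] + Nat.ofDigits 10 [6, 5, 1].reverse = 807 := by
      simp [Nat.ofDigits_cons]
    rw [e]
    have e2 : Nat.digits 10 807 = [7, 0, 8] := by simp
    rw [e2]
    have e3 : [7, 0, 8].mergeSort (fun a b => decide (b ≤ a)) = [8, 7, 0] :=
      sort_eq (by decide) (by simp)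
    rw [e3]
    simp [Nat.ofDigits_cons]

theorem cyc_78 {n k : ℕ} (h : rats^[k] n = 78) (j : ℕ) : rats^[k + 2 * j] n = Nat.ofDigits 10 [8, 7] := by
  have e : Nat.ofDigits 10 [8, 7] = 78 := by simp [Nat.ofDigits_cons]
  induction j with
  | zero => rw [e]; exact h
  | succ j ih =>
    rw [show k + 2 * (j + 1) = k + 2 * j + 1 + 1 by ring, Function.iterate_succ_apply',
      Function.iterate_succ_apply', ih, rats_78.1, rats_78.2]

/-- MAIN THEOREM -/
theorem main (n : ℕ) (hn : 0 < n) :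
    (Trib n ↔ ∃ K, ∀ j, ∀ d ∈ Nat.digits 10 (rats^[K + 2 * j] n), d ≤ 4) ∧
    ((Trib n ∨ ∃ k, rats^[k] n = 78) ↔
      ∃ K, ∀ j, ∀ d ∈ Nat.digits 10 (rats^[K + 2 * j] n), 5 ≤ d) ∧
    ((Trib n ∨ ∃ k t, 1 ≤ t ∧
        rats^[k] n = Nat.ofDigits 10 (replicate t 7 ++ replicate (2 * t) 1)) ↔
      ∃ K, ∀ j, (∀ i, ¬ carry (rats^[K + 2 * j] n) (rev (rats^[K + 2 * j] n)) i) ∧
        (∀ i < (Nat.digits 10 (rats^[K + 2 * j + 1] n)).length,
          carry (rats^[K + 2 * j + 1] n) (rev (rats^[K + 2 * j + 1] n)) i)) := by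
  refine ⟨⟨?_, ?_⟩, ⟨?_, ?_⟩, ⟨?_, ?_⟩⟩
  · rintro ⟨k, m, hm, h⟩
    refine ⟨k, fun j d hd => ?_⟩
    rw [(ray hm h j).1, digits_st (st_bA _ _ _ _)] at hd
    simp only [bA, mem_append, mem_replicate] at hd
    omega
  · rintro ⟨K, h⟩
    exact four_trib hn h
  · rintro (⟨k, m, hm, h⟩ | ⟨k, h⟩)
    · refine ⟨k + 1, fun j d hd => ?_⟩
      rw [show k + 1 + 2 * j = k + 2 * j + 1 by ring, (ray hm h j).2,
        digits_st (st_bB _ _ _ _)] at hd
      exact (le_bB hd).1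
    · refine ⟨k, fun j d hd => ?_⟩
      rw [cyc_78 h j, digits_st ⟨by simp, by simp⟩] at hd
      simp only [mem_cons, not_mem_nil, or_false] at hd
      omega
  · rintro ⟨K, h⟩
    exact five_all hn h
  · rintro (⟨k, m, hm, h⟩ | ⟨k, t, ht, h⟩)
    · refine ⟨k, fun j => ?_⟩
      rw [(ray hm h j).1, (ray hm h j).2]
      exact ray_carry
    · refine ⟨k, fun j => ?_⟩
      rw [(cyc_71 ht h j).1, (cyc_71 ht h j).2]
      exact cyc_carry t
  · rintro ⟨K, h⟩
    exact alt_all hn (fun j => (h j).1) (fun j => (h j).2)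

end Pool.RAT
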