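import Pool.Agent.H42.RAT.Blocks

/-!
# RATS (MP_a315fd): the final phase

A run whose every second term has digits `≤ 4` and digit sum `3 L + 1` reaches `1 2 3^m 4^4`.
-/

set_option autoImplicit false

namespace Pool.RAT

open List

theorem len_bA (a b c e : ℕ) : (bA a b c e).length = a + b + c + e := by
  simp only [bA, length_append, length_replicate]; omega

theorem sum_bA (a b c e : ℕ) : (bA a b c e).sum = a + 2 * b + 3 * c + 4 * e := by
  simp only [bA, sum_append, sum_replicate, smul_eq_mul]; omega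

/-- a sorted list of digits `1 ≤ d ≤ 4` is a block list -/
theorem eq_bA {l : List ℕ} (h : St l) (h4 : ∀ d ∈ l, d ≤ 4) :
    l = bA (l.count 1) (l.count 2) (l.count 3) (l.count 4) := by
  apply Perm.eq_of_pairwise' h.1 (st_bA _ _ _ _).1
  rw [perm_iff_count]
  intro x
  simp only [bA, count_append, count_replicate, beq_iff_eq]
  by_cases hx : x ∈ l
  · have h1 := (h.2 x hx).1
    have h2 := h4 x hx
    interval_cases x <;> simp
  · rw [count_eq_zero.mpr hx]
    have : ∀ y, y ≠ x ∨ l.count y = 0 := by
      intro y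
      by_cases hy : y = x
      · right; rw [hy]; exact count_eq_zero.mpr hx
      · exact Or.inl hy
    have a1 := this 1
    have a2 := this 2
    have a3 := this 3
    have a4 := this 4
    split_ifs <;> omega

theorem cnt10 (P : List ℕ) (hP : ∀ x ∈ P, 6 ≤ x) (g : ℕ) :
    (cs (P ++ replicate (P.length + g) 5)).count 10 = g := by
  have e1 : P ++ replicate (P.length + g) 5 = P ++ (replicate g 5 ++ replicate P.length 5) := by
    rw [Nat.add_comm, replicate_add]
  have e2 : (P ++ replicate (P.length + g) 5).reverse =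
      replicate P.length 5 ++ (replicate g 5 ++ P.reverse) := by
    rw [reverse_append, reverse_replicate, replicate_add, append_assoc]
  rw [cs, e2, e1, zipWith_append (by simp), zipWith_append (by simp), zip_rep, count_append,
    count_append, count_replicate]
  have h1 : (List.zipWith (· + ·) P (replicate P.length 5)).count 10 = 0 := by
    rw [count_eq_zero]
    intro h
    obtain ⟨i, hi, he⟩ := mem_iff_getElem.mp h
    rw [getElem_zipWith, getElem_replicate] at he
    have := hP _ (getElem_mem (l := P) (n := i) (by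
      rw [length_zipWith] at hi; omega))
    omega
  have h2 : (List.zipWith (· + ·) (replicate P.length 5) P.reverse).count 10 = 0 := by
    rw [count_eq_zero]
    intro h
    obtain ⟨i, hi, he⟩ := mem_iff_getElem.mp h
    rw [getElem_zipWith, getElem_replicate] at he
    have := hP _ (mem_reverse.mp (getElem_mem (l := P.reverse) (n := i) (by
      rw [length_zipWith] at hi; omega)))
    omega
  rw [h1, h2]
  simp

theorem cnt10' (P : List ℕ) (hP : ∀ x ∈ P, 6 ≤ x) (p : ℕ) (hp : p ≤ P.length) :
    (cs (P ++ replicate p 5)).count 10 = 0 := by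
  rw [count_eq_zero]
  intro h
  rw [cs] at h
  obtain ⟨i, hi, he⟩ := mem_iff_getElem.mp h
  rw [length_zipWith, length_reverse, Nat.min_self, length_append, length_replicate] at hi
  have hr : (P ++ replicate p 5).reverse = replicate p 5 ++ P.reverse := by
    rw [reverse_append, reverse_replicate]
  simp only [hr] at he
  rw [getElem_zipWith] at he
  by_cases h1 : i < P.length
  · rw [getElem_append_left h1] at he
    have h2 := hP _ (getElem_mem (l := P) h1)
    by_cases h3 : i < p
    · rw [getElem_append_left (by simpa using h3), getElem_replicate] at he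
      omega
    · rw [getElem_append_right (by simpa using h3)] at he
      have h4 := hP _ (mem_reverse.mp (getElem_mem (l := P.reverse)
        (n := i - (replicate p 5).length) (by simp; omega)))
      omega
  · rw [getElem_append_right (by omega), getElem_replicate] at he
    rw [getElem_append_right (by rw [length_replicate]; omega)] at he
    have h4 := hP _ (mem_reverse.mp (getElem_mem (l := P.reverse)
        (n := i - (replicate p 5).length) (by simp; omega)))
    omega

/-- digits between 5 and 8: every column carries -/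
theorem bB_F {p q r u : ℕ} {a : ℕ} {t : List ℕ} (h : cs (bB p q r u) = a :: t) :
    ∀ d ∈ t, 10 ≤ d := by
  intro d hd
  have : d ∈ cs (bB p q r u) := by rw [h]; exact mem_cons_of_mem _ hd
  obtain ⟨x, hx, y, hy, rfl⟩ := mem_cs this
  simp only [bB, mem_append, mem_replicate] at hx hy
  omega

/-- one double step, few threes -/
theorem double_le (a b c k : ℕ) (ha : 1 ≤ a) (hk : 1 ≤ k) :
    ∃ D : List ℕ, (∀ d ∈ D, d < 10) ∧
      rats (rats (Nat.ofDigits 10 (bA a b c (a + (b + (c + k)))))) = Nat.ofDigits 10 (nz D) ∧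
      1 ≤ D.count 3 ∧ D.count 1 = 1 + (2 * a - (k + 2 * c + 2 * b)) ∧
      (a = 1 → c = 1 → k = 1 → 2 ≤ D.count 3) := by
  rw [stepA_le]
  obtain ⟨a', rfl⟩ := Nat.exists_eq_add_of_le' ha
  obtain ⟨k', rfl⟩ := Nat.exists_eq_add_of_le' hk
  set P : List ℕ := replicate (k' + 1) 8 ++ (replicate (2 * c) 7 ++ replicate (2 * b) 6) with hP
  have hB : bB (2 * (a' + 1)) (2 * b) (2 * c) (k' + 1) = P ++ replicate (2 * (a' + 1)) 5 := by
    simp only [bB, hP, append_assoc]
  have hPl : P.length = k' + 1 + 2 * c + 2 * b := by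
    simp only [hP, length_append, length_replicate]; omega
  have hP6 : ∀ x ∈ P, 6 ≤ x := by
    intro x hx
    simp only [hP, mem_append, mem_replicate] at hx
    omega
  have hcnt : (cs (bB (2 * (a' + 1)) (2 * b) (2 * c) (k' + 1))).count 10 =
      2 * (a' + 1) - (k' + 1 + 2 * c + 2 * b) := by
    rw [hB]
    by_cases h : 2 * (a' + 1) ≤ P.length
    · rw [cnt10' P hP6 _ h]; omega
    · have := cnt10 P hP6 (2 * (a' + 1) - P.length)
      rw [show P.length + (2 * (a' + 1) - P.length) = 2 * (a' + 1) by omega] at this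
      rw [this, hPl]
  -- the first column
  have hc : ∃ t, cs (bB (2 * (a' + 1)) (2 * b) (2 * c) (k' + 1)) = 13 :: t ∧
      (a' + 1 = 1 → c = 1 → k' + 1 = 1 → ∃ t', t = 12 :: t') := by
    have e1 : bB (2 * (a' + 1)) (2 * b) (2 * c) (k' + 1) =
        8 :: (replicate k' 8 ++ (replicate (2 * c) 7 ++ (replicate (2 * b) 6 ++
          replicate (2 * (a' + 1)) 5))) := by
      simp only [bB, replicate_succ, cons_append]
    have e2 : (bB (2 * (a' + 1)) (2 * b) (2 * c) (k' + 1)).reverse =
        5 :: (replicate (2 * a' + 1) 5 ++ (replicate (2 * b) 6 ++ (replicate (2 * c) 7 ++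
          replicate (k' + 1) 8))) := by
      simp only [bB, reverse_append, reverse_replicate, append_assoc]
      rw [show 2 * (a' + 1) = (2 * a' + 1) + 1 by ring, replicate_succ, cons_append]
    rw [cs, e2, e1, zipWith_cons_cons]
    refine ⟨_, rfl, ?_⟩
    intro h1 h2 h3
    have h1' : a' = 0 := by omega
    have h3' : k' = 0 := by omega
    subst h1' h2 h3'
    simp [replicate_succ]
  obtain ⟨t, ht, ht2⟩ := hc
  have hF := rats_F (st_bB _ _ _ _) ht (by norm_num) (fun d hd => by
    have := bB_F ht d hd; omega)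
  refine ⟨_, ?_, hF, ?_, ?_, ?_⟩
  · intro d hd
    rw [mem_cons, mem_append, mem_map, mem_singleton] at hd
    rcases hd with rfl | ⟨e, he, rfl⟩ | rfl
    · norm_num
    · have : e ∈ cs (bB (2 * (a' + 1)) (2 * b) (2 * c) (k' + 1)) := by
        rw [ht]; exact mem_cons_of_mem _ he
      obtain ⟨x, hx, y, hy, rfl⟩ := mem_cs this
      simp only [bB, mem_append, mem_replicate] at hx hy
      omega
    · norm_num
  · simp
  · rw [← hcnt, ht]
    have h10 : ∀ s : List ℕ, (∀ d ∈ s, 10 ≤ d) → (s.map (fun d => d - 9)).count 1 = s.count 10 := by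
      intro s hs
      induction s with
      | nil => simp
      | cons x s ih =>
        have hx := hs x mem_cons_self
        have := ih (fun d hd => hs d (mem_cons_of_mem _ hd))
        rw [map_cons, count_cons, count_cons, this]
        simp only [beq_iff_eq]
        have : (x - 9 = 1) ↔ (x = 10) := by omega
        simp only [this]
    have e13 : (13 :: t).count 10 = t.count 10 := count_cons_of_ne (by norm_num)
    rw [e13, count_cons_of_ne (by norm_num), count_append, h10 t (bB_F ht), count_singleton_self]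
    omega
  · intro h1 h2 h3
    obtain ⟨t', rfl⟩ := ht2 h1 h2 h3
    simp

/-- one double step, many threes -/
theorem double_ge (a b k : ℕ) (ha : 1 ≤ a) :
    (∃ m, 2 ≤ m ∧ rats (rats (Nat.ofDigits 10 (bA a b (a + 1 + k) (a + (b + (a + 1)))))) =
      Nat.ofDigits 10 (bA 1 1 m 4)) ∨
    (∃ D : List ℕ, (∀ d ∈ D, d < 10) ∧
      rats (rats (Nat.ofDigits 10 (bA a b (a + 1 + k) (a + (b + (a + 1)))))) = Nat.ofDigits 10 (nz D) ∧
      5 ∈ D) := by
  rw [stepA_ge]
  by_cases h : 2 ≤ 2 * b + k
  · left
    obtain ⟨g, hg⟩ := Nat.exists_eq_add_of_le' h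
    rw [hg, show 2 * (a + 1) = 2 * a + 2 by ring, stepB a g ha]
    exact ⟨_, by omega, rfl⟩
  · right
    have hb : b = 0 := by omega
    subst hb
    have key : ∃ t, cs (bB (2 * a) (2 * 0 + k) (2 * (a + 1)) 0) = 12 :: t ∧ 14 ∈ t := by
      rw [show 2 * (a + 1) = 2 * a + 2 by ring, show 2 * 0 + k = k by ring]
      have : k = 0 ∨ k = 1 := by omega
      rcases this with rfl | rfl
      · exact mem_cs0 _ (by omega)
      · exact mem_cs1 _ (by omega)
    obtain ⟨t, ht, h14⟩ := key
    have hF := rats_F (st_bB _ _ _ _) ht (by norm_num) (fun d hd => by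
      have := bB_F ht d hd; omega)
    refine ⟨_, ?_, hF, ?_⟩
    · intro d hd
      rw [mem_cons, mem_append, mem_map, mem_singleton] at hd
      rcases hd with rfl | ⟨e, he, rfl⟩ | rfl
      · norm_num
      · have : e ∈ cs (bB (2 * a) (2 * 0 + k) (2 * (a + 1)) 0) := by
          rw [ht]; exact mem_cons_of_mem _ he
        obtain ⟨x, hx, y, hy, rfl⟩ := mem_cs this
        simp only [bB, mem_append, mem_replicate] at hx hy
        omega
      · norm_num
    · rw [mem_cons, mem_append, mem_map]
      right; left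
      exact ⟨14, h14, rfl⟩

/-- THE FINAL PHASE -/
theorem phase (X : ℕ → ℕ) (hX : ∀ j, X (j + 1) = rats (rats (X j)))
    (hst : ∀ j, St (Nat.digits 10 (X j)))
    (h4 : ∀ j, ∀ d ∈ Nat.digits 10 (X j), d ≤ 4)
    (hD : ∀ j, (Nat.digits 10 (X j)).sum = 3 * (Nat.digits 10 (X j)).length + 1)
    (h1 : ∀ j, 1 ≤ (Nat.digits 10 (X j)).count 1) :
    ∃ j m, 2 ≤ m ∧ X j = Nat.ofDigits 10 (bA 1 1 m 4) := by
  have hform : ∀ j, ∃ a b c, 1 ≤ a ∧ a = (Nat.digits 10 (X j)).count 1 ∧
      c = (Nat.digits 10 (X j)).count 3 ∧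
      X j = Nat.ofDigits 10 (bA a b c (a + (b + (a + 1)))) := by
    intro j
    set l := Nat.digits 10 (X j) with hl
    have e := eq_bA (hst j) (h4 j)
    refine ⟨l.count 1, l.count 2, l.count 3, h1 j, rfl, rfl, ?_⟩
    have hd := hD j
    rw [e, sum_bA, len_bA] at hd
    have h5 : l.count 4 = l.count 1 + (l.count 2 + (l.count 1 + 1)) := by
      rw [← hl] at hd
      omega
    rw [← h5, ← e, Nat.ofDigits_digits]
  -- a term with many threes
  have hge : ∀ j, (Nat.digits 10 (X j)).count 1 + 1 ≤ (Nat.digits 10 (X j)).count 3 →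
      ∃ j m, 2 ≤ m ∧ X j = Nat.ofDigits 10 (bA 1 1 m 4) := by
    intro j hj
    obtain ⟨a, b, c, ha, ea, ec, ex⟩ := hform j
    rw [← ea, ← ec] at hj
    obtain ⟨k, rfl⟩ := Nat.exists_eq_add_of_le hj
    rcases double_ge a b k ha with ⟨m, hm, he⟩ | ⟨D, hD10, he, h5⟩
    · exact ⟨j + 1, m, hm, by rw [hX, ex, he]⟩
    · exfalso
      have h6 : Nat.digits 10 (X (j + 1)) = nz D := by
        rw [hX, ex, he, digits_st (nz_st hD10)]
      have := h4 (j + 1) 5 (by rw [h6, mem_nz]; exact ⟨h5, by norm_num⟩)
      omega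
  -- a term with few threes
  have hle : ∀ j, (Nat.digits 10 (X j)).count 3 < (Nat.digits 10 (X j)).count 1 + 1 →
      1 ≤ (Nat.digits 10 (X (j + 1))).count 3 ∧
      (1 ≤ (Nat.digits 10 (X j)).count 3 → 2 ≤ (Nat.digits 10 (X j)).count 1 →
        (Nat.digits 10 (X (j + 1))).count 1 < (Nat.digits 10 (X j)).count 1) ∧
      (1 ≤ (Nat.digits 10 (X j)).count 3 → (Nat.digits 10 (X j)).count 1 = 1 →
        (Nat.digits 10 (X (j + 1))).count 1 + 1 ≤ (Nat.digits 10 (X (j + 1))).count 3) := by
    intro j hj
    obtain ⟨a, b, c, ha, ea, ec, ex⟩ := hform j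
    rw [← ea, ← ec] at hj ⊢
    obtain ⟨k, hk⟩ := Nat.exists_eq_add_of_le (show c ≤ a + 1 by omega)
    have hk1 : 1 ≤ k := by omega
    rw [hk] at ex
    obtain ⟨D, hD10, he, c3, c1, c2⟩ := double_le a b c k ha hk1
    have h6 : Nat.digits 10 (X (j + 1)) = nz D := by
      rw [hX, ex, he, digits_st (nz_st hD10)]
    rw [h6, count_nz _ _ (by norm_num), count_nz _ _ (by norm_num)]
    refine ⟨c3, ?_, ?_⟩
    · intro h1 h2
      rw [c1]; omega
    · intro h1 h2
      have h3 := c2 h2 (by omega) (by omega)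
      rw [c1]; omega
  have main : ∀ n j, (Nat.digits 10 (X j)).count 1 = n → 1 ≤ (Nat.digits 10 (X j)).count 3 →
      ∃ j m, 2 ≤ m ∧ X j = Nat.ofDigits 10 (bA 1 1 m 4) := by
    intro n
    induction n using Nat.strong_induction_on with
    | _ n ih =>
      intro j hj h3
      by_cases hc : (Nat.digits 10 (X j)).count 1 + 1 ≤ (Nat.digits 10 (X j)).count 3
      · exact hge j hc
      · obtain ⟨a1, a2, a3⟩ := hle j (by omega)
        have := h1 j
        by_cases h2 : 2 ≤ (Nat.digits 10 (X j)).count 1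
        · exact ih _ (by rw [← hj]; exact a2 h3 h2) (j + 1) rfl a1
        · exact hge (j + 1) (a3 h3 (by omega))
  by_cases hc : (Nat.digits 10 (X 0)).count 1 + 1 ≤ (Nat.digits 10 (X 0)).count 3
  · exact hge 0 hc
  · exact main _ 1 rfl (hle 0 (by omega)).1

end Pool.RAT
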