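import Pool.Agent.H42.RAT.Phase

/-!
# RATS (MP_a315fd): the potential argument
-/

set_option autoImplicit false

namespace Pool.RAT

open List

/-- digit sums and lengths of a run of alternate carry-free and all-carry additions -/
theorem pot (S L : ℕ → ℤ) (hS : ∀ j, S (j + 1) = 4 * S j - 9 * L j) (hL : ∀ j, L (j + 1) ≤ L j + 1)
    (h9 : ∀ j, S j ≤ 9 * L j) (h0 : ∀ j, 0 ≤ S j) :
    (∃ J, ∀ j, J ≤ j → S j = 3 * L j + 1 ∧ L (j + 1) = L j + 1) ∨
    (∃ J, ∀ j, J ≤ j → S j = 3 * L j ∧ L (j + 1) = L j) := by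
  have hL0 : ∀ j, 0 ≤ L j := fun j => by have := h9 j; have := h0 j; omega
  have hLi : ∀ j (i : ℕ), L (j + i) ≤ L j + i := by
    intro j i
    induction i with
    | zero => simp
    | succ i ih =>
      have := hL (j + i)
      rw [← Nat.add_assoc]
      push_cast
      omega
  have h1 : ∀ j, S j - 3 * L j ≤ 1 := by
    intro j
    by_contra hc
    have hgr : ∀ i : ℕ, 1 + (4 : ℤ) ^ i ≤ S (j + i) - 3 * L (j + i) := by
      intro i
      induction i with
      | zero => simp only [pow_zero, Nat.add_zero]; omega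
      | succ i ih =>
        have a1 := hS (j + i)
        have a2 := hL (j + i)
        rw [← Nat.add_assoc, pow_succ]
        omega
    obtain ⟨n, hn⟩ := Int.eq_ofNat_of_zero_le (hL0 j)
    have h2 := hgr (6 * n + 6)
    have h3 := hLi j (6 * n + 6)
    have h4 := h9 (j + (6 * n + 6))
    have h5 : (6 * n + 6 : ℕ) < 2 ^ (6 * n + 6) := Nat.lt_two_pow_self
    have h6 : ((6 * n + 7 : ℕ) : ℤ) ^ 2 ≤ (4 : ℤ) ^ (6 * n + 6) := by
      have : (6 * n + 7) ^ 2 ≤ 4 ^ (6 * n + 6) := by
        calc (6 * n + 7) ^ 2 ≤ (2 ^ (6 * n + 6)) ^ 2 := Nat.pow_le_pow_left (by omega) 2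
          _ = 4 ^ (6 * n + 6) := by rw [← pow_mul, mul_comm, pow_mul]; norm_num
      exact_mod_cast this
    push_cast at h6 h3
    nlinarith
  by_cases hex : ∃ J, S J = 3 * L J + 1
  · left
    obtain ⟨J, hJ⟩ := hex
    refine ⟨J, ?_⟩
    have key : ∀ i, S (J + i) = 3 * L (J + i) + 1 := by
      intro i
      induction i with
      | zero => simpa using hJ
      | succ i ih =>
        have a1 := hS (J + i)
        have a2 := hL (J + i)
        have a3 := h1 (J + i + 1)
        rw [← Nat.add_assoc]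
        omega
    intro j hj
    obtain ⟨i, rfl⟩ := Nat.exists_eq_add_of_le hj
    have a1 := hS (J + i)
    have a2 := key i
    have a3 := key (i + 1)
    rw [← Nat.add_assoc] at a3
    exact ⟨a2, by omega⟩
  · right
    have hneg : ∀ j, S j ≤ 3 * L j := by
      intro j
      have := h1 j
      have : S j ≠ 3 * L j + 1 := fun h => hex ⟨j, h⟩
      omega
    have hmono : ∀ j, S (j + 1) ≤ S j := by
      intro j
      have := hS j
      have := hneg j
      omega
    obtain ⟨J, hJ⟩ : ∃ J, ∀ j, S J ≤ S j := by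
      have hwf : ∃ J, ∀ j, (S J).toNat ≤ (S j).toNat := by
        obtain ⟨v, ⟨J, hv⟩, hmin⟩ := WellFounded.has_min (wellFounded_lt (α := ℕ))
          (Set.range fun j => (S j).toNat) ⟨_, 0, rfl⟩
        refine ⟨J, fun j => ?_⟩
        have := hmin _ ⟨j, rfl⟩
        simp only at hv
        rw [hv]
        exact not_lt.mp this
      obtain ⟨J, hJ⟩ := hwf
      refine ⟨J, fun j => ?_⟩
      have := hJ j
      have := h0 j
      have := h0 J
      omega
    have hconst : ∀ i, S (J + i) = S J := by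
      intro i
      induction i with
      | zero => rfl
      | succ i ih =>
        have := hmono (J + i)
        have := hJ (J + i + 1)
        rw [← Nat.add_assoc]
        omega
    refine ⟨J, fun j hj => ?_⟩
    obtain ⟨i, rfl⟩ := Nat.exists_eq_add_of_le hj
    have a0 := hconst i
    have a1 := hconst (i + 1)
    have a2 := hconst (i + 1 + 1)
    rw [← Nat.add_assoc] at a1
    rw [show J + (i + 1 + 1) = J + i + 1 + 1 by ring] at a2
    have b1 := hS (J + i)
    have b2 := hS (J + i + 1)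
    constructor <;> omega

theorem head_max {x : ℕ} {m : List ℕ} (h : St (x :: m)) : ∀ d ∈ x :: m, d ≤ x := by
  intro d hd
  rcases mem_cons.mp hd with rfl | hd
  · exact le_refl _
  · exact rel_of_pairwise_cons h.1 hd

/-- the first column -/
theorem cs_cons (x : ℕ) (m : List ℕ) : ∃ y ∈ x :: m, ∃ t, cs (x :: m) = (x + y) :: t := by
  have hne : (x :: m).reverse ≠ [] := by simp
  obtain ⟨y, t', hy⟩ := exists_cons_of_ne_nil hne
  refine ⟨y, ?_, ?_⟩
  · rw [← mem_reverse, hy]; exact mem_cons_self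
  · rw [cs, hy, zipWith_cons_cons]
    exact ⟨_, rfl⟩

/-- digits `≥ 5`: every column carries -/
theorem F5 {m : List ℕ} (hm : St m) (hne : m ≠ []) (h5 : ∀ d ∈ m, 5 ≤ d) :
    ∃ D : List ℕ, (∀ d ∈ D, d < 10) ∧ rats (Nat.ofDigits 10 m) = Nat.ofDigits 10 (nz D) ∧
      1 ∈ D ∧ D.sum + 9 * m.length = 2 * m.sum ∧ D.length = m.length + 1 ∧
      ((∃ d ∈ m, 6 ≤ d) → D.count 0 = 0) := by
  obtain ⟨x, m', rfl⟩ := exists_cons_of_ne_nil hne
  obtain ⟨y, hy, t, ht⟩ := cs_cons x m'
  have hx := h5 x mem_cons_self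
  have hy5 := h5 y hy
  have h18 : ∀ s ∈ cs (x :: m'), 10 ≤ s ∧ s ≤ 18 := by
    intro s hs
    obtain ⟨a, ha, b, hb, rfl⟩ := mem_cs hs
    have := h5 a ha
    have := h5 b hb
    have := (hm.2 a ha).2
    have := (hm.2 b hb).2
    omega
  have hF := rats_F hm ht (by omega) (fun d hd => by
    have := (h18 d (by rw [ht]; exact mem_cons_of_mem _ hd)).1
    omega)
  have hxy := h18 (x + y) (by rw [ht]; exact mem_cons_self)
  have ht18 : ∀ d ∈ t, 10 ≤ d ∧ d ≤ 18 := fun d hd => h18 d (by rw [ht]; exact mem_cons_of_mem _ hd)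
  have hlen : t.length + 1 = (x :: m').length := by
    rw [← len_cs (x :: m'), ht, length_cons]
  refine ⟨_, ?_, hF, ?_, ?_, ?_, ?_⟩
  · intro d hd
    rw [mem_cons, mem_append, mem_map, mem_singleton] at hd
    rcases hd with rfl | ⟨e, he, rfl⟩ | rfl
    · omega
    · have := ht18 e he; omega
    · norm_num
  · simp
  · rw [← hlen, sum_F (by omega) (fun d hd => by have := ht18 d hd; omega), ← ht, sum_cs]
  · rw [← hlen]; simp
  · rintro ⟨d, hd, hd6⟩
    have := head_max hm d hd
    rw [count_eq_zero]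
    intro h0
    rw [mem_cons, mem_append, mem_map, mem_singleton] at h0
    rcases h0 with h0 | ⟨e, he, h0⟩ | h0
    · omega
    · have := ht18 e he; omega
    · omega

end Pool.RAT
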