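import Pool.Agent.H42.RAT.Big

/-!
# RATS (MP_a315fd): runs
-/

set_option autoImplicit false

namespace Pool.RAT

open List

theorem ofDigits_pos_of_st {l : List ℕ} (h : St l) (hne : l ≠ []) : 0 < Nat.ofDigits 10 l := by
  obtain ⟨x, t, rfl⟩ := exists_cons_of_ne_nil hne
  have := (h.2 x mem_cons_self).1
  rw [Nat.ofDigits_cons]
  omega

/-- the digits after one step -/
theorem rats_digits (x : ℕ) : St (Nat.digits 10 (rats x)) ∧ Nat.digits 10 (rats x) =
    nz (Nat.digits 10 (x + Nat.ofDigits 10 (Nat.digits 10 x).reverse)) := by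
  have h : St (nz (Nat.digits 10 (x + Nat.ofDigits 10 (Nat.digits 10 x).reverse))) :=
    nz_st (fun d hd => Nat.digits_lt_base (by norm_num) hd)
  have e : Nat.digits 10 (rats x) =
      nz (Nat.digits 10 (x + Nat.ofDigits 10 (Nat.digits 10 x).reverse)) := by
    rw [rats_nz, digits_st h]
  exact ⟨e ▸ h, e⟩

theorem rats_pos {x : ℕ} (hx : 0 < x) : 0 < rats x := by
  rw [rats_nz]
  apply ofDigits_pos_of_st (nz_st (fun d hd => Nat.digits_lt_base (by norm_num) hd))
  intro h0
  have h1 : ∀ d ∈ Nat.digits 10 (x + Nat.ofDigits 10 (Nat.digits 10 x).reverse), d = 0 := by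
    intro d hd
    by_contra hc
    have : d ∈ nz (Nat.digits 10 (x + Nat.ofDigits 10 (Nat.digits 10 x).reverse)) :=
      mem_nz.mpr ⟨hd, by omega⟩
    rw [h0] at this
    simp at this
  have h2 : Nat.digits 10 (x + Nat.ofDigits 10 (Nat.digits 10 x).reverse) ≠ [] :=
    Nat.digits_ne_nil_iff_ne_zero.mpr (by omega)
  have h3 := Nat.getLast_digit_ne_zero 10 (m := x + Nat.ofDigits 10 (Nat.digits 10 x).reverse)
    (by omega)
  exact h3 (h1 _ (getLast_mem h2))

theorem iter_pos {n : ℕ} (hn : 0 < n) (k : ℕ) : 0 < rats^[k] n := by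
  induction k with
  | zero => exact hn
  | succ k ih => rw [Function.iterate_succ_apply']; exact rats_pos ih

theorem iter_st (n : ℕ) {k : ℕ} (hk : 1 ≤ k) : St (Nat.digits 10 (rats^[k] n)) := by
  obtain ⟨k, rfl⟩ := Nat.exists_eq_add_of_le' hk
  rw [Function.iterate_succ_apply']
  exact (rats_digits _).1

/-- the digits of `ofDigits D`, up to zeros -/
theorem nz_digits {D : List ℕ} (h : ∀ d ∈ D, d < 10) :
    nz (Nat.digits 10 (Nat.ofDigits 10 D)) = nz D := by
  have key : (Nat.digits 10 (Nat.ofDigits 10 D)).filter (fun d => decide (0 < d)) =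
      D.filter (fun d => decide (0 < d)) := by
    induction D with
    | nil => simp
    | cons d D ih =>
      have hd := h d mem_cons_self
      have ih' := ih (fun x hx => h x (mem_cons_of_mem _ hx))
      rw [Nat.ofDigits_cons]
      by_cases h0 : d = 0 ∧ Nat.ofDigits 10 D = 0
      · obtain ⟨rfl, h0⟩ := h0
        rw [h0] at ih' ⊢
        rw [filter_cons_of_neg (by simp), ← ih']
      · rw [Nat.digits_add 10 (by norm_num) d _ hd (by omega)]
        by_cases hd0 : 0 < d
        · rw [filter_cons_of_pos (by simpa using hd0), filter_cons_of_pos (by simpa using hd0), ih']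
        · rw [filter_cons_of_neg (by simpa using hd0), filter_cons_of_neg (by simpa using hd0), ih']
  rw [nz, nz, key]

/-- one carry-free addition followed by one with a carry out of each column -/
theorem dstep {l : List ℕ} (hl : St l) (h9 : ∀ s ∈ cs l, s ≤ 9) :
    St (nz (cs l)) ∧ (cs l).Perm (nz (cs l)) ∧
      rats (Nat.ofDigits 10 l) = Nat.ofDigits 10 (nz (cs l)) ∧
      ∀ a t, cs (nz (cs l)) = a :: t → 10 ≤ a → (∀ d ∈ t, 9 ≤ d) →
        ∃ D, D = (a - 10) :: (t.map (fun d => d - 9) ++ [1]) ∧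
          rats (rats (Nat.ofDigits 10 l)) = Nat.ofDigits 10 (nz D) ∧ St (nz D) ∧
          (nz D).sum + 9 * l.length = 4 * l.sum ∧ (nz D).length + D.count 0 = l.length + 1 := by
  have hpos : ∀ s ∈ cs l, 1 ≤ s := by
    intro s hs
    obtain ⟨x, hx, y, hy, rfl⟩ := mem_cs hs
    have := (hl.2 x hx).1
    omega
  have hst : St (nz (cs l)) := nz_st (fun d hd => by have := h9 d hd; omega)
  have hp : (cs l).Perm (nz (cs l)) := by
    refine ((nz_perm (cs l)).trans ?_).symm
    rw [filter_eq_self.mpr]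
    intro d hd
    have := hpos d hd
    simp only [decide_eq_true_eq]
    omega
  have hr := rats_N hl hst hp
  refine ⟨hst, hp, hr, ?_⟩
  intro a t hc ha ht
  have h18 : ∀ s ∈ cs (nz (cs l)), s ≤ 18 := by
    intro s hs
    obtain ⟨x, hx, y, hy, rfl⟩ := mem_cs hs
    have := (hst.2 x hx).2
    have := (hst.2 y hy).2
    omega
  have hlen : t.length + 1 = l.length := by
    have : (cs (nz (cs l))).length = l.length := by rw [len_cs, ← hp.length_eq, len_cs]
    rw [← this, hc, length_cons]
  have hD10 : ∀ d ∈ (a - 10) :: (t.map (fun d => d - 9) ++ [1]), d < 10 := by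
    intro d hd
    have ha18 := h18 a (by rw [hc]; exact mem_cons_self)
    rw [mem_cons, mem_append, mem_map, mem_singleton] at hd
    rcases hd with rfl | ⟨e, he, rfl⟩ | rfl
    · omega
    · have := h18 e (by rw [hc]; exact mem_cons_of_mem _ he); omega
    · norm_num
  refine ⟨_, rfl, ?_, nz_st hD10, ?_, ?_⟩
  · rw [hr]
    exact rats_F hst hc ha ht
  · have h1 := sum_F ha ht
    rw [← hc, sum_cs, ← hp.sum_eq, sum_cs, hlen] at h1
    rw [sum_nz]
    omega
  · rw [len_nz]
    simp only [length_cons, length_append, length_map, length_nil]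
    omega

/-- no zero: a double step as in `Dbl` -/
theorem dbl_of {l : List ℕ} (hl : St l) (h9 : ∀ s ∈ cs l, s ≤ 9) {a : ℕ} {t : List ℕ}
    (hc : cs (nz (cs l)) = a :: t) 
    (hs : l.sum = 3 * l.length + 1) {D : List ℕ} (hD : D = (a - 10) :: (t.map (fun d => d - 9) ++ [1]))
    (h0 : D.count 0 = 0) (hst : St (nz D)) : Dbl l (nz (cs l)) (nz D) := by
  obtain ⟨h1, h2, -, -⟩ := dstep hl h9
  have h0' : ∀ d ∈ D, d ≠ 0 := by
    intro d hd h
    rw [count_eq_zero] at h0
    exact h0 (h ▸ hd)
  refine ⟨hl, h1, hst, h9, h2, ⟨a, t, hc, ?_, ?_, ?_⟩, hs⟩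
  · have := h0' (a - 10) (by rw [hD]; exact mem_cons_self)
    omega
  · intro d hd
    have := h0' (d - 9) (by
      rw [hD]
      exact mem_cons_of_mem _ (mem_append_left _ (mem_map.mpr ⟨d, hd, rfl⟩)))
    omega
  · rw [← hD]
    refine (nz_perm D).trans ?_
    rw [filter_eq_self.mpr]
    intro d hd
    have := h0' d hd
    simp only [decide_eq_true_eq]
    omega

/-- RUNS WITH DIGIT SUM `3 L + 1` LEAD TO CONWAY'S SEQUENCE -/
theorem run_trib {n K : ℕ} (A B : ℕ → List ℕ)
    (hA : ∀ j, rats^[K + 2 * j] n = Nat.ofDigits 10 (A j))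
    (h : ∀ j, Dbl (A j) (B j) (A (j + 1))) : Trib n := by
  have hlen : ∀ j, j ≤ (A j).length := by
    intro j
    induction j with
    | zero => exact Nat.zero_le _
    | succ j ih => rw [(h j).lenA']; omega
  have hlen2 : ∀ i j, (A i).length ≤ (A (i + j)).length := by
    intro i j
    induction j with
    | zero => exact le_refl _
    | succ j ih => rw [← Nat.add_assoc, (h (i + j)).lenA']; omega
  obtain ⟨j, hj⟩ := big_stop (fun j => A (20 + j)) (fun j => B (20 + j))
    (fun j => h (20 + j)) (hlen 20)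
  have h20 : 20 ≤ (A (20 + j)).length := (hlen 20).trans (hlen2 20 j)
  have e : 19 + j + 1 = 20 + j := by ring
  have h1 := (h (19 + j)).one
  have hs := (h (19 + j)).sumA'
  have hst := (h (19 + j)).stA'
  rw [e] at h1 hs hst
  apply trib_iter (K + 2 * (20 + j))
  rw [hA]
  exact small_trib hst hj h1 hs h20

/-- a bounded sequence is eventually periodic -/
theorem periodic_of_bdd {n : ℕ} (f : ℕ → ℕ) (hf : StrictMono f) (M : ℕ)
    (h : ∀ j, rats^[f j] n < M) : ∃ k p, 0 < p ∧ rats^[k + p] n = rats^[k] n := by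
  obtain ⟨i, j, hij, he⟩ := Finite.exists_ne_map_eq_of_infinite (fun j : ℕ =>
    (⟨rats^[f j] n, h j⟩ : Fin M))
  simp only [Fin.mk.injEq] at he
  rcases Nat.lt_or_gt_of_ne hij with h1 | h1
  · have := hf h1
    exact ⟨f i, f j - f i, by omega, by rw [show f i + (f j - f i) = f j by omega, he]⟩
  · have := hf h1
    exact ⟨f j, f i - f j, by omega, by rw [show f j + (f i - f j) = f i by omega, he]⟩

theorem lt_pow_of_len {x L : ℕ} (h : (Nat.digits 10 x).length ≤ L) : x < 10 ^ L :=
  lt_of_lt_of_le (Nat.lt_base_pow_length_digits (by norm_num)) (Nat.pow_le_pow_right (by norm_num) h)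

end Pool.RAT
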