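import Pool.Agent.H42.RAT.Five

/-!
# RATS (MP_a315fd): digits `1 ≤ d ≤ 5`, digit sum `3 L + 1`, one digit `1`: Conway's sequence
-/

set_option autoImplicit false

namespace Pool.RAT

open List

/-- the step `6^(k+2) 7^2 ↦ 1 3^(k+1) 4^3` -/
theorem stepB0 (k : ℕ) :
    rats (Nat.ofDigits 10 (bB 0 (k + 2) 2 0)) = Nat.ofDigits 10 (bA 1 0 (k + 1) 3) := by
  have h := cs_B 0 k
  have h' : cs (bB 0 (k + 2) 2 0) = 13 :: ([13] ++ (replicate k 12 ++ replicate 2 13)) := by
    rw [show bB 0 (k + 2) 2 0 = bB 0 (k + 2) (0 + 2) 0 by rfl, h]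
    simp [replicate_succ]
  rw [rats_F (st_bB _ _ _ _) h' (by norm_num)]
  · congr 1
    apply nz_eq _ (st_bA _ _ _ _)
    rw [perm_iff_count]
    intro x
    simp only [bA, map_append, map_replicate, count_append, count_cons, count_replicate,
      beq_iff_eq, count_nil, map_cons, map_nil]
    norm_num
    split_ifs <;> omega
  · intro d hd
    simp only [mem_append, mem_replicate, mem_singleton] at hd
    omega

theorem trib_of {x m : ℕ} (hm : 2 ≤ m) (h : x = Nat.ofDigits 10 (bA 1 1 m 4)) : Trib x :=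
  ⟨0, m, hm, h⟩

/-- `f = 0`, `a = 1`, many threes -/
theorem trib_f0 (b k : ℕ) (hk : 2 ≤ 2 * b + k) :
    Trib (Nat.ofDigits 10 (b5 (1 + 0) b (2 + k) (1 + (b + 2)) 0)) := by
  apply trib_rats
  rw [stepA1_ge 1 b 0 2 k]
  obtain ⟨k', hk'⟩ := Nat.exists_eq_add_of_le' hk
  apply trib_rats
  rw [show 2 * b + 2 * 0 + k = k' + 2 by omega]
  rw [show bB (2 * 1) (k' + 2) (2 * 2) 0 = bB (2 * 1) (k' + 2) (2 * 1 + 2) 0 by rfl,
    stepB 1 k' (by norm_num)]
  exact trib_of (by omega) rfl

theorem trib_B0 (k : ℕ) (hk : 3 ≤ k) : Trib (Nat.ofDigits 10 (bB 0 (k + 2) 2 0)) := by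
  apply trib_rats
  rw [stepB0]
  have e : bA 1 0 (k + 1) 3 = b5 (1 + 0) 0 (2 + (k - 1)) (1 + (0 + 2)) 0 := by
    rw [show 2 + (k - 1) = k + 1 by omega]
    simp [b5]
  rw [e]
  exact trib_f0 0 (k - 1) (by omega)

theorem near_trib {l : List ℕ} (h : Near l) (hL : 20 ≤ l.length) : Trib (Nat.ofDigits 10 l) := by
  obtain ⟨hst, h5, h1, h3, hs⟩ := h
  have e := eq_b5 hst h5
  set a := l.count 1 with ha
  set b := l.count 2 with hb
  set c := l.count 3 with hc
  set g := l.count 4 with hg
  set f := l.count 5 with hf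
  have hlen : l.length = a + b + c + g + f := by rw [e, len_b5]
  have hsum : l.sum = a + 2 * b + 3 * c + 4 * g + 5 * f := by rw [e, sum_b5]
  rw [e]
  clear_value a b c g f
  clear e ha hb hc hg hf
  have hcase : f = 0 ∨ f = 1 ∨ f = 2 := by omega
  rcases hcase with rfl | rfl | rfl
  · obtain ⟨k, hk⟩ := Nat.exists_eq_add_of_le (show 2 ≤ c by omega)
    have := trib_f0 b k (by omega)
    rw [show a = 1 + 0 by omega, hk, show g = 1 + (b + 2) by omega]
    exact this
  · obtain ⟨k, hk⟩ := Nat.exists_eq_add_of_le (show 1 ≤ c by omega)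
    rw [show a = 0 + 1 by omega, hk, show g = 0 + (b + 1) by omega]
    apply trib_rats
    rw [stepA1_ge 0 b 1 1 k]
    have := trib_B0 (2 * b + k) (by omega)
    rw [show 2 * b + 2 * 1 + k = 2 * b + k + 2 by ring]
    exact this
  · have hstep := stepA3_ge 1 0 g c
    rw [show 0 + (g + (1 + 0)) = b by omega, show 0 + c = c by omega] at hstep
    rw [show a = 1 by omega]
    apply trib_rats
    rw [show (2 : ℕ) = 1 + (1 + 0) by norm_num, hstep]
    have := trib_B0 (2 * g + c) (by omega)
    rw [show 2 * 1 + 2 * g + c = 2 * g + c + 2 by ring]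
    exact this

/-- one double step from digits `≤ 5` -/
theorem small_step (a b c g f : ℕ) (ha : 1 ≤ a) (hD : g + 2 * f = 2 * a + b + 1)
    (hL : 20 ≤ a + b + c + g + f) :
    Trib (Nat.ofDigits 10 (b5 a b c g f)) ∨
    ∃ l, rats (rats (Nat.ofDigits 10 (b5 a b c g f))) = Nat.ofDigits 10 l ∧ St l ∧
      (∀ d ∈ l, d ≤ 5) ∧ 1 ≤ l.count 1 ∧ l.sum = 3 * l.length + 1 ∧ 20 ≤ l.length ∧
      (l.count 5 < f ∨ (f = 0 ∧ l.count 5 = 0 ∧ 1 ≤ l.count 3 ∧ (1 ≤ c → l.count 1 < a))) := by
  have hnear : ∀ p q r u : ℕ, p ≤ r + u → r + 2 * u = p + 2 → 20 ≤ p + q + r + u →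
      rats (Nat.ofDigits 10 (b5 a b c g f)) = Nat.ofDigits 10 (bB p q r u) →
      Trib (Nat.ofDigits 10 (b5 a b c g f)) := by
    intro p q r u h1 h2 h3 h4
    obtain ⟨l, hr, hn, hl⟩ := step_alpha (q := q) h1 h2 h3
    apply trib_rats
    rw [h4]
    apply trib_rats
    rw [hr]
    exact near_trib hn (by omega)
  by_cases hf : f ≤ a
  · -- fives paired with ones
    obtain ⟨α, hα⟩ := Nat.exists_eq_add_of_le' hf
    have hg : g = α + (b + (1 + α)) := by omega
    by_cases hc : 1 + α ≤ c
    · left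
      obtain ⟨k, hk⟩ := Nat.exists_eq_add_of_le hc
      refine hnear (2 * α) (2 * b + 2 * f + k) (2 * (1 + α)) 0 (by omega) (by omega) (by omega) ?_
      rw [hα, hk, hg]
      exact stepA1_ge α b f (1 + α) k
    · obtain ⟨k, hk⟩ := Nat.exists_eq_add_of_le (show c ≤ 1 + α by omega)
      have hstep : rats (Nat.ofDigits 10 (b5 a b c g f)) =
          Nat.ofDigits 10 (bB (2 * α) (2 * b + 2 * f) (2 * c) k) := by
        have := stepA1_le α b c f k
        rw [← this, hα, hg, hk]
      by_cases hp : 2 * α ≤ 2 * c + k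
      · left
        exact hnear _ _ _ _ hp (by omega) (by omega) hstep
      · right
        obtain ⟨l, hr, hst, h4, h3, h1, hs, hl⟩ :=
          step_beta (q := 2 * b + 2 * f) (show 2 * c + k < 2 * α by omega) (by omega)
        refine ⟨l, by rw [hstep, hr], hst, fun d hd => (h4 d hd).trans (by norm_num), by omega, hs,
          by omega, ?_⟩
        have h50 : l.count 5 = 0 := by
          rw [count_eq_zero]
          intro h
          have := h4 5 h
          omega
        rcases Nat.eq_zero_or_pos f with h0 | h0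
        · right
          refine ⟨h0, h50, h3, ?_⟩
          intro hc1
          omega
        · left; omega
  · -- more fives than ones
    obtain ⟨δ, hδ⟩ := Nat.exists_eq_add_of_le (show a + 1 ≤ f by omega)
    have hf' : f = a + (1 + δ) := by omega
    have hb : b = δ + (g + (1 + δ)) := by omega
    by_cases hc : δ ≤ c
    · left
      obtain ⟨k, hk⟩ := Nat.exists_eq_add_of_le hc
      refine hnear (2 * δ) (2 * a + 2 * g + k) (2 + 2 * δ) 0 (by omega) (by omega) (by omega) ?_
      rw [hf', hk]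
      conv_lhs => rw [hb]
      exact stepA3_ge a δ g k
    · right
      obtain ⟨k, hk⟩ := Nat.exists_eq_add_of_le (show c ≤ δ by omega)
      have hk1 : 1 ≤ k := by omega
      obtain ⟨l, hr, hst, h5, h1, hc5, hs, hl⟩ := step_V (k := k) (p := 2 * c) (q := 2 * a + 2 * g)
        (n := 2 + 2 * (c + k)) hk1 (by omega)
      have hstep : rats (Nat.ofDigits 10 (b5 a b c g f)) =
          Nat.ofDigits 10 (bV k (2 * c) (2 * a + 2 * g) (2 + 2 * (c + k))) := by
        have := stepA3_le a c g k
        rw [← this, hf', ← hk, ← hb]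
      refine ⟨l, by rw [hstep, hr], hst, h5, h1, by omega, by omega, ?_⟩
      left
      omega

theorem small_aux : ∀ n : ℕ, ∀ l : List ℕ, St l → (∀ d ∈ l, d ≤ 5) → 1 ≤ l.count 1 →
    l.sum = 3 * l.length + 1 → 20 ≤ l.length →
    (l.count 5 = n → Trib (Nat.ofDigits 10 l)) := by
  -- no fives, with threes
  have A0 : ∀ n : ℕ, ∀ l : List ℕ, St l → (∀ d ∈ l, d ≤ 5) → 1 ≤ l.count 1 →
      l.sum = 3 * l.length + 1 → 20 ≤ l.length → l.count 5 = 0 → 1 ≤ l.count 3 →
      l.count 1 = n → Trib (Nat.ofDigits 10 l) := by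
    intro n
    induction n using Nat.strong_induction_on with
    | _ n ih =>
      intro l hst h5 h1 hs hL hf h3 hn
      have e := eq_b5 hst h5
      have hlen : l.length = l.count 1 + l.count 2 + l.count 3 + l.count 4 + l.count 5 := by
        conv_lhs => rw [e, len_b5]
      have hsum : l.sum = l.count 1 + 2 * l.count 2 + 3 * l.count 3 + 4 * l.count 4 +
          5 * l.count 5 := by
        conv_lhs => rw [e, sum_b5]
      have hstep := small_step (l.count 1) (l.count 2) (l.count 3) (l.count 4) (l.count 5) h1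
        (by omega) (by omega)
      rw [← e] at hstep
      rcases hstep with h | ⟨l', hr, hst', h5', h1', hs', hL', hd⟩
      · exact h
      · rcases hd with hd | ⟨-, hd1, hd2, hd3⟩
        · omega
        · apply trib_rats
          apply trib_rats
          rw [hr]
          exact ih _ (by have := hd3 h3; omega) l' hst' h5' h1' hs' hL' hd1 hd2 rfl
  intro n
  induction n using Nat.strong_induction_on with
  | _ n ih =>
    intro l hst h5 h1 hs hL hn
    have e := eq_b5 hst h5
    have hlen : l.length = l.count 1 + l.count 2 + l.count 3 + l.count 4 + l.count 5 := by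
      conv_lhs => rw [e, len_b5]
    have hsum : l.sum = l.count 1 + 2 * l.count 2 + 3 * l.count 3 + 4 * l.count 4 +
        5 * l.count 5 := by
      conv_lhs => rw [e, sum_b5]
    have hstep := small_step (l.count 1) (l.count 2) (l.count 3) (l.count 4) (l.count 5) h1
      (by omega) (by omega)
    rw [← e] at hstep
    rcases hstep with h | ⟨l', hr, hst', h5', h1', hs', hL', hd⟩
    · exact h
    · apply trib_rats
      apply trib_rats
      rw [hr]
      rcases hd with hd | ⟨-, hd1, hd2, -⟩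
      · exact ih _ (by omega) l' hst' h5' h1' hs' hL' rfl
      · exact A0 _ l' hst' h5' h1' hs' hL' hd1 hd2 rfl

/-- DIGITS `≤ 5` -/
theorem small_trib {l : List ℕ} (h : St l) (h5 : ∀ d ∈ l, d ≤ 5) (h1 : 1 ≤ l.count 1)
    (hs : l.sum = 3 * l.length + 1) (hL : 20 ≤ l.length) : Trib (Nat.ofDigits 10 l) :=
  small_aux _ l h h5 h1 hs hL rfl

end Pool.RAT
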