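import Pool.Agent.H42.RAT.Pot

/-!
# RATS (MP_a315fd): thresholds in sorted lists
-/

set_option autoImplicit false

namespace Pool.RAT

open List

/-- the number of entries `≥ v` -/
def cg (v : ℕ) (l : List ℕ) : ℕ := l.countP (fun d => decide (v ≤ d))

theorem cg_le (v : ℕ) (l : List ℕ) : cg v l ≤ l.length := countP_le_length

theorem cg_cons (v x : ℕ) (l : List ℕ) : cg v (x :: l) = cg v l + if v ≤ x then 1 else 0 := by
  simp only [cg, countP_cons, decide_eq_true_eq]

theorem thr {l : List ℕ} (h : l.Pairwise (· ≥ ·)) (v i : ℕ) (hi : i < l.length) :
    v ≤ l[i] ↔ i < cg v l := by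
  induction l generalizing i with
  | nil => simp at hi
  | cons x t ih =>
    rw [cg_cons]
    have hx : ∀ d ∈ t, d ≤ x := fun d hd => rel_of_pairwise_cons h hd
    have ht := h.of_cons
    cases i with
    | zero =>
      simp only [getElem_cons_zero]
      split_ifs with hv
      · simp [hv]
      · have h0 : cg v t = 0 := by
          rw [cg, countP_eq_zero]
          intro d hd
          have := hx d hd
          simp only [decide_eq_true_eq]
          omega
        rw [h0]
        simp [hv]
    | succ i =>
      simp only [getElem_cons_succ]
      have hi' : i < t.length := by simpa using hi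
      rw [ih ht i hi']
      split_ifs with hv
      · omega
      · have h0 : cg v t = 0 := by
          rw [cg, countP_eq_zero]
          intro d hd
          have := hx d hd
          simp only [decide_eq_true_eq]
          omega
        rw [h0]
        omega

theorem cs_get (l : List ℕ) (i : ℕ) (hi : i < l.length) :
    (cs l)[i]'(by rw [len_cs]; exact hi) = l[i] + l[l.length - 1 - i] := by
  simp only [cs, getElem_zipWith, getElem_reverse]

/-- a column sum, with the larger entry first -/
theorem col {l : List ℕ} {s : ℕ} (hs : s ∈ cs l) :
    ∃ i, ∃ h1 : i < l.length, ∃ h2 : l.length - 1 - i < l.length,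
      2 * i + 1 ≤ l.length ∧ s = l[i] + l[l.length - 1 - i] := by
  obtain ⟨i, hi, rfl⟩ := mem_iff_getElem.mp hs
  have hi' : i < l.length := by rw [len_cs] at hi; exact hi
  by_cases h : 2 * i + 1 ≤ l.length
  · exact ⟨i, hi', by omega, h, cs_get l i hi'⟩
  · refine ⟨l.length - 1 - i, by omega, by omega, by omega, ?_⟩
    rw [cs_get l i hi', Nat.add_comm]
    congr 1
    · congr 1; omega

/-- all the columns -/
theorem mem_col (l : List ℕ) (i : ℕ) (h1 : i < l.length) (h2 : l.length - 1 - i < l.length) :
    l[i] + l[l.length - 1 - i] ∈ cs l := by
  rw [← cs_get l i h1]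
  exact getElem_mem _

theorem anti {l : List ℕ} (h : l.Pairwise (· ≥ ·)) {i j : ℕ} (hij : i ≤ j) (hj : j < l.length) :
    l[j] ≤ l[i] := by
  rcases Nat.eq_or_lt_of_le hij with rfl | hlt
  · exact le_refl _
  · exact pairwise_iff_getElem.mp h i j (by omega) hj hlt

/-- `x + x` among the column sums of `x^n Q`, `Q < x` -/
theorem cnt_top (x n : ℕ) (Q : List ℕ) (hQ : ∀ d ∈ Q, d < x) :
    (cs (replicate n x ++ Q)).count (x + x) = n - Q.length := by
  by_cases h : Q.length ≤ n
  · obtain ⟨g, rfl⟩ := Nat.exists_eq_add_of_le h
    have e1 : replicate (Q.length + g) x ++ Q = replicate Q.length x ++ (replicate g x ++ Q) := by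
      rw [replicate_add, append_assoc]
    have e2 : (replicate (Q.length + g) x ++ Q).reverse =
        Q.reverse ++ (replicate g x ++ replicate Q.length x) := by
      rw [reverse_append, reverse_replicate, Nat.add_comm, replicate_add]
    rw [cs, e2, e1, zipWith_append (by simp), zipWith_append (by simp), zip_rep, count_append,
      count_append, count_replicate]
    have h1 : (List.zipWith (· + ·) (replicate Q.length x) Q.reverse).count (x + x) = 0 := by
      rw [count_eq_zero]
      intro h
      obtain ⟨i, hi, he⟩ := mem_iff_getElem.mp h
      rw [getElem_zipWith, getElem_replicate] at he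
      have := hQ _ (mem_reverse.mp (getElem_mem (l := Q.reverse) (n := i) (by
        rw [length_zipWith] at hi; omega)))
      omega
    have h2 : (List.zipWith (· + ·) Q (replicate Q.length x)).count (x + x) = 0 := by
      rw [count_eq_zero]
      intro h
      obtain ⟨i, hi, he⟩ := mem_iff_getElem.mp h
      rw [getElem_zipWith, getElem_replicate] at he
      have := hQ _ (getElem_mem (l := Q) (n := i) (by
        rw [length_zipWith] at hi; omega))
      omega
    rw [h1, h2]
    simp
  · rw [show n - Q.length = 0 by omega, count_eq_zero]
    intro hc
    rw [cs] at hc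
    obtain ⟨i, hi, he⟩ := mem_iff_getElem.mp hc
    rw [length_zipWith, length_reverse, Nat.min_self, length_append, length_replicate] at hi
    have hr : (replicate n x ++ Q).reverse = Q.reverse ++ replicate n x := by
      rw [reverse_append, reverse_replicate]
    simp only [hr] at he
    rw [getElem_zipWith] at he
    have hQx : ∀ d ∈ replicate n x ++ Q, d ≤ x := by
      intro d hd
      rw [mem_append, mem_replicate] at hd
      rcases hd with ⟨_, rfl⟩ | hd
      · exact le_refl _
      · exact (hQ d hd).le
    by_cases h1 : i < n
    · have h2 := hQx _ (getElem_mem (l := replicate n x ++ Q) (n := i) (by simp; omega))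
      rw [getElem_append_left (as := Q.reverse) (by rw [length_reverse]; omega)] at he
      have h3 := hQ _ (mem_reverse.mp (getElem_mem (l := Q.reverse) (n := i)
        (by rw [length_reverse]; omega)))
      omega
    · rw [getElem_append_right (as := replicate n x) (by rw [length_replicate]; omega)] at he
      have h3 := hQ _ (getElem_mem (l := Q) (n := i - (replicate n x).length) (by simp; omega))
      have h2 : (Q.reverse ++ replicate n x)[i]'(by simp; omega) ≤ x := by
        apply hQx
        rw [← mem_reverse, hr]
        exact getElem_mem _
      omega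

end Pool.RAT
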