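import Pool.Agent.H42.RAT.Thr

/-!
# RATS (MP_a315fd): steps from digits `≤ 5` with digit sum `3 L + 1`
-/

set_option autoImplicit false

namespace Pool.RAT

open List

theorem cs_wrap (n x y : ℕ) (M : List ℕ) :
    cs (replicate n x ++ (M ++ replicate n y)) =
      replicate n (x + y) ++ (cs M ++ replicate n (y + x)) := by
  have e : (replicate n x ++ (M ++ replicate n y)).reverse =
      replicate n y ++ (M.reverse ++ replicate n x) := by
    simp only [reverse_append, reverse_replicate, append_assoc]
  rw [cs, e, zipWith_append (by simp), zipWith_append (by simp), zip_rep, zip_rep, cs]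

theorem cs_rep (n x : ℕ) : cs (replicate n x) = replicate n (x + x) := by
  rw [cs, reverse_replicate, zip_rep]

theorem permA_le (a b c k : ℕ) :
    (cs (bA a b c (a + (b + (c + k))))).Perm (bB (2 * a) (2 * b) (2 * c) k) := by
  rw [cs_A]
  have e : List.zipWith (· + ·) (replicate (c + k) 4 ++ replicate c 3)
      (replicate c 3 ++ replicate (c + k) 4) =
      replicate c 7 ++ (replicate k 8 ++ replicate c 7) := by
    have e1 : replicate (c + k) 4 ++ replicate c 3 =
        replicate c 4 ++ (replicate k 4 ++ replicate c 3) := by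
      rw [replicate_add, append_assoc]
    have e2 : replicate c 3 ++ replicate (c + k) 4 =
        replicate c 3 ++ (replicate k 4 ++ replicate c 4) := by
      rw [Nat.add_comm c k, replicate_add]
    rw [e1, e2, zipWith_append (by simp), zipWith_append (by simp)]
    simp only [zip_rep]
  rw [e]
  rw [perm_iff_count]
  intro x
  simp only [bB, count_append, count_replicate, beq_iff_eq]
  split_ifs <;> omega

theorem permA_ge (a b h k : ℕ) :
    (cs (bA a b (h + k) (a + (b + h)))).Perm (bB (2 * a) (2 * b + k) (2 * h) 0) := by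
  rw [cs_A]
  have e : List.zipWith (· + ·) (replicate h 4 ++ replicate (h + k) 3)
      (replicate (h + k) 3 ++ replicate h 4) =
      replicate h 7 ++ (replicate k 6 ++ replicate h 7) := by
    have e1 : replicate h 4 ++ replicate (h + k) 3 =
        replicate h 4 ++ (replicate k 3 ++ replicate h 3) := by
      rw [Nat.add_comm h k, replicate_add]
    have e2 : replicate (h + k) 3 ++ replicate h 4 =
        replicate h 3 ++ (replicate k 3 ++ replicate h 4) := by
      rw [replicate_add, append_assoc]
    rw [e1, e2, zipWith_append (by simp), zipWith_append (by simp)]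
    simp only [zip_rep]
  rw [e]
  rw [perm_iff_count]
  intro x
  simp only [bB, count_append, count_replicate, beq_iff_eq]
  split_ifs <;> omega

/-- digits `1 ≤ d ≤ 5` -/
def b5 (a b c e f : ℕ) : List ℕ := replicate f 5 ++ bA a b c e

theorem st_b5 (a b c e f : ℕ) : St (b5 a b c e f) := by
  constructor
  · simp only [b5, bA, pairwise_append, pairwise_replicate, mem_append, mem_replicate]
    refine ⟨Or.inr (le_refl _), ⟨Or.inr (le_refl _), ⟨Or.inr (le_refl _), ⟨Or.inr (le_refl _),
      Or.inr (le_refl _), ?_⟩, ?_⟩, ?_⟩, ?_⟩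
    all_goals
      intro x hx y hy
      omega
  · intro d hd
    simp only [b5, bA, mem_append, mem_replicate] at hd
    omega

theorem len_b5 (a b c e f : ℕ) : (b5 a b c e f).length = a + b + c + e + f := by
  simp only [b5, bA, length_append, length_replicate]; omega

theorem sum_b5 (a b c e f : ℕ) : (b5 a b c e f).sum = a + 2 * b + 3 * c + 4 * e + 5 * f := by
  simp only [b5, bA, sum_append, sum_replicate, smul_eq_mul]; omega

theorem eq_b5 {l : List ℕ} (h : St l) (h5 : ∀ d ∈ l, d ≤ 5) :
    l = b5 (l.count 1) (l.count 2) (l.count 3) (l.count 4) (l.count 5) := by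
  apply Perm.eq_of_pairwise' h.1 (st_b5 _ _ _ _ _).1
  rw [perm_iff_count]
  intro x
  simp only [b5, bA, count_append, count_replicate, beq_iff_eq]
  by_cases hx : x ∈ l
  · have h1 := (h.2 x hx).1
    have h2 := h5 x hx
    interval_cases x <;> simp
  · rw [count_eq_zero.mpr hx]
    have : ∀ y, y ≠ x ∨ l.count y = 0 := by
      intro y
      by_cases hy : y = x
      · right; rw [hy]; exact count_eq_zero.mpr hx
      · exact Or.inl hy
    have a1 := this 1
    have a2 := this 2
    have a3 := this 3
    have a4 := this 4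
    have a5 := this 5
    split_ifs <;> omega

/-- five's paired with ones -/
theorem cs_F1 (α b c e f : ℕ) :
    cs (b5 (α + f) b c e f) = replicate f 6 ++ (cs (bA α b c e) ++ replicate f 6) := by
  have e1 : b5 (α + f) b c e f = replicate f 5 ++ (bA α b c e ++ replicate f 1) := by
    simp only [b5, bA, replicate_add, append_assoc]
  rw [e1, cs_wrap]

/-- few threes, `f ≤ a` -/
theorem stepA1_le (α b c f k : ℕ) :
    rats (Nat.ofDigits 10 (b5 (α + f) b c (α + (b + (c + k))) f)) =
      Nat.ofDigits 10 (bB (2 * α) (2 * b + 2 * f) (2 * c) k) := by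
  apply rats_N (st_b5 _ _ _ _ _) (st_bB _ _ _ _)
  rw [cs_F1]
  refine (((permA_le α b c k).append_right _).append_left _).trans ?_
  rw [perm_iff_count]
  intro x
  simp only [bB, count_append, count_replicate, beq_iff_eq]
  split_ifs <;> omega

/-- many threes, `f ≤ a` -/
theorem stepA1_ge (α b f h k : ℕ) :
    rats (Nat.ofDigits 10 (b5 (α + f) b (h + k) (α + (b + h)) f)) =
      Nat.ofDigits 10 (bB (2 * α) (2 * b + 2 * f + k) (2 * h) 0) := by
  apply rats_N (st_b5 _ _ _ _ _) (st_bB _ _ _ _)
  rw [cs_F1]
  refine (((permA_ge α b h k).append_right _).append_left _).trans ?_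
  rw [perm_iff_count]
  intro x
  simp only [bB, count_append, count_replicate, beq_iff_eq]
  split_ifs <;> omega

/-- `f > a` -/
theorem cs_F3 (a c δ e : ℕ) :
    cs (b5 a (δ + (e + (1 + δ))) c e (a + (1 + δ))) = replicate a 6 ++ (replicate (1 + δ) 7 ++
      (replicate e 6 ++ (cs (replicate c 3 ++ replicate δ 2) ++ replicate e 6) ++
        replicate (1 + δ) 7) ++ replicate a 6) := by
  have e1 : b5 a (δ + (e + (1 + δ))) c e (a + (1 + δ)) =
      replicate a 5 ++ ((replicate (1 + δ) 5 ++ ((replicate e 4 ++ ((replicate c 3 ++ replicate δ 2) ++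
        replicate e 2)) ++ replicate (1 + δ) 2)) ++ replicate a 1) := by
    simp only [b5, bA]
    rw [replicate_add a (1 + δ), replicate_add δ, replicate_add e]
    simp only [append_assoc]
  rw [e1, cs_wrap, cs_wrap, cs_wrap]

/-- `f > a`, many threes -/
theorem stepA3_ge (a δ e k : ℕ) :
    rats (Nat.ofDigits 10 (b5 a (δ + (e + (1 + δ))) (δ + k) e (a + (1 + δ)))) =
      Nat.ofDigits 10 (bB (2 * δ) (2 * a + 2 * e + k) (2 + 2 * δ) 0) := by
  apply rats_N (st_b5 _ _ _ _ _) (st_bB _ _ _ _)
  rw [cs_F3]
  have e1 : replicate (δ + k) 3 ++ replicate δ 2 = replicate δ 3 ++ (replicate k 3 ++ replicate δ 2) := by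
    rw [replicate_add, append_assoc]
  rw [e1, cs_wrap, cs_rep]
  rw [perm_iff_count]
  intro x
  simp only [bB, count_append, count_replicate, beq_iff_eq]
  split_ifs <;> omega

/-- digits `4 ≤ d ≤ 7` -/
def bV (k p q n : ℕ) : List ℕ := replicate n 7 ++ (replicate q 6 ++ (replicate p 5 ++ replicate k 4))

theorem st_bV (k p q n : ℕ) : St (bV k p q n) := by
  constructor
  · simp only [bV, pairwise_append, pairwise_replicate, mem_append, mem_replicate]
    refine ⟨Or.inr (le_refl _), ⟨Or.inr (le_refl _), ⟨Or.inr (le_refl _), Or.inr (le_refl _), ?_⟩, ?_⟩, ?_⟩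
    all_goals
      intro x hx y hy
      omega
  · intro d hd
    simp only [bV, mem_append, mem_replicate] at hd
    omega

/-- `f > a`, few threes -/
theorem stepA3_le (a c e k : ℕ) :
    rats (Nat.ofDigits 10 (b5 a ((c + k) + (e + (1 + (c + k)))) c e (a + (1 + (c + k))))) =
      Nat.ofDigits 10 (bV k (2 * c) (2 * a + 2 * e) (2 + 2 * (c + k))) := by
  apply rats_N (st_b5 _ _ _ _ _) (st_bV _ _ _ _)
  rw [cs_F3]
  have e1 : replicate c 3 ++ replicate (c + k) 2 = replicate c 3 ++ (replicate k 2 ++ replicate c 2) := by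
    rw [Nat.add_comm c k, replicate_add]
  rw [e1, cs_wrap, cs_rep]
  rw [perm_iff_count]
  intro x
  simp only [bV, count_append, count_replicate, beq_iff_eq]
  split_ifs <;> omega

end Pool.RAT
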